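import Pool.Agent.Lib.MP_9fe581_an.AH.CE
import Pool.Agent.Lib.MP_9fe581_an.HT.Char

/-!
# AH, module Four: Parseval for essentially bounded functions on the torus
-/

set_option autoImplicit false
set_option linter.unusedSectionVars false

open MeasureTheory Filter Topology Finset
open scoped ComplexConjugate

namespace Pool.Agent.Lib.MP_9fe581_an.AH

open HT (TX mX ch)

variable {κ : Type} [Fintype κ] [DecidableEq κ]

/-- the Fourier coefficient -/
noncomputable def hat (f : TX κ → ℂ) (n : κ →₀ ℤ) : ℂ := ∫ x, f x * conj (ch n x) ∂mX κ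

/-- the character as a continuous map -/
noncomputable def chC (n : κ →₀ ℤ) : C(TX κ, ℂ) := ⟨ch n, HT.ch_cont n⟩

/-- the character as an element of `L²` -/
noncomputable def chL (n : κ →₀ ℤ) : Lp ℂ 2 (mX κ) := ContinuousMap.toLp 2 (mX κ) ℂ (chC n)

theorem chL_coe (n : κ →₀ ℤ) : chL n =ᵐ[mX κ] ch n := ContinuousMap.coeFn_toLp (mX κ) (chC n)

theorem chC_closure : (Submodule.span ℂ (Set.range (chC (κ := κ)))).topologicalClosure = ⊤ := by
  rw [eq_top_iff]
  rintro f -
  rw [← SetLike.mem_coe, Submodule.topologicalClosure_coe, Metric.mem_closure_iff]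
  intro ε hε
  obtain ⟨S, c, -, h⟩ := HT.ch_dense f f.continuous (ε / 2) (half_pos hε)
  refine ⟨∑ m ∈ S, c m • chC m, ?_, ?_⟩
  · exact Submodule.sum_mem _ fun m _ => Submodule.smul_mem _ _ (Submodule.subset_span ⟨m, rfl⟩)
  · refine lt_of_le_of_lt ?_ (half_lt_self hε)
    rw [ContinuousMap.dist_le (half_pos hε).le]
    intro x
    rw [dist_eq_norm]
    have h1 : (∑ m ∈ S, c m • chC m : C(TX κ, ℂ)) x = ∑ m ∈ S, c m * ch m x := by
      rw [ContinuousMap.sum_apply]
      rfl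
    rw [h1]
    exact h x

theorem chL_closure : (Submodule.span ℂ (Set.range (chL (κ := κ)))).topologicalClosure = ⊤ := by
  have h := (ContinuousMap.toLp_denseRange (p := 2) ℂ (mX κ) ℂ (by simp)).topologicalClosure_map_submodule
    (chC_closure (κ := κ))
  simpa only [Submodule.map_span, ContinuousLinearMap.coe_coe, ← Set.range_comp, Function.comp_def] using! h

theorem chL_orth : Orthonormal ℂ (chL (κ := κ)) := by
  rw [orthonormal_iff_ite]
  intro m n
  rw [L2.inner_def]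
  have h1 : ∫ x, inner ℂ (chL m x) (chL n x) ∂mX κ = ∫ x, ch (n - m) x ∂mX κ := by
    refine integral_congr_ae ?_
    filter_upwards [chL_coe m, chL_coe n] with x a b
    rw [a, b, RCLike.inner_apply, sub_eq_add_neg, HT.ch_add, HT.ch_neg]
  rw [h1, HT.ch_int]
  by_cases h : m = n
  · rw [if_pos h, if_pos (by rw [h, sub_self])]
  · rw [if_neg h, if_neg (fun h2 => h (sub_eq_zero.1 h2).symm)]

/-- Parseval (`ch n` are a Hilbert basis, `UnitAddTorus.mFourierBasis`, or density of trigonometric polynomials `HT.ch_dense`) -/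
theorem pars_zero {f g : TX κ → ℂ} (hf : BM (mX κ) f) (hg : BM (mX κ) g) (h : ∀ n, hat f n = 0 ∨ hat g n = 0) :
    ∫ x, f x * conj (g x) ∂mX κ = 0 := by
  set b : HilbertBasis (κ →₀ ℤ) ℂ (Lp ℂ 2 (mX κ)) := HilbertBasis.mk chL_orth chL_closure.ge with hb
  have hbc : ∀ n, b n = chL n := fun n => by rw [hb, HilbertBasis.coe_mk]
  set F : Lp ℂ 2 (mX κ) := (hf.memLp 2).toLp f with hF
  set G : Lp ℂ 2 (mX κ) := (hg.memLp 2).toLp g with hG
  have hFf : F =ᵐ[mX κ] f := MemLp.coeFn_toLp _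
  have hGg : G =ᵐ[mX κ] g := MemLp.coeFn_toLp _
  have h1 : inner ℂ G F = ∫ x, f x * conj (g x) ∂mX κ := by
    rw [L2.inner_def]
    refine integral_congr_ae ?_
    filter_upwards [hFf, hGg] with x a b
    rw [a, b, RCLike.inner_apply]
  have h2 : ∀ n, inner ℂ (b n) F = hat f n := by
    intro n
    rw [hbc, L2.inner_def]
    refine integral_congr_ae ?_
    filter_upwards [hFf, chL_coe n] with x a b
    rw [a, b, RCLike.inner_apply]
  have h3 : ∀ n, inner ℂ G (b n) = conj (hat g n) := by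
    intro n
    rw [hbc, ← inner_conj_symm, L2.inner_def]
    congr 1
    refine integral_congr_ae ?_
    filter_upwards [hGg, chL_coe n] with x a b
    rw [a, b, RCLike.inner_apply]
  have h4 := b.hasSum_inner_mul_inner G F
  rw [h1] at h4
  refine h4.unique ?_
  convert! hasSum_zero using 2 with n
  rw [h2, h3]
  rcases h n with h5 | h5
  · rw [h5, mul_zero]
  · rw [h5, map_zero, zero_mul]

theorem hat_zero {f : TX κ → ℂ} (hf : BM (mX κ) f) (h : ∀ n, hat f n = 0) : f =ᵐ[mX κ] 0 := by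
  have h1 := pars_zero hf hf fun n => Or.inl (h n)
  rw [int_mul_conj_self] at h1
  have h2 : ∫ x, ‖f x‖ ^ 2 ∂mX κ = 0 := by exact_mod_cast h1
  rw [integral_eq_zero_iff_of_nonneg (fun x => by positivity) hf.int_sq] at h2
  filter_upwards [h2] with x hx
  have hx' : ‖f x‖ ^ 2 = 0 := hx
  simpa using hx'

/-- the partial sums of the Fourier series approximate in the mean -/
theorem four_approx {f : TX κ → ℂ} (hf : BM (mX κ) f) {δ : ℝ} (hδ : 0 < δ) :
    ∃ S : Finset (κ →₀ ℤ), ∫ x, ‖f x - ∑ n ∈ S, hat f n * ch n x‖ ^ 2 ∂mX κ ≤ δ := by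
  set b : HilbertBasis (κ →₀ ℤ) ℂ (Lp ℂ 2 (mX κ)) := HilbertBasis.mk chL_orth chL_closure.ge with hb
  have hbc : ∀ n, b n = chL n := fun n => by rw [hb, HilbertBasis.coe_mk]
  set F : Lp ℂ 2 (mX κ) := (hf.memLp 2).toLp f with hF
  have hFf : F =ᵐ[mX κ] f := MemLp.coeFn_toLp _
  have h2 : ∀ n, b.repr F n = hat f n := by
    intro n
    rw [HilbertBasis.repr_apply_apply, hbc, L2.inner_def]
    refine integral_congr_ae ?_
    filter_upwards [hFf, chL_coe n] with x a b
    rw [a, b, RCLike.inner_apply]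
  have h3 := b.hasSum_repr F
  have h4 : ∀ᶠ S : Finset (κ →₀ ℤ) in atTop, dist (∑ n ∈ S, b.repr F n • b n) F < Real.sqrt δ :=
    (Metric.tendsto_nhds.1 h3) _ (Real.sqrt_pos.2 hδ)
  obtain ⟨S, hS⟩ := h4.exists
  refine ⟨S, ?_⟩
  rw [dist_comm, dist_eq_norm] at hS
  set G : Lp ℂ 2 (mX κ) := F - ∑ n ∈ S, b.repr F n • b n with hG
  have h5 : G =ᵐ[mX κ] fun x => f x - ∑ n ∈ S, hat f n * ch n x := by
    have e1 := Lp.coeFn_sub F (∑ n ∈ S, b.repr F n • b n)
    have e2 : ((∑ n ∈ S, b.repr F n • b n : Lp ℂ 2 (mX κ)) : TX κ → ℂ) =ᵐ[mX κ] fun x => ∑ n ∈ S, hat f n * ch n x := by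
      clear hS hG G e1
      induction S using Finset.induction_on with
      | empty =>
        simp only [sum_empty]
        exact Lp.coeFn_zero _ _ _
      | insert a s ha ih =>
        rw [sum_insert ha]
        have e3 := Lp.coeFn_add (b.repr F a • b a) (∑ n ∈ s, b.repr F n • b n)
        have e4 := Lp.coeFn_smul (b.repr F a) (b a)
        have e5 := chL_coe (κ := κ) a
        filter_upwards [e3, e4, e5, ih] with x c1 c2 c3 c4
        rw [c1, Pi.add_apply, c2, c4, sum_insert ha, Pi.smul_apply, hbc, c3, h2, smul_eq_mul]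
    filter_upwards [e1, e2, hFf] with x c1 c2 c3
    rw [c1, Pi.sub_apply, c2, c3]
  have h6 : ((∫ x, ‖f x - ∑ n ∈ S, hat f n * ch n x‖ ^ 2 ∂mX κ : ℝ) : ℂ) = ((‖G‖ ^ 2 : ℝ) : ℂ) := by
    have h12 : ((‖G‖ ^ 2 : ℝ) : ℂ) = inner ℂ G G := by
      rw [inner_self_eq_norm_sq_to_K]; norm_cast
    rw [h12, L2.inner_def, ← integral_complex_ofReal]
    refine integral_congr_ae ?_
    filter_upwards [h5] with x hx
    rw [hx, inner_self_eq_norm_sq_to_K]
    norm_cast
  have h7 : ∫ x, ‖f x - ∑ n ∈ S, hat f n * ch n x‖ ^ 2 ∂mX κ = ‖G‖ ^ 2 := by exact_mod_cast h6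
  rw [h7]
  calc ‖G‖ ^ 2 ≤ Real.sqrt δ ^ 2 := by gcongr
    _ = δ := Real.sq_sqrt hδ.le

end Pool.Agent.Lib.MP_9fe581_an.AH
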