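import Pool.Agent.Lib.MP_9fe581_an.AH.Tow
import Pool.Agent.Lib.MP_9fe581_an.AH.Four

/-!
# AH, module Avg: averages over the coordinates of level `≥ a`
-/

set_option autoImplicit false
set_option linter.unusedSectionVars false

open MeasureTheory Filter Topology Finset
open scoped ComplexConjugate

namespace Pool.Agent.Lib.MP_9fe581_an.AH

open HT (TX mX ch)

variable {κ : Type} [Fintype κ] [DecidableEq κ] (W : Tow κ)

/-- `x` below the level `a`, `y` from the level `a` on -/
def mixa (a : ℕ) (x y : TX κ) : TX κ := fun i => if W.lev i < a then x i else y i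

/-- the average over the coordinates of level `≥ a` -/
noncomputable def AV (a : ℕ) (w : TX κ → ℂ) (x : TX κ) : ℂ := ∫ y, w (mixa W a x y) ∂mX κ

theorem mixa_cont (a : ℕ) : Continuous fun z : TX κ × TX κ => mixa W a z.1 z.2 := by
  refine continuous_pi fun i => ?_
  unfold mixa
  by_cases h : W.lev i < a
  · simp only [if_pos h]
    exact (continuous_apply i).comp continuous_fst
  · simp only [if_neg h]
    exact (continuous_apply i).comp continuous_snd

theorem mixa_low {a : ℕ} {E : Type} {f : TX κ → E} (hf : Low W a f) (x y : TX κ) : f (mixa W a x y) = f x :=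
  hf _ _ fun _ hi => if_pos hi

theorem mixa_ch (a : ℕ) (m : κ →₀ ℤ) (x y : TX κ) :
    ch m (mixa W a x y) = ch (m.filter fun i => W.lev i < a) x * ch (m.filter fun i => ¬ W.lev i < a) y := by
  have h0 : m = (m.filter fun i => W.lev i < a) + (m.filter fun i => ¬ W.lev i < a) :=
    (Finsupp.filter_add_filter_not m _).symm
  conv_lhs => rw [h0]
  rw [HT.ch_add]
  congr 1
  · unfold ch
    rw [FT.pr_congr _ (mixa W a x y) x fun i hi => ?_]
    have h1 : W.lev i < a := by
      by_contra h2
      exact hi (Finsupp.filter_apply_neg (fun i => W.lev i < a) m h2)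
    exact if_pos h1
  · unfold ch
    rw [FT.pr_congr _ (mixa W a x y) y fun i hi => ?_]
    have h1 : ¬ W.lev i < a := by
      intro h2
      exact hi (Finsupp.filter_apply_neg (fun i => ¬ W.lev i < a) m (not_not.2 h2))
    exact if_neg h1

theorem mixa_pres (a : ℕ) : MeasurePreserving (fun z : TX κ × TX κ => mixa W a z.1 z.2) ((mX κ).prod (mX κ)) (mX κ) := by
  refine ⟨(mixa_cont W a).measurable, ?_⟩
  have hp : IsProbabilityMeasure (Measure.map (fun z : TX κ × TX κ => mixa W a z.1 z.2) ((mX κ).prod (mX κ))) :=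
    Measure.isProbabilityMeasure_map (mixa_cont W a).measurable.aemeasurable
  refine HT.ch_ext _ _ fun m => ?_
  rw [integral_map (mixa_cont W a).measurable.aemeasurable (HT.ch_cont m).aestronglyMeasurable]
  simp only [mixa_ch]
  rw [integral_prod_mul (fun x => ch (m.filter fun i => W.lev i < a) x) (fun y => ch (m.filter fun i => ¬ W.lev i < a) y),
    HT.ch_int, HT.ch_int, HT.ch_int]
  have h0 : m = (m.filter fun i => W.lev i < a) + (m.filter fun i => ¬ W.lev i < a) :=
    (Finsupp.filter_add_filter_not m _).symm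
  by_cases hm : m = 0
  · subst hm
    rw [if_pos (Finsupp.filter_zero _), if_pos (Finsupp.filter_zero _), if_pos rfl, mul_one]
  · rw [if_neg hm]
    by_cases h1 : (m.filter fun i => W.lev i < a) = 0
    · rw [if_pos h1, if_neg, mul_zero]
      intro h2
      apply hm
      rw [h0, h1, h2, add_zero]
    · rw [if_neg h1, zero_mul]

theorem AV_low (a : ℕ) (w : TX κ → ℂ) : Low W a (AV W a w) := by
  intro x y h
  unfold AV
  congr 1
  funext z
  congr 1
  funext i
  unfold mixa
  by_cases hi : W.lev i < a
  · rw [if_pos hi, if_pos hi, h i hi]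
  · rw [if_neg hi, if_neg hi]

theorem AV_meas (a : ℕ) {w : TX κ → ℂ} (hw : Measurable w) : Measurable (AV W a w) := by
  have h1 : Measurable fun z : TX κ × TX κ => w (mixa W a z.1 z.2) := hw.comp (mixa_cont W a).measurable
  exact (h1.stronglyMeasurable.integral_prod_right' (ν := mX κ)).measurable

theorem AV_le (a : ℕ) {w : TX κ → ℂ} {C : ℝ} (hw : ∀ x, ‖w x‖ ≤ C) (x : TX κ) : ‖AV W a w x‖ ≤ C := by
  unfold AV
  refine (norm_integral_le_of_norm_le_const (Eventually.of_forall fun y => hw _)).trans ?_
  simp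

theorem AV_self {a : ℕ} {w : TX κ → ℂ} (hw : Low W a w) (x : TX κ) : AV W a w x = w x := by
  unfold AV
  simp only [mixa_low W hw]
  simp

theorem AV_mul {a : ℕ} {u : TX κ → ℂ} (hu : Low W a u) (w : TX κ → ℂ) (x : TX κ) :
    AV W a (fun x => u x * w x) x = u x * AV W a w x := by
  unfold AV
  simp only [mixa_low W hu]
  exact integral_const_mul _ _

theorem AV_congr (a : ℕ) {w w' : TX κ → ℂ} (h : w =ᵐ[mX κ] w') : AV W a w =ᵐ[mX κ] AV W a w' := by
  have h1 : ∀ᵐ z ∂(mX κ).prod (mX κ), w (mixa W a z.1 z.2) = w' (mixa W a z.1 z.2) :=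
    (mixa_pres W a).quasiMeasurePreserving.ae h
  filter_upwards [Measure.ae_ae_of_ae_prod h1] with x hx
  exact integral_congr_ae hx

theorem AV_step (a : ℕ) {w : TX κ → ℂ} (hw : Measurable w) (x : TX κ) :
    AV W a (fun x => w (TT W x)) x = AV W a w (TT W x) := by
  have hmx : Continuous fun y : TX κ => mixa W a x y := (mixa_cont W a).comp (by fun_prop : Continuous fun y : TX κ => (x, y))
  set θ : κ → TX κ → UnitAddCircle := fun i y => if W.lev i < a then 0 else W.ψ i (mixa W a x y) with hθ
  have hc : ∀ i, Measurable (θ i) := by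
    intro i
    rw [hθ]
    by_cases h : W.lev i < a
    · simp only [if_pos h]
      exact measurable_const
    · simp only [if_neg h]
      exact (W.meas i).comp hmx.measurable
  have hd : ∀ i y y', (∀ l, W.lev l < W.lev i → y l = y' l) → θ i y = θ i y' := by
    intro i y y' h
    rw [hθ]
    by_cases h2 : W.lev i < a
    · simp only [if_pos h2]
    · simp only [if_neg h2]
      refine W.dep i _ _ fun l hl => ?_
      unfold mixa
      by_cases h3 : W.lev l < a
      · rw [if_pos h3, if_pos h3]
      · rw [if_neg h3, if_neg h3, h l hl]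
  have hτ := triM W.lev θ hc hd
  have h1 : ∀ y, TT W (mixa W a x y) = mixa W a (TT W x) (fun i => y i + θ i y) := by
    intro y
    funext i
    show mixa W a x y i + W.ψ i (mixa W a x y) = _
    unfold mixa
    by_cases h : W.lev i < a
    · rw [if_pos h, if_pos h]
      show x i + _ = x i + W.ψ i x
      congr 1
      refine W.dep i _ _ fun l hl => ?_
      exact if_pos (hl.trans h)
    · rw [if_neg h, if_neg h, hθ]
      simp only [if_neg h]
      rfl
  have hmx' : Measurable fun y : TX κ => w (mixa W a (TT W x) y) :=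
    hw.comp ((mixa_cont W a).comp (by fun_prop : Continuous fun y : TX κ => (TT W x, y))).measurable
  unfold AV
  simp only [h1]
  have h2 := integral_map (μ := mX κ) hτ.measurable.aemeasurable (f := fun y => w (mixa W a (TT W x) y))
    hmx'.aestronglyMeasurable
  rw [hτ.map_eq] at h2
  exact h2.symm

/-- for fixed `x`, `(T^n (mixa x y))` is `mixa (T^n x) (τ y)` with a triangular `τ`: `HT.tri`, induction on `n` -/
theorem AV_iter (a n : ℕ) {w : TX κ → ℂ} (hw : Measurable w) (x : TX κ) :
    AV W a (fun x => w ((TT W)^[n] x)) x = AV W a w ((TT W)^[n] x) := by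
  induction n generalizing x with
  | zero => rfl
  | succ n ih =>
    simp only [Function.iterate_succ_apply]
    have h1 : Measurable fun x => w ((TT W)^[n] x) := hw.comp (TTn_meas W n)
    rw [AV_step W a h1 x, ih]

/-- `⟨A w, u⟩ = ⟨w, u⟩` for `u` bounded of level `< a`, `w` integrable -/
theorem AV_int {a : ℕ} {u : TX κ → ℂ} (hu : Low W a u) (hum : Measurable u) {C : ℝ} (huC : ∀ x, ‖u x‖ ≤ C) {w : TX κ → ℂ}
    (hwm : Measurable w) (hw : Integrable w (mX κ)) :
    ∫ x, AV W a w x * conj (u x) ∂mX κ = ∫ x, w x * conj (u x) ∂mX κ := by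
  have h1 : Integrable (fun x => w x * conj (u x)) (mX κ) := by
    refine hw.mul_bdd (c := C) (Complex.continuous_conj.measurable.comp hum).aestronglyMeasurable
      (Eventually.of_forall fun x => ?_)
    rw [RCLike.norm_conj]
    exact huC x
  have h2 : Integrable (fun z : TX κ × TX κ => w (mixa W a z.1 z.2) * conj (u (mixa W a z.1 z.2))) ((mX κ).prod (mX κ)) :=
    (mixa_pres W a).integrable_comp_of_integrable h1
  have h3 := integral_map (μ := (mX κ).prod (mX κ)) (mixa_pres W a).measurable.aemeasurable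
    (f := fun x => w x * conj (u x)) (hwm.mul (Complex.continuous_conj.measurable.comp hum)).aestronglyMeasurable
  rw [(mixa_pres W a).map_eq] at h3
  rw [h3, integral_prod _ h2]
  refine integral_congr_ae (Eventually.of_forall fun x => ?_)
  simp only [mixa_low W hu]
  exact (integral_mul_const _ _).symm

/-- for `f` of level `< a + 1` the average is over the rotations of the level `a` -/
theorem AV_lp {a : ℕ} {f : TX κ → ℂ} (hf : Low W (a + 1) f) (x : TX κ) : AV W a f x = ∫ b, f (x + lp W a b) ∂mX κ := by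
  have h1 : ∀ b, f (x + lp W a b) = f (mixa W a x (x + b)) := by
    intro b
    refine hf _ _ fun i hi => ?_
    unfold mixa lp
    rw [Pi.add_apply]
    by_cases h : W.lev i < a
    · rw [if_pos h, if_neg (by omega), add_zero]
    · rw [if_neg h, if_pos (by omega), Pi.add_apply]
  simp only [h1]
  exact (integral_add_left_eq_self (μ := mX κ) (fun y => f (mixa W a x y)) x).symm

theorem avg_half (a : ℤ) (ha : a ≠ 0) : ∃ t : UnitAddCircle, FT.ec (a • t) = -1 := by
  refine ⟨((1 / (2 * (a : ℝ)) : ℝ) : UnitAddCircle), ?_⟩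
  have ha' : (a : ℝ) ≠ 0 := by exact_mod_cast ha
  have h1 : a • ((1 / (2 * (a : ℝ)) : ℝ) : UnitAddCircle) = ((1 / 2 : ℝ) : UnitAddCircle) := by
    rw [← AddCircle.coe_zsmul, zsmul_eq_mul]
    congr 1
    field_simp
  rw [h1, FT.ec_coe]
  have h2 : ((2 * Real.pi * (1 / 2) : ℝ) : ℂ) = Real.pi := by
    push_cast
    ring
  rw [h2, Complex.exp_pi_mul_I]

/-- a function of level `< a` has no coefficients at `n` not supported on levels `< a` (rotation by `b` with `ch n b ≠ 1`, `b` above) -/
theorem hat_low {a : ℕ} {f : TX κ → ℂ} (hf : Low W a f) (n : κ →₀ ℤ) (hn : ∃ i, n i ≠ 0 ∧ a ≤ W.lev i) : hat f n = 0 := by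
  obtain ⟨i, hi, hai⟩ := hn
  obtain ⟨t, ht⟩ := avg_half (n i) hi
  obtain ⟨v, hv⟩ : ∃ v : TX κ, v = Pi.single i t := ⟨_, rfl⟩
  have h5 : ch n v = -1 := by
    unfold ch
    rw [hv, FT.pr_single, ht]
  have key : ∀ x : TX κ, f (x + v) * conj (ch n (x + v)) = -(f x * conj (ch n x)) := by
    intro x
    have h1 : f (x + v) = f x := by
      refine hf _ _ fun l hl => ?_
      have h4 : l ≠ i := by
        rintro rfl
        omega
      rw [Pi.add_apply, hv, Pi.single_eq_of_ne h4, add_zero]
    rw [h1, HT.ch_add_right, h5, map_mul, map_neg, map_one]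
    ring
  have h6 := integral_add_right_eq_self (μ := mX κ) (fun x : TX κ => f x * conj (ch n x)) v
  have h7 : ∫ x, f (x + v) * conj (ch n (x + v)) ∂mX κ = -∫ x, f x * conj (ch n x) ∂mX κ := by
    rw [← integral_neg]
    exact integral_congr_ae (Eventually.of_forall fun x => key x)
  have h8 : ∫ x, f x * conj (ch n x) ∂mX κ = -∫ x, f x * conj (ch n x) ∂mX κ := h6.symm.trans h7
  exact self_eq_neg.1 h8

/-- Fourier coefficients of `AV f`: those of `f` at `n` supported on levels `< a`, otherwise `0` -/
theorem hat_AV {a : ℕ} {f : TX κ → ℂ} (hfm : Measurable f) {C : ℝ} (hC : ∀ x, ‖f x‖ ≤ C) (n : κ →₀ ℤ) :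
    hat (AV W a f) n = if (∀ i, n i ≠ 0 → W.lev i < a) then hat f n else 0 := by
  by_cases h : ∀ i, n i ≠ 0 → W.lev i < a
  · rw [if_pos h]
    have h1 : Low W a (ch n) := by
      intro x y hxy
      unfold ch
      rw [FT.pr_congr n x y fun i hi => hxy i (h i hi)]
    exact AV_int W h1 (HT.ch_cont n).measurable (C := 1) (fun x => (HT.ch_norm n x).le) hfm
      (BM.of_bdd hfm hC).integrable
  · rw [if_neg h]
    push Not at h
    exact hat_low W (AV_low W a f) n h

end Pool.Agent.Lib.MP_9fe581_an.AH
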