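import Pool.Agent.Lib.MP_9fe581_an.AH.CE
import Pool.Agent.Lib.MP_9fe581_an.HD.MeanErg

/-!
# AH, module J0: the mean ergodic theorem in bilinear form
-/

set_option autoImplicit false

open MeasureTheory Filter Topology Finset
open scoped ComplexConjugate ENNReal

namespace Pool.Agent.Lib.MP_9fe581_an.AH

variable {Ω : Type} {m0 : MeasurableSpace Ω} {μ : Measure Ω} [IsProbabilityMeasure μ]

theorem erg_bilin {U : Ω → Ω} (hU : Ergodic U μ) {h1 h2 : Ω → ℂ} (b1 : BM μ h1) (b2 : BM μ h2) :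
    Tendsto (fun R : ℕ => (1 / (R : ℂ)) * ∑ r ∈ range R, ∫ ω, h1 (U^[r] ω) * conj (h2 ω) ∂μ) atTop
      (𝓝 ((∫ ω, h1 ω ∂μ) * conj (∫ ω, h2 ω ∂μ))) := by
  have hm : MeasurePreserving U μ μ := hU.toMeasurePreserving
  obtain ⟨P, hP1, hP2, -⟩ := HD.mean_erg hm 1 (by norm_num)
  set f : Lp ℂ 2 μ := (b1.memLp 2).toLp h1 with hf
  have hff : f =ᵐ[μ] h1 := MemLp.coeFn_toLp _
  -- `P f` is constant
  obtain ⟨c, hc⟩ : ∃ c : ℂ, (P f : Ω → ℂ) =ᵐ[μ] fun _ => c := by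
    have h3 := hP1 f
    simp only [one_mul] at h3
    exact hU.ae_eq_const_of_ae_eq_comp₀ (Lp.aestronglyMeasurable _).aemeasurable.nullMeasurable h3
  have hlim := hP2 f
  have key : ∀ (g : Ω → ℂ), BM μ g → Tendsto (fun N : ℕ => (1 / (N : ℂ)) * ∑ n ∈ Icc 1 N, ∫ ω, h1 (U^[n] ω) * conj (g ω) ∂μ)
      atTop (𝓝 (c * conj (∫ ω, g ω ∂μ))) := by
    intro g hg
    set G : Lp ℂ 2 μ := (hg.memLp 2).toLp g with hG
    have hGG : G =ᵐ[μ] g := MemLp.coeFn_toLp _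
    have h4 : Tendsto (fun N : ℕ => inner ℂ G ((1 / (N : ℂ)) • ∑ n ∈ Icc 1 N,
        (conj (1 : ℂ)) ^ n • Lp.compMeasurePreserving (U^[n]) (hm.iterate n) f)) atTop (𝓝 (inner ℂ G (P f))) :=
      (continuous_const.inner continuous_id).continuousAt.tendsto.comp hlim
    have h5 : inner ℂ G (P f) = c * conj (∫ ω, g ω ∂μ) := by
      rw [L2.inner_def]
      have h6 : ∫ ω, inner ℂ (G ω) ((P f) ω) ∂μ = ∫ ω, c * conj (g ω) ∂μ := by
        refine integral_congr_ae ?_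
        filter_upwards [hc, hGG] with ω a b
        rw [a, b, RCLike.inner_apply]
      rw [h6, integral_const_mul, integral_conj]
    rw [h5] at h4
    refine h4.congr fun N => ?_
    rw [inner_smul_right, inner_sum]
    congr 1
    refine Finset.sum_congr rfl fun n _ => ?_
    rw [inner_smul_right, map_one, one_pow, one_mul, L2.inner_def]
    refine integral_congr_ae ?_
    have h7 := Lp.coeFn_compMeasurePreserving f (hm.iterate n)
    have h8 := (hm.iterate n).quasiMeasurePreserving.ae hff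
    filter_upwards [h7, h8, hGG] with ω a b d
    rw [a, Function.comp_apply, b, d, RCLike.inner_apply]
  have hcc : c = ∫ ω, h1 ω ∂μ := by
    have h9 := key (fun _ => 1) (BM.const 1)
    have h10 : ∀ N : ℕ, 1 ≤ N → (1 / (N : ℂ)) * ∑ n ∈ Icc 1 N, ∫ ω, h1 (U^[n] ω) * conj (1 : ℂ) ∂μ = ∫ ω, h1 ω ∂μ := by
      intro N hN
      have h11 : ∀ n ∈ Icc 1 N, ∫ ω, h1 (U^[n] ω) * conj (1 : ℂ) ∂μ = ∫ ω, h1 ω ∂μ := by
        intro n _
        simp only [map_one, mul_one]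
        have h12 := integral_map (μ := μ) (hm.iterate n).measurable.aemeasurable (f := h1)
          (by rw [(hm.iterate n).map_eq]; exact b1.1)
        rw [(hm.iterate n).map_eq] at h12
        exact h12.symm
      rw [Finset.sum_congr rfl h11, Finset.sum_const, Nat.card_Icc, Nat.add_sub_cancel, nsmul_eq_mul]
      have : (N : ℂ) ≠ 0 := by exact_mod_cast (by omega : N ≠ 0)
      field_simp
    have h13 : Tendsto (fun _ : ℕ => ∫ ω, h1 ω ∂μ) atTop (𝓝 (c * conj (∫ _ω, (1 : ℂ) ∂μ))) :=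
      h9.congr' (by filter_upwards [eventually_ge_atTop 1] with N hN using h10 N hN)
    have h14 := tendsto_nhds_unique h13 tendsto_const_nhds
    simpa using h14
  rw [← hcc]
  have h15 := key h2 b2
  -- from `Icc 1 N` to `range N`
  obtain ⟨C, hC⟩ : ∃ C : ℝ, ∀ n : ℕ, ‖∫ ω, h1 (U^[n] ω) * conj (h2 ω) ∂μ‖ ≤ C := by
    refine ⟨Real.sqrt (∫ ω, ‖h1 ω‖ ^ 2 ∂μ) * Real.sqrt (∫ ω, ‖h2 ω‖ ^ 2 ∂μ), fun n => ?_⟩
    refine (bm_cs (b1.comp (hm.iterate n)) b2).trans (le_of_eq ?_)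
    congr 2
    have h12 := integral_map (μ := μ) (hm.iterate n).measurable.aemeasurable (f := fun ω => ‖h1 ω‖ ^ 2)
      (by rw [(hm.iterate n).map_eq]; exact (b1.int_sq).aestronglyMeasurable)
    rw [(hm.iterate n).map_eq] at h12
    exact h12.symm
  have h16 : Tendsto (fun N : ℕ => (1 / (N : ℂ)) * ∑ n ∈ range N, (∫ ω, h1 (U^[n] ω) * conj (h2 ω) ∂μ) -
      (1 / (N : ℂ)) * ∑ n ∈ Icc 1 N, ∫ ω, h1 (U^[n] ω) * conj (h2 ω) ∂μ) atTop (𝓝 0) := by
    rw [tendsto_zero_iff_norm_tendsto_zero]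
    have hb : Tendsto (fun N : ℕ => (2 * C) * (1 / (N : ℝ))) atTop (𝓝 (2 * C * 0)) :=
      tendsto_one_div_atTop_nhds_zero_nat.const_mul _
    rw [mul_zero] at hb
    refine squeeze_zero (fun _ => norm_nonneg _) (fun N => ?_) hb
    rw [← mul_sub]
    have h17 : ∑ n ∈ range N, (∫ ω, h1 (U^[n] ω) * conj (h2 ω) ∂μ) - ∑ n ∈ Icc 1 N, ∫ ω, h1 (U^[n] ω) * conj (h2 ω) ∂μ =
        (∫ ω, h1 (U^[0] ω) * conj (h2 ω) ∂μ) - ∫ ω, h1 (U^[N] ω) * conj (h2 ω) ∂μ := by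
      have h18 : ∑ n ∈ Icc 1 N, (∫ ω, h1 (U^[n] ω) * conj (h2 ω) ∂μ) =
          ∑ n ∈ range N, ∫ ω, h1 (U^[n + 1] ω) * conj (h2 ω) ∂μ := by
        rw [Finset.range_eq_Ico, Finset.sum_Ico_add' (fun n => ∫ ω, h1 (U^[n] ω) * conj (h2 ω) ∂μ) 0 N 1]
        rfl
      rw [h18, ← Finset.sum_sub_distrib, ← neg_sub, ← Finset.sum_range_sub (fun n => ∫ ω, h1 (U^[n] ω) * conj (h2 ω) ∂μ) N,
        ← Finset.sum_neg_distrib]
      refine Finset.sum_congr rfl fun n _ => ?_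
      ring
    rw [h17, norm_mul, norm_div, norm_one, Complex.norm_natCast, mul_comm]
    refine mul_le_mul_of_nonneg_right ?_ (by positivity)
    refine (norm_sub_le _ _).trans ?_
    linarith [hC 0, hC N]
  have h19 := h15.add h16
  rw [add_zero] at h19
  refine h19.congr fun N => ?_
  ring

end Pool.Agent.Lib.MP_9fe581_an.AH
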