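import Mathlib

/-!
# AH, module CE: conditional expectations of essentially bounded complex functions
-/

set_option autoImplicit false

open MeasureTheory Filter Topology
open scoped ComplexConjugate ENNReal

namespace Pool.Agent.Lib.MP_9fe581_an.AH

variable {Ω : Type} {m : MeasurableSpace Ω} {m0 : MeasurableSpace Ω} {μ : Measure Ω}

/-- essentially bounded -/
def BM (μ : Measure Ω) (f : Ω → ℂ) : Prop := AEStronglyMeasurable f μ ∧ ∃ C : ℝ, ∀ᵐ ω ∂μ, ‖f ω‖ ≤ C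

theorem BM.of_bdd {f : Ω → ℂ} (hf : Measurable f) {C : ℝ} (hC : ∀ ω, ‖f ω‖ ≤ C) : BM μ f :=
  ⟨hf.aestronglyMeasurable, C, Eventually.of_forall hC⟩

theorem BM.mul {f g : Ω → ℂ} (hf : BM μ f) (hg : BM μ g) : BM μ (fun ω => f ω * g ω) := by
  obtain ⟨h1, C, h2⟩ := hf
  obtain ⟨h3, D, h4⟩ := hg
  refine ⟨h1.mul h3, |C| * |D|, ?_⟩
  filter_upwards [h2, h4] with ω a b
  rw [norm_mul]
  exact mul_le_mul (a.trans (le_abs_self _)) (b.trans (le_abs_self _)) (norm_nonneg _) (abs_nonneg _)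

theorem BM.conj {f : Ω → ℂ} (hf : BM μ f) : BM μ (fun ω => conj (f ω)) := by
  obtain ⟨h1, C, h2⟩ := hf
  refine ⟨Complex.continuous_conj.comp_aestronglyMeasurable h1, C, ?_⟩
  filter_upwards [h2] with ω a
  rwa [RCLike.norm_conj]

theorem BM.add {f g : Ω → ℂ} (hf : BM μ f) (hg : BM μ g) : BM μ (fun ω => f ω + g ω) := by
  obtain ⟨h1, C, h2⟩ := hf
  obtain ⟨h3, D, h4⟩ := hg
  refine ⟨h1.add h3, C + D, ?_⟩
  filter_upwards [h2, h4] with ω a b
  exact (norm_add_le _ _).trans (add_le_add a b)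

theorem BM.sub {f g : Ω → ℂ} (hf : BM μ f) (hg : BM μ g) : BM μ (fun ω => f ω - g ω) := by
  obtain ⟨h1, C, h2⟩ := hf
  obtain ⟨h3, D, h4⟩ := hg
  refine ⟨h1.sub h3, C + D, ?_⟩
  filter_upwards [h2, h4] with ω a b
  exact (norm_sub_le _ _).trans (add_le_add a b)

theorem BM.const (c : ℂ) : BM μ (fun _ => c) := ⟨aestronglyMeasurable_const, ‖c‖, Eventually.of_forall fun _ => le_rfl⟩

theorem BM.sum {ι : Type} (s : Finset ι) {f : ι → Ω → ℂ} (hf : ∀ i ∈ s, BM μ (f i)) : BM μ (fun ω => ∑ i ∈ s, f i ω) := by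
  classical
  induction s using Finset.induction_on with
  | empty => simpa using BM.const (μ := μ) 0
  | insert a s ha ih =>
    have h1 := BM.add (hf a (Finset.mem_insert_self a s)) (ih fun i hi => hf i (Finset.mem_insert_of_mem hi))
    refine ⟨?_, ?_⟩
    · simpa only [Finset.sum_insert ha] using h1.1
    · simpa only [Finset.sum_insert ha] using h1.2

theorem BM.congr {f g : Ω → ℂ} (hf : BM μ f) (h : f =ᵐ[μ] g) : BM μ g := by
  obtain ⟨h1, C, h2⟩ := hf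
  refine ⟨h1.congr h, C, ?_⟩
  filter_upwards [h, h2] with ω a b
  rwa [← a]

theorem BM.comp {Ω' : Type} {m0' : MeasurableSpace Ω'} {μ' : Measure Ω'} {T : Ω' → Ω} (hT : MeasurePreserving T μ' μ)
    {f : Ω → ℂ} (hf : BM μ f) : BM μ' (fun ω => f (T ω)) := by
  obtain ⟨h1, C, h2⟩ := hf
  exact ⟨h1.comp_measurePreserving hT, C, hT.quasiMeasurePreserving.ae h2⟩

variable [IsProbabilityMeasure μ]

theorem BM.memLp {f : Ω → ℂ} (hf : BM μ f) (p : ℝ≥0∞) : MemLp f p μ := by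
  obtain ⟨h1, C, h2⟩ := hf
  exact MemLp.of_bound h1 C h2

theorem BM.integrable {f : Ω → ℂ} (hf : BM μ f) : Integrable f μ := (hf.memLp 1).integrable le_rfl

theorem BM.int_sq {f : Ω → ℂ} (hf : BM μ f) : Integrable (fun ω => ‖f ω‖ ^ 2) μ := (hf.memLp 2).integrable_norm_pow (by norm_num)

omit [IsProbabilityMeasure μ] in
theorem BM.condExp {f : Ω → ℂ} (hf : BM μ f) : BM μ (μ[f | m]) := by
  obtain ⟨h1, C, h2⟩ := hf
  by_cases hm : m ≤ m0
  · exact ⟨integrable_condExp.aestronglyMeasurable, C, ae_bdd_norm_condExp_of_ae_bdd_norm h2⟩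
  · rw [condExp_of_not_le hm]
    exact BM.const 0

omit [IsProbabilityMeasure μ] in
/-- `⟨f, g⟩ = ∫ f conj g`, `‖f‖² = ∫ ‖f‖ ^ 2` -/
theorem int_mul_conj_self (f : Ω → ℂ) : ∫ ω, f ω * conj (f ω) ∂μ = ((∫ ω, ‖f ω‖ ^ 2 ∂μ : ℝ) : ℂ) := by
  rw [← integral_complex_ofReal]
  refine integral_congr_ae (Eventually.of_forall fun ω => ?_)
  dsimp only
  rw [Complex.mul_conj, Complex.normSq_eq_norm_sq]

theorem ce_mul (_hm : m ≤ m0) {f g : Ω → ℂ} (hf : BM μ f) (hg : BM μ g) (hgm : AEStronglyMeasurable[m] g μ) :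
    μ[fun ω => f ω * g ω | m] =ᵐ[μ] fun ω => (μ[f | m]) ω * g ω :=
  condExp_bilin_of_aestronglyMeasurable_right (ContinuousLinearMap.mul ℝ ℂ) hgm (hf.mul hg).integrable hf.integrable

theorem ce_int (hm : m ≤ m0) {f g : Ω → ℂ} (hf : BM μ f) (hg : BM μ g) (hgm : AEStronglyMeasurable[m] g μ) :
    ∫ ω, f ω * conj (g ω) ∂μ = ∫ ω, (μ[f | m]) ω * conj (g ω) ∂μ := by
  have h1 := ce_mul hm hf hg.conj (Complex.continuous_conj.comp_aestronglyMeasurable hgm)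
  rw [← integral_condExp hm]
  exact integral_congr_ae h1

omit [IsProbabilityMeasure μ] in
theorem ce_meas (f : Ω → ℂ) : AEStronglyMeasurable[m] (μ[f | m]) μ := stronglyMeasurable_condExp.aestronglyMeasurable

/-- self-adjointness -/
theorem ce_symm (hm : m ≤ m0) {f g : Ω → ℂ} (hf : BM μ f) (hg : BM μ g) :
    ∫ ω, f ω * conj ((μ[g | m]) ω) ∂μ = ∫ ω, (μ[f | m]) ω * conj (g ω) ∂μ := by
  have e1 := ce_int hm hf hg.condExp (ce_meas g)
  have e2 := ce_int hm hg hf.condExp (ce_meas f)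
  have e3 : ∫ ω, (μ[f | m]) ω * conj (g ω) ∂μ = conj (∫ ω, g ω * conj ((μ[f | m]) ω) ∂μ) := by
    rw [← integral_conj]
    refine integral_congr_ae (Eventually.of_forall fun ω => ?_)
    dsimp only
    rw [map_mul, Complex.conj_conj, mul_comm]
  rw [e1, e3, e2, ← integral_conj]
  refine integral_congr_ae (Eventually.of_forall fun ω => ?_)
  dsimp only
  rw [map_mul, Complex.conj_conj, mul_comm]

theorem ce_sq (hm : m ≤ m0) {f : Ω → ℂ} (hf : BM μ f) :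
    ∫ ω, f ω * conj ((μ[f | m]) ω) ∂μ = ((∫ ω, ‖(μ[f | m]) ω‖ ^ 2 ∂μ : ℝ) : ℂ) := by
  rw [ce_int hm hf hf.condExp (ce_meas f), int_mul_conj_self]

/-- Cauchy - Schwarz -/
theorem bm_cs {f g : Ω → ℂ} (hf : BM μ f) (hg : BM μ g) :
    ‖∫ ω, f ω * conj (g ω) ∂μ‖ ≤ Real.sqrt (∫ ω, ‖f ω‖ ^ 2 ∂μ) * Real.sqrt (∫ ω, ‖g ω‖ ^ 2 ∂μ) := by
  refine (norm_integral_le_integral_norm _).trans ?_
  have h1 : ∫ ω, ‖f ω * conj (g ω)‖ ∂μ = ∫ ω, ‖f ω‖ * ‖g ω‖ ∂μ := by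
    refine integral_congr_ae (Eventually.of_forall fun ω => ?_)
    dsimp only
    rw [norm_mul, RCLike.norm_conj]
  rw [h1]
  have h2 := integral_mul_norm_le_Lp_mul_Lq (μ := μ) (f := f) (g := g) Real.HolderConjugate.two_two
    (by simpa using hf.memLp 2) (by simpa using hg.memLp 2)
  simpa [Real.sqrt_eq_rpow] using h2

/-- contraction -/
theorem ce_norm (hm : m ≤ m0) {f : Ω → ℂ} (hf : BM μ f) : ∫ ω, ‖(μ[f | m]) ω‖ ^ 2 ∂μ ≤ ∫ ω, ‖f ω‖ ^ 2 ∂μ := by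
  set a := ∫ ω, ‖(μ[f | m]) ω‖ ^ 2 ∂μ with ha
  set b := ∫ ω, ‖f ω‖ ^ 2 ∂μ with hb
  have ha0 : 0 ≤ a := integral_nonneg fun _ => by positivity
  have hb0 : 0 ≤ b := integral_nonneg fun _ => by positivity
  have h1 := bm_cs hf (hf.condExp (m := m))
  rw [ce_sq hm hf, Complex.norm_real, Real.norm_of_nonneg ha0, ← ha, ← hb] at h1
  by_contra hlt
  push Not at hlt
  have h2 : Real.sqrt b < Real.sqrt a := Real.sqrt_lt_sqrt hb0 hlt
  have h3 : 0 < Real.sqrt a := Real.sqrt_pos.2 (hb0.trans_lt hlt)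
  have h4 : Real.sqrt b * Real.sqrt a < Real.sqrt a * Real.sqrt a := mul_lt_mul_of_pos_right h2 h3
  rw [Real.mul_self_sqrt ha0] at h4
  linarith

end Pool.Agent.Lib.MP_9fe581_an.AH
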