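import Pool.Agent.Lib.MP_9fe581_an.AH.Tow

/-!
# AH, module N-D: the group of rotations with a coboundary; Steinhaus; roots of unity
-/

set_option autoImplicit false
set_option linter.unusedSectionVars false

open MeasureTheory Filter Topology Finset
open scoped ComplexConjugate Pointwise

namespace Pool.Agent.Lib.MP_9fe581_an.AH

open HT (TX mX ch)

variable {κ : Type} [Fintype κ] [DecidableEq κ] (W : Tow κ)

/-- functions of level `< a` invariant under `T^p` are constant -/
def ErgL (a : ℕ) : Prop := ∀ p : ℕ, 0 < p → ∀ g : TX κ → ℂ, Measurable g → (∃ C : ℝ, ∀ x, ‖g x‖ ≤ C) → Low W a g →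
  (∀ᵐ x ∂mX κ, g ((TT W)^[p] x) = g x) → ∃ c : ℂ, g =ᵐ[mX κ] fun _ => c

/-- `m (psn_p (x + b) - psn_p x)` is a `T^p` coboundary of level `< j + 1` -/
def PB (j p : ℕ) (m : κ →₀ ℤ) (b : TX κ) : Prop := ∃ w : TX κ → ℂ, Measurable w ∧ (∀ x, ‖w x‖ = 1) ∧ Low W (j + 1) w ∧
  ∀ᵐ x ∂mX κ, w ((TT W)^[p] x) = ch m (psn W p (x + b) - psn W p x) * w x

/-- with a constant -/
private def PC (j p : ℕ) (m : κ →₀ ℤ) (b : TX κ) (l : ℂ) : Prop := ∃ w : TX κ → ℂ, Measurable w ∧ (∀ x, ‖w x‖ = 1) ∧
  Low W (j + 1) w ∧ ∀ᵐ x ∂mX κ, w ((TT W)^[p] x) = l * (ch m (psn W p (x + b) - psn W p x) * w x)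

private theorem pc_one {j p : ℕ} {m : κ →₀ ℤ} {b : TX κ} : PC W j p m b 1 ↔ PB W j p m b := by
  unfold PC PB
  simp only [one_mul]

private theorem lp_add (j : ℕ) (b b' : TX κ) : lp W j (b + b') = lp W j b + lp W j b' := by
  funext i
  show (if W.lev i = j then b i + b' i else 0) = (if W.lev i = j then b i else 0) + (if W.lev i = j then b' i else 0)
  split_ifs
  · rfl
  · rw [add_zero]

private theorem lp_neg (j : ℕ) (b : TX κ) : lp W j (-b) = -lp W j b := by
  funext i
  show (if W.lev i = j then -b i else 0) = -(if W.lev i = j then b i else 0)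
  split_ifs
  · rfl
  · rw [neg_zero]

private theorem lp_zero (j : ℕ) : lp W j 0 = 0 := by
  funext i
  show (if W.lev i = j then (0 : TX κ) i else 0) = 0
  split_ifs <;> rfl

private theorem ae_shift (c : TX κ) {P : TX κ → Prop} (h : ∀ᵐ x ∂mX κ, P x) : ∀ᵐ x ∂mX κ, P (x + c) :=
  (measurePreserving_add_right (mX κ) c).quasiMeasurePreserving.ae h

private theorem pc_add {j p : ℕ} {m : κ →₀ ℤ} {b b' : TX κ} {l l' : ℂ} (h : PC W j p m (lp W j b) l)
    (h' : PC W j p m (lp W j b') l') : PC W j p m (lp W j (b + b')) (l * l') := by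
  obtain ⟨w, w1, w2, w3, w4⟩ := h
  obtain ⟨v, v1, v2, v3, v4⟩ := h'
  refine ⟨fun x => w (x + lp W j b') * v x, ?_, fun x => ?_, ?_, ?_⟩
  · exact (w1.comp (measurable_id.add_const _)).mul v1
  · rw [norm_mul, w2, v2, one_mul]
  · exact (w3.shift _).mul v3
  · filter_upwards [ae_shift (lp W j b') w4, v4] with x h1 h2
    rw [← w3.rot p b' x, h1, h2, lp_add]
    have e : psn W p (x + (lp W j b + lp W j b')) - psn W p x =
        (psn W p (x + lp W j b' + lp W j b) - psn W p (x + lp W j b')) + (psn W p (x + lp W j b') - psn W p x) := by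
      have : x + (lp W j b + lp W j b') = x + lp W j b' + lp W j b := by abel
      rw [this]; abel
    rw [e, HT.ch_add_right]
    ring

theorem PB_add {j p : ℕ} {m : κ →₀ ℤ} (_hm : OnM W (j + 1) m) {b b' : TX κ} (h : PB W j p m (lp W j b)) (h' : PB W j p m (lp W j b')) :
    PB W j p m (lp W j (b + b')) := by
  have h1 := pc_add W ((pc_one W).2 h) ((pc_one W).2 h')
  rw [one_mul] at h1
  exact (pc_one W).1 h1

theorem PB_neg {j p : ℕ} {m : κ →₀ ℤ} (_hm : OnM W (j + 1) m) {b : TX κ} (h : PB W j p m (lp W j b)) :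
    PB W j p m (lp W j (-b)) := by
  obtain ⟨w, w1, w2, w3, w4⟩ := h
  refine ⟨fun x => conj (w (x + lp W j (-b))), ?_, fun x => ?_, ?_, ?_⟩
  · exact Complex.continuous_conj.measurable.comp (w1.comp (measurable_id.add_const _))
  · rw [RCLike.norm_conj, w2]
  · exact (w3.shift _).conj
  · filter_upwards [ae_shift (lp W j (-b)) w4] with x h1
    rw [← w3.rot p (-b) x, h1, map_mul, lp_neg]
    have e : x + -lp W j b + lp W j b = x := by abel
    rw [e, ← HT.ch_neg]
    have e2 : ch (-m) (psn W p x - psn W p (x + -lp W j b)) = ch m (psn W p (x + -lp W j b) - psn W p x) := by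
      show FT.ec (FT.pr (-m) _) = FT.ec (FT.pr m _)
      rw [FT.pr_neg]
      have e3 : FT.pr m (psn W p x - psn W p (x + -lp W j b)) + FT.pr m (psn W p (x + -lp W j b) - psn W p x) = 0 := by
        rw [← FT.pr_add_right]
        have : psn W p x - psn W p (x + -lp W j b) + (psn W p (x + -lp W j b) - psn W p x) = 0 := by abel
        rw [this]
        have h5 := FT.pr_add_right m (0 : TX κ) 0
        rw [add_zero] at h5
        exact left_eq_add.1 h5
      rw [neg_eq_of_add_eq_zero_right e3]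
    rw [e2]

private theorem PB_zero {j p : ℕ} {m : κ →₀ ℤ} : PB W j p m (lp W j 0) := by
  refine ⟨fun _ => 1, measurable_const, fun _ => by simp, fun _ _ _ => rfl, Eventually.of_forall fun x => ?_⟩
  rw [lp_zero, add_zero, sub_self]
  show (1 : ℂ) = FT.ec (FT.pr m 0) * 1
  have h5 := FT.pr_add_right m (0 : TX κ) 0
  rw [add_zero] at h5
  rw [left_eq_add.1 h5, FT.ec_zero, one_mul]

private theorem PB_nsmul {j p : ℕ} {m : κ →₀ ℤ} (hm : OnM W (j + 1) m) {b : TX κ} (h : PB W j p m (lp W j b)) (n : ℕ) :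
    PB W j p m (lp W j (n • b)) := by
  induction n with
  | zero => rw [zero_smul]; exact PB_zero W
  | succ n ih => rw [succ_nsmul]; exact PB_add W hm ih h

/-- division: every `b` is `n • b'` with `b'` in a given neighbourhood of `0` -/
private theorem small_div (U : Set (TX κ)) (hU : U ∈ 𝓝 (0 : TX κ)) (b : TX κ) : ∃ (n : ℕ) (b' : TX κ), b' ∈ U ∧ n • b' = b := by
  have h1 : ∀ i, ∃ s : ℝ, (s : UnitAddCircle) = b i := fun i => QuotientAddGroup.mk_surjective (b i)
  choose s hs using h1
  have h2 : Tendsto (fun n : ℕ => fun i => ((s i / (n + 1 : ℕ) : ℝ) : UnitAddCircle)) atTop (𝓝 (0 : TX κ)) := by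
    rw [tendsto_pi_nhds]
    intro i
    have h3 : Tendsto (fun n : ℕ => s i / ((n + 1 : ℕ) : ℝ)) atTop (𝓝 0) :=
      ((tendsto_natCast_atTop_atTop (R := ℝ)).comp (tendsto_add_atTop_nat 1)).const_div_atTop _
    have h4 : Continuous fun r : ℝ => (r : UnitAddCircle) := AddCircle.continuous_mk' 1
    have h5 := (h4.tendsto 0).comp h3
    exact h5
  obtain ⟨n, hn⟩ := (h2.eventually hU).exists
  refine ⟨n + 1, _, hn, ?_⟩
  funext i
  show (n + 1) • ((s i / (n + 1 : ℕ) : ℝ) : UnitAddCircle) = b i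
  rw [← hs i, ← AddCircle.coe_nsmul, nsmul_eq_mul]
  congr 1
  have : ((n + 1 : ℕ) : ℝ) ≠ 0 := by positivity
  field_simp

/-- Steinhaus (`MeasureTheory.Measure.sub_mem_nhds_zero_of_addHaar_pos` or similar) and `b = n • (b / n)` -/
theorem PB_all {j p : ℕ} {m : κ →₀ ℤ} (hm : OnM W (j + 1) m) {E : Set (TX κ)} (hE : MeasurableSet E) (hE0 : mX κ E ≠ 0)
    (h : ∀ b ∈ E, PB W j p m (lp W j b)) (b : TX κ) : PB W j p m (lp W j b) := by
  have h1 : E - E ∈ 𝓝 (0 : TX κ) := Measure.sub_mem_nhds_zero_of_addHaar_pos (mX κ) E hE (pos_iff_ne_zero.2 hE0)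
  obtain ⟨n, b', hb', rfl⟩ := small_div (E - E) h1 b
  obtain ⟨c, hc, d, hd, rfl⟩ := Set.mem_sub.1 hb'
  refine PB_nsmul W hm ?_ n
  rw [sub_eq_add_neg]
  exact PB_add W hm (h c hc) (PB_neg W hm (h d hd))

private theorem ae_iter {P : TX κ → Prop} (h : ∀ᵐ x ∂mX κ, P x) (n : ℕ) : ∀ᵐ x ∂mX κ, P ((TT W)^[n] x) :=
  ((TT_pres W).iterate n).quasiMeasurePreserving.ae h

/-- the cocycle is additive -/
private theorem pc_iter {j : ℕ} {m : κ →₀ ℤ} (hm : OnM W (j + 1) m) {b : TX κ} {l : ℂ} {w : TX κ → ℂ}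
    (h : ∀ᵐ x ∂mX κ, w ((TT W)^[1] x) = l * (ch m (psn W 1 (x + lp W j b) - psn W 1 x) * w x)) (n : ℕ) :
    ∀ᵐ x ∂mX κ, w ((TT W)^[n] x) = l ^ n * (ch m (psn W n (x + lp W j b) - psn W n x) * w x) := by
  induction n with
  | zero =>
    refine Eventually.of_forall fun x => ?_
    have e : psn W 0 (x + lp W j b) - psn W 0 x = 0 := by simp [psn]
    rw [e]
    show w x = l ^ 0 * (FT.ec (FT.pr m 0) * w x)
    have h5 := FT.pr_add_right m (0 : TX κ) 0
    rw [add_zero] at h5
    rw [left_eq_add.1 h5, FT.ec_zero, one_mul, pow_zero, one_mul]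
  | succ n ih =>
    filter_upwards [ih, ae_iter W h n] with x h1 h2
    have e1 : (TT W)^[n + 1] x = (TT W)^[1] ((TT W)^[n] x) := by
      rw [Function.iterate_succ_apply', Function.iterate_one]
    rw [e1, h2, h1]
    have e2 : ch m (psn W (n + 1) (x + lp W j b) - psn W (n + 1) x) =
        ch m (psn W 1 ((TT W)^[n] x + lp W j b) - psn W 1 ((TT W)^[n] x)) * ch m (psn W n (x + lp W j b) - psn W n x) := by
      rw [← HT.ch_add_right]
      show FT.ec (FT.pr m _) = FT.ec (FT.pr m _)
      congr 1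
      refine FT.pr_congr m _ _ fun i hi => ?_
      have hl : Low W (j + 1) fun x => psn W 1 x i := by
        have := psn_low W 1 i
        rw [hm i hi] at this
        exact this
      have h3 : psn W 1 ((TT W)^[n] (x + lp W j b)) i = psn W 1 ((TT W)^[n] x + lp W j b) i := hl.rot n b x
      rw [add_comm n 1, psn_add W 1 n, psn_add W 1 n]
      simp only [Pi.add_apply, Pi.sub_apply]
      rw [h3]
      abel
    rw [e2, pow_succ]
    ring

/-- `u = w.T * conj w * conj c` is `T^p` invariant, hence a constant `l` with `l^p = 1`; the constants multiply; `b = p b'` -/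
theorem PB_root {j p : ℕ} (hp : 0 < p) {m : κ →₀ ℤ} (hm : OnM W (j + 1) m) (hE : ErgL W (j + 1)) (h : ∀ b, PB W j p m (lp W j b))
    (b : TX κ) : PB W j 1 m (lp W j b) := by
  have hU : ∀ (w : TX κ → ℂ) (x : TX κ), ‖w x‖ = 1 → w x * conj (w x) = 1 := by
    intro w x hx
    rw [Complex.mul_conj, Complex.normSq_eq_norm_sq, hx]; norm_num
  have key : ∀ b, ∃ l : ℂ, l ^ p = 1 ∧ PC W j 1 m (lp W j b) l := by
    intro b
    obtain ⟨w, w1, w2, w3, w4⟩ := h b
    set c : TX κ → ℂ := fun x => ch m (psn W 1 (x + lp W j b) - psn W 1 x) with hc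
    have hclow : Low W (j + 1) c := by
      intro x y hxy
      show FT.ec (FT.pr m _) = FT.ec (FT.pr m _)
      congr 1
      refine FT.pr_congr m _ _ fun i hi => ?_
      have hl : Low W (j + 1) fun x => psn W 1 x i := by
        have := psn_low W 1 i
        rw [hm i hi] at this
        exact this
      have a1 : psn W 1 x i = psn W 1 y i := hl x y hxy
      have a2 : psn W 1 (x + lp W j b) i = psn W 1 (y + lp W j b) i := (hl.shift (lp W j b)) x y hxy
      rw [Pi.sub_apply, Pi.sub_apply, a1, a2]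
    have hcn : ∀ x, ‖c x‖ = 1 := fun x => HT.ch_norm _ _
    have hcm : Measurable c := (HT.ch_cont m).measurable.comp
      (((psn_meas W 1).comp (measurable_id.add_const _)).sub (psn_meas W 1))
    set u : TX κ → ℂ := fun x => w (TT W x) * conj (w x) * conj (c x) with hu
    have hum : Measurable u := ((w1.comp (TT_meas W)).mul (Complex.continuous_conj.measurable.comp w1)).mul
      (Complex.continuous_conj.measurable.comp hcm)
    have hun : ∀ x, ‖u x‖ = 1 := by
      intro x
      rw [hu]; dsimp only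
      rw [norm_mul, norm_mul, RCLike.norm_conj, RCLike.norm_conj, w2, w2, hcn]; norm_num
    have hul : Low W (j + 1) u := ((w3.iter 1).mul w3.conj).mul hclow.conj
    have hinv : ∀ᵐ x ∂mX κ, u ((TT W)^[p] x) = u x := by
      filter_upwards [w4, ae_iter W w4 1] with x h1 h2
      have e0 : TT W ((TT W)^[p] x) = (TT W)^[p] ((TT W)^[1] x) := by
        rw [← Function.iterate_succ_apply' (TT W) p x, Function.iterate_succ_apply, Function.iterate_one]
      have e1 : ch m (psn W p ((TT W)^[1] x + lp W j b) - psn W p ((TT W)^[1] x)) * c x =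
          c ((TT W)^[p] x) * ch m (psn W p (x + lp W j b) - psn W p x) := by
        rw [hc]; dsimp only
        rw [← HT.ch_add_right, ← HT.ch_add_right]
        show FT.ec (FT.pr m _) = FT.ec (FT.pr m _)
        congr 1
        refine FT.pr_congr m _ _ fun i hi => ?_
        have hl : ∀ n, Low W (j + 1) fun x => psn W n x i := by
          intro n
          have := psn_low W n i
          rw [hm i hi] at this
          exact this
        have a1 : psn W p ((TT W)^[1] (x + lp W j b)) i = psn W p ((TT W)^[1] x + lp W j b) i := (hl p).rot 1 b x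
        have a2 : psn W 1 ((TT W)^[p] (x + lp W j b)) i = psn W 1 ((TT W)^[p] x + lp W j b) i := (hl 1).rot p b x
        have a3 := congrFun (psn_add W p 1 (x + lp W j b)) i
        have a4 := congrFun (psn_add W 1 p (x + lp W j b)) i
        have a5 := congrFun (psn_add W p 1 x) i
        have a6 := congrFun (psn_add W 1 p x) i
        rw [add_comm 1 p] at a4 a6
        simp only [Pi.add_apply, Pi.sub_apply] at a3 a4 a5 a6 ⊢
        rw [← a1, ← a2]
        have b1 : psn W p ((TT W)^[1] (x + lp W j b)) i + psn W 1 (x + lp W j b) i = psn W (p + 1) (x + lp W j b) i := by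
          rw [a3]; abel
        have b2 : psn W 1 ((TT W)^[p] (x + lp W j b)) i + psn W p (x + lp W j b) i = psn W (p + 1) (x + lp W j b) i := by
          rw [a4]; abel
        have b3 : psn W p ((TT W)^[1] x) i + psn W 1 x i = psn W (p + 1) x i := by rw [a5]; abel
        have b4 : psn W 1 ((TT W)^[p] x) i + psn W p x i = psn W (p + 1) x i := by rw [a6]; abel
        calc psn W p ((TT W)^[1] (x + lp W j b)) i - psn W p ((TT W)^[1] x) i + (psn W 1 (x + lp W j b) i - psn W 1 x i)
            = (psn W p ((TT W)^[1] (x + lp W j b)) i + psn W 1 (x + lp W j b) i) -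
              (psn W p ((TT W)^[1] x) i + psn W 1 x i) := by abel
          _ = (psn W 1 ((TT W)^[p] (x + lp W j b)) i + psn W p (x + lp W j b) i) -
              (psn W 1 ((TT W)^[p] x) i + psn W p x i) := by rw [b1, b2, b3, b4]
          _ = _ := by abel
      have hch : ∀ y, ch m y * conj (ch m y) = 1 := fun y => hU (ch m) y (HT.ch_norm _ _)
      rw [hu]; dsimp only
      rw [e0, h2, h1, Function.iterate_one, map_mul]
      rw [Function.iterate_one] at e1
      have n1 := hch (psn W p (x + lp W j b) - psn W p x)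
      have n2 := hU c ((TT W)^[p] x) (hcn _)
      have n3 := hU c x (hcn _)
      set A := ch m (psn W p (TT W x + lp W j b) - psn W p (TT W x)) with hA
      set B := ch m (psn W p (x + lp W j b) - psn W p x) with hB
      -- A c(x) = c(T^p x) B
      have e2 : A * conj B * conj (c ((TT W)^[p] x)) = conj (c x) := by
        have : A = c ((TT W)^[p] x) * B * conj (c x) := by
          rw [← e1, mul_assoc, n3, mul_one]
        rw [this]
        calc c ((TT W)^[p] x) * B * conj (c x) * conj B * conj (c ((TT W)^[p] x))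
            = (c ((TT W)^[p] x) * conj (c ((TT W)^[p] x))) * (B * conj B) * conj (c x) := by ring
          _ = conj (c x) := by rw [n1, n2]; ring
      calc A * w (TT W x) * (conj B * conj (w x)) * conj (c ((TT W)^[p] x))
          = w (TT W x) * conj (w x) * (A * conj B * conj (c ((TT W)^[p] x))) := by ring
        _ = w (TT W x) * conj (w x) * conj (c x) := by rw [e2]
    obtain ⟨l, hl⟩ := hE p hp u hum ⟨1, fun x => (hun x).le⟩ hul hinv
    have hw : ∀ᵐ x ∂mX κ, w ((TT W)^[1] x) = l * (ch m (psn W 1 (x + lp W j b) - psn W 1 x) * w x) := by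
      filter_upwards [hl] with x hx
      rw [← hx, hu]; dsimp only
      rw [Function.iterate_one]
      have n3 := hU c x (hcn _)
      have n4 := hU w x (w2 _)
      show w (TT W x) = w (TT W x) * conj (w x) * conj (c x) * (c x * w x)
      calc w (TT W x) = w (TT W x) * (w x * conj (w x)) * (c x * conj (c x)) := by rw [n3, n4]; ring
        _ = _ := by ring
    refine ⟨l, ?_, ⟨w, w1, w2, w3, hw⟩⟩
    have h5 := pc_iter W hm hw p
    obtain ⟨x, h6, h7⟩ := (h5.and w4).exists
    rw [h6] at h7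
    have h8 : ch m (psn W p (x + lp W j b) - psn W p x) * w x ≠ 0 := by
      rw [← norm_ne_zero_iff, norm_mul, HT.ch_norm, w2]; norm_num
    have h9 : (l ^ p - 1) * (ch m (psn W p (x + lp W j b) - psn W p x) * w x) = 0 := by rw [sub_mul, h7]; ring
    rcases mul_eq_zero.1 h9 with h10 | h10
    · exact sub_eq_zero.1 h10
    · exact absurd h10 h8
  -- `b = p • b'`
  obtain ⟨b', hb'⟩ : ∃ b' : TX κ, p • b' = b := by
    have h1 : ∀ i, ∃ s : ℝ, (s : UnitAddCircle) = b i := fun i => QuotientAddGroup.mk_surjective (b i)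
    choose s hs using h1
    refine ⟨fun i => ((s i / p : ℝ) : UnitAddCircle), funext fun i => ?_⟩
    show p • ((s i / p : ℝ) : UnitAddCircle) = b i
    rw [← hs i, ← AddCircle.coe_nsmul, nsmul_eq_mul]
    congr 1
    have : (p : ℝ) ≠ 0 := by exact_mod_cast hp.ne'
    field_simp
  obtain ⟨l, hl, hPC⟩ := key b'
  have hn : ∀ n : ℕ, PC W j 1 m (lp W j (n • b')) (l ^ n) := by
    intro n
    induction n with
    | zero => rw [zero_smul, pow_zero, pc_one]; exact PB_zero W
    | succ n ih => rw [succ_nsmul, pow_succ]; exact pc_add W ih hPC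
  have h11 := hn p
  rw [hb', hl, pc_one] at h11
  exact h11

theorem not_PB (hN : ND W) {j p : ℕ} (hp : 0 < p) {m : κ →₀ ℤ} (hm0 : m ≠ 0) (hm : OnM W (j + 1) m) (hE : ErgL W (j + 1))
    {E : Set (TX κ)} (hEm : MeasurableSet E) (hE0 : mX κ E ≠ 0) (h : ∀ b ∈ E, PB W j p m (lp W j b)) : False := by
  obtain ⟨b, hb⟩ := hN.nd j m hm0 hm
  obtain ⟨w, w1, w2, w3, w4⟩ := PB_root W hp hm hE (PB_all W hm hEm hE0 h) b
  refine hb w w1 w2 w3 ?_
  filter_upwards [w4] with x hx
  rw [Function.iterate_one] at hx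
  rw [hx]
  congr 2
  funext i
  have e : ∀ y : TX κ, psn W 1 y i = W.ψ i y := by
    intro y
    show (TT W)^[1] y i - y i = W.ψ i y
    rw [Function.iterate_one]
    show y i + W.ψ i y - y i = W.ψ i y
    abel
  rw [Pi.sub_apply, e, e]

end Pool.Agent.Lib.MP_9fe581_an.AH
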