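import Pool.Agent.Lib.MP_9fe581_an.AH.CE

/-!
# AH, module ME: the mean ergodic theorem for `V u = c * u ∘ S`
-/

set_option autoImplicit false

open MeasureTheory Filter Topology Finset
open scoped ComplexConjugate

namespace Pool.Agent.Lib.MP_9fe581_an.AH

section meC

variable {Ω : Type} [MeasurableSpace Ω] {μ : Measure Ω} {S : Ω → Ω}

theorem mec_memLp (hS : MeasurePreserving S μ μ) {c : Ω → ℂ} (hc : Measurable c) (hc1 : ∀ ω, ‖c ω‖ = 1) {f : Ω → ℂ}
    (hf : MemLp f 2 μ) : MemLp (fun ω => c ω * f (S ω)) 2 μ := by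
  have h1 : MemLp (fun ω => f (S ω)) 2 μ := hf.comp_measurePreserving hS
  refine MemLp.of_le h1 (hc.aestronglyMeasurable.mul h1.1) (Eventually.of_forall fun ω => ?_)
  rw [norm_mul, hc1, one_mul]

/-- the operator -/
noncomputable def meV (hS : MeasurePreserving S μ μ) {c : Ω → ℂ} (hc : Measurable c) (hc1 : ∀ ω, ‖c ω‖ = 1) :
    Lp ℂ 2 μ →L[ℂ] Lp ℂ 2 μ :=
  LinearMap.mkContinuous
    { toFun := fun f => (mec_memLp hS hc hc1 (Lp.memLp f)).toLp _
      map_add' := fun f g => by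
        rw [← MemLp.toLp_add]
        refine MemLp.toLp_congr _ _ ?_
        filter_upwards [hS.quasiMeasurePreserving.ae (Lp.coeFn_add f g)] with ω h
        rw [h, Pi.add_apply, Pi.add_apply, mul_add]
      map_smul' := fun a f => by
        rw [RingHom.id_apply, ← MemLp.toLp_const_smul]
        refine MemLp.toLp_congr _ _ ?_
        filter_upwards [hS.quasiMeasurePreserving.ae (Lp.coeFn_smul a f)] with ω h
        rw [h, Pi.smul_apply, Pi.smul_apply, smul_eq_mul, smul_eq_mul]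
        ring } 1 (fun f => by
      show ‖(mec_memLp hS hc hc1 (Lp.memLp f)).toLp _‖ ≤ 1 * ‖f‖
      rw [one_mul, Lp.norm_toLp, Lp.norm_def]
      refine le_of_eq ?_
      congr 1
      rw [← eLpNorm_comp_measurePreserving (Lp.aestronglyMeasurable f) hS]
      refine eLpNorm_congr_norm_ae (Eventually.of_forall fun ω => ?_)
      rw [norm_mul, hc1, one_mul]
      rfl)

theorem meV_apply (hS : MeasurePreserving S μ μ) {c : Ω → ℂ} (hc : Measurable c) (hc1 : ∀ ω, ‖c ω‖ = 1) (f : Lp ℂ 2 μ) :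
    meV hS hc hc1 f = (mec_memLp hS hc hc1 (Lp.memLp f)).toLp _ := rfl

theorem meV_coe (hS : MeasurePreserving S μ μ) {c : Ω → ℂ} (hc : Measurable c) (hc1 : ∀ ω, ‖c ω‖ = 1) (f : Lp ℂ 2 μ) :
    meV hS hc hc1 f =ᵐ[μ] fun ω => c ω * f (S ω) := by
  rw [meV_apply]
  exact MemLp.coeFn_toLp _

theorem meV_norm (hS : MeasurePreserving S μ μ) {c : Ω → ℂ} (hc : Measurable c) (hc1 : ∀ ω, ‖c ω‖ = 1) :
    ‖meV hS hc hc1‖ ≤ 1 := LinearMap.mkContinuous_norm_le _ zero_le_one _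

theorem meV_iter (hS : MeasurePreserving S μ μ) {c : Ω → ℂ} (hc : Measurable c) (hc1 : ∀ ω, ‖c ω‖ = 1) (f : Lp ℂ 2 μ)
    {u : Ω → ℂ} (hu : f =ᵐ[μ] u) (n : ℕ) :
    ((meV hS hc hc1)^[n] f : Lp ℂ 2 μ) =ᵐ[μ] fun ω => (∏ k ∈ range n, c (S^[k] ω)) * u (S^[n] ω) := by
  induction n with
  | zero =>
    simp only [Function.iterate_zero, id_eq, range_zero, prod_empty, one_mul]
    exact hu
  | succ n ih =>
    rw [Function.iterate_succ_apply']
    filter_upwards [meV_coe hS hc hc1 ((meV hS hc hc1)^[n] f), hS.quasiMeasurePreserving.ae ih] with ω h1 h2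
    rw [h1, h2, prod_range_succ']
    simp only [Function.iterate_succ_apply, Function.iterate_zero, id_eq]
    ring

end meC

theorem me_coc {Ω : Type} [MeasurableSpace Ω] {μ : Measure Ω} [IsProbabilityMeasure μ] {S : Ω → Ω} (hS : MeasurePreserving S μ μ)
    (c : Ω → ℂ) (hc : Measurable c) (hc1 : ∀ ω, ‖c ω‖ = 1) (u : Ω → ℂ) (hu : BM μ u) :
    ∃ w : Ω → ℂ, Measurable w ∧ MemLp w 2 μ ∧ (∀ᵐ ω ∂μ, c ω * w (S ω) = w ω) ∧
      Tendsto (fun R : ℕ => (1 / (R : ℂ)) * ∑ r ∈ range R, ∫ ω, (∏ k ∈ range r, c (S^[k] ω)) * u (S^[r] ω) * conj (u ω) ∂μ)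
        atTop (𝓝 (∫ ω, w ω * conj (u ω) ∂μ)) ∧
      ∫ ω, w ω * conj (u ω) ∂μ = ((∫ ω, ‖w ω‖ ^ 2 ∂μ : ℝ) : ℂ) := by
  set V := meV hS hc hc1 with hV
  set K := V.eqLocus (1 : Lp ℂ 2 μ →L[ℂ] Lp ℂ 2 μ) with hK
  set f : Lp ℂ 2 μ := (hu.memLp 2).toLp u with hf
  have hff : f =ᵐ[μ] u := MemLp.coeFn_toLp _
  set g : Lp ℂ 2 μ := ((K.orthogonalProjectionOnto f : K) : Lp ℂ 2 μ) with hg
  have hfix : V g = g := (K.orthogonalProjectionOnto f).2
  have h1 : Tendsto (birkhoffAverage ℂ V _root_.id · f) atTop (𝓝 g) :=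
    V.tendsto_birkhoffAverage_orthogonalProjection (meV_norm hS hc hc1) f
  have hgm : AEStronglyMeasurable g μ := Lp.aestronglyMeasurable g
  set w : Ω → ℂ := hgm.mk g with hw
  have hwg : g =ᵐ[μ] w := hgm.ae_eq_mk
  have hwm : Measurable w := hgm.stronglyMeasurable_mk.measurable
  have hwL : MemLp w 2 μ := (Lp.memLp g).ae_eq hwg
  have h2 : inner ℂ f g = ∫ ω, w ω * conj (u ω) ∂μ := by
    rw [L2.inner_def]
    refine integral_congr_ae ?_
    filter_upwards [hff, hwg] with ω a b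
    rw [a, b, RCLike.inner_apply]
  have h3 : inner ℂ g g = ((∫ ω, ‖w ω‖ ^ 2 ∂μ : ℝ) : ℂ) := by
    rw [L2.inner_def, ← int_mul_conj_self]
    refine integral_congr_ae ?_
    filter_upwards [hwg] with ω b
    rw [b, RCLike.inner_apply]
  refine ⟨w, hwm, hwL, ?_, ?_, ?_⟩
  · have h4 := meV_coe hS hc hc1 g
    rw [← hV, hfix] at h4
    filter_upwards [h4, hwg, hS.quasiMeasurePreserving.ae hwg] with ω a b d
    rw [← b, ← d]
    exact a.symm
  · rw [← h2]
    have h5 : Tendsto (fun N : ℕ => inner ℂ f (birkhoffAverage ℂ V _root_.id N f)) atTop (𝓝 (inner ℂ f g)) :=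
      (continuous_const.inner continuous_id).continuousAt.tendsto.comp h1
    refine h5.congr fun N => ?_
    simp only [birkhoffAverage, birkhoffSum, id_eq]
    rw [inner_smul_right, inner_sum, one_div]
    congr 1
    refine Finset.sum_congr rfl fun n _ => ?_
    rw [L2.inner_def]
    refine integral_congr_ae ?_
    filter_upwards [meV_iter hS hc hc1 f hff n, hff] with ω a b
    rw [a, b, RCLike.inner_apply]
  · rw [← h2, ← h3]
    exact (Submodule.inner_orthogonalProjectionOnto_eq_of_mem_right (K.orthogonalProjectionOnto f) f).symm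

end Pool.Agent.Lib.MP_9fe581_an.AH
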