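import Pool.Agent.Lib.MP_9fe581_an.AH.Erg
import Pool.Agent.Lib.MP_9fe581_an.AH.ME

/-!
# AH, module N-F: the relative energy vanishes
-/

set_option autoImplicit false
set_option linter.unusedSectionVars false

open MeasureTheory Filter Topology Finset
open scoped ComplexConjugate

namespace Pool.Agent.Lib.MP_9fe581_an.AH

open HT (TX mX ch)

variable {κ : Type} [Fintype κ] [DecidableEq κ] (W : Tow κ)

theorem lp_cont (j : ℕ) : Continuous (lp W j) := by
  refine continuous_pi fun i => ?_
  unfold lp
  by_cases h : W.lev i = j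
  · simp only [if_pos h]; exact continuous_apply i
  · simp only [if_neg h]; exact continuous_const

/-- a possibly unbounded solution gives a unimodular one -/
theorem cob_unb {j p : ℕ} (hp : 0 < p) {m : κ →₀ ℤ} (hE : ErgL W (j + 1)) {b : TX κ} {w : TX κ → ℂ}
    (hw : Measurable w) (hl : Low W (j + 1) w) (h : ∀ᵐ x ∂mX κ, w ((TT W)^[p] x) = ch m (psn W p (x + b) - psn W p x) * w x)
    (hne : ¬ w =ᵐ[mX κ] 0) : PB W j p m b := by
  have hpos : ∀ x, 0 < 1 + ‖w x‖ := fun x => by have := norm_nonneg (w x); linarith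
  obtain ⟨c, hc⟩ := hE p hp (fun x => ((‖w x‖ / (1 + ‖w x‖) : ℝ) : ℂ))
    (Complex.measurable_ofReal.comp (hw.norm.div (measurable_const.add hw.norm)))
    ⟨1, fun x => by
      rw [Complex.norm_real, Real.norm_of_nonneg (div_nonneg (norm_nonneg _) (hpos x).le), div_le_one (hpos x)]; linarith⟩
    (fun x y hxy => by show ((‖w x‖ / (1 + ‖w x‖) : ℝ) : ℂ) = ((‖w y‖ / (1 + ‖w y‖) : ℝ) : ℂ); rw [hl x y hxy])
    (by filter_upwards [h] with x hx; rw [hx, norm_mul, HT.ch_norm, one_mul])
  have hc0 : c ≠ 0 := by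
    intro h0
    refine hne ?_
    filter_upwards [hc] with x hx
    rw [h0] at hx
    have h1 : ‖w x‖ / (1 + ‖w x‖) = 0 := by exact_mod_cast hx
    rcases div_eq_zero_iff.1 h1 with h2 | h2
    · exact norm_eq_zero.1 h2
    · exact absurd h2 (hpos x).ne'
  set v : TX κ → ℂ := fun x => if w x = 0 then 1 else w x / (‖w x‖ : ℝ) with hv
  have hvm : Measurable v := Measurable.ite (hw (measurableSet_singleton 0)) measurable_const
    (hw.div (Complex.measurable_ofReal.comp hw.norm))
  have hv1 : ∀ x, ‖v x‖ = 1 := by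
    intro x
    rw [hv]; dsimp only
    split_ifs with h0
    · simp
    · rw [norm_div, Complex.norm_real, Real.norm_of_nonneg (norm_nonneg _), div_self (norm_ne_zero_iff.2 h0)]
  have hvl : Low W (j + 1) v := by
    intro x y hxy
    rw [hv]; dsimp only
    rw [hl x y hxy]
  refine ⟨v, hvm, hv1, hvl, ?_⟩
  filter_upwards [h, hc] with x hx hcx
  have hx0 : w x ≠ 0 := by
    intro h0
    rw [h0, norm_zero, zero_div] at hcx
    exact hc0 (by rw [← hcx]; norm_num)
  have hx1 : w ((TT W)^[p] x) ≠ 0 := by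
    rw [hx]
    refine mul_ne_zero ?_ hx0
    rw [← norm_ne_zero_iff, HT.ch_norm]; norm_num
  rw [hv]; dsimp only
  rw [if_neg hx0, if_neg hx1, hx, norm_mul, HT.ch_norm, one_mul]
  ring

/-- the function `F (T^n x) ch m (psn_n x) conj F (x)` -/
noncomputable def GR (m : κ →₀ ℤ) (F : TX κ → ℂ) (n : ℕ) (x : TX κ) : ℂ :=
  F ((TT W)^[n] x) * ch m (psn W n x) * conj (F x)

theorem GR_meas (m : κ →₀ ℤ) {F : TX κ → ℂ} (hF : Measurable F) (n : ℕ) : Measurable (GR W m F n) :=
  ((hF.comp (TTn_meas W n)).mul (chpsn_meas W m n)).mul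
    (Complex.continuous_conj.measurable.comp hF)

theorem GR_le (m : κ →₀ ℤ) {F : TX κ → ℂ} {C : ℝ} (hC : ∀ x, ‖F x‖ ≤ C) (n : ℕ) (x : TX κ) : ‖GR W m F n x‖ ≤ C ^ 2 := by
  unfold GR
  rw [norm_mul, norm_mul, HT.ch_norm, mul_one, RCLike.norm_conj, pow_two]
  exact mul_le_mul (hC _) (hC _) (norm_nonneg _) ((norm_nonneg _).trans (hC x))

theorem GR_low {a : ℕ} {m : κ →₀ ℤ} (hm : OnM W a m) {F : TX κ → ℂ} (hl : Low W a F) (n : ℕ) : Low W a (GR W m F n) :=
  ((hl.iter n).mul (chpsn_low W hm n)).mul hl.conj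

/-- the product of the cocycle along the orbit -/
private theorem enz_prod {j p : ℕ} {m : κ →₀ ℤ} (hm : OnM W (j + 1) m) (x b : TX κ) (r : ℕ) :
    ∏ k ∈ range r, ch m (psn W p ((TT W)^[p * k] x) - psn W p ((TT W)^[p * k] x + lp W j b)) =
      ch m (psn W (p * r) x - psn W (p * r) (x + lp W j b)) := by
  induction r with
  | zero =>
    rw [range_zero, prod_empty, mul_zero]
    have e : psn W 0 x - psn W 0 (x + lp W j b) = 0 := by simp [psn]
    rw [e]
    show (1 : ℂ) = FT.ec (FT.pr m 0)
    have h5 := FT.pr_add_right m (0 : TX κ) 0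
    rw [add_zero] at h5
    rw [left_eq_add.1 h5, FT.ec_zero]
  | succ r ih =>
    rw [prod_range_succ, ih, ← HT.ch_add_right]
    show FT.ec (FT.pr m _) = FT.ec (FT.pr m _)
    congr 1
    refine FT.pr_congr m _ _ fun i hi => ?_
    have hl : Low W (j + 1) fun x => psn W p x i := by
      have := psn_low W p i
      rw [hm i hi] at this
      exact this
    have h3 : psn W p ((TT W)^[p * r] (x + lp W j b)) i = psn W p ((TT W)^[p * r] x + lp W j b) i := hl.rot (p * r) b x
    have e : p * (r + 1) = p + p * r := by ring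
    rw [e, psn_add W p (p * r), psn_add W p (p * r)]
    simp only [Pi.add_apply, Pi.sub_apply]
    rw [h3]
    abel

theorem energy_zero (hN : ND W) {j p : ℕ} (hp : 0 < p) {m : κ →₀ ℤ} (hm0 : m ≠ 0) (hm : OnM W (j + 1) m) {F : TX κ → ℂ}
    (hF : Measurable F) {C : ℝ} (hC : ∀ x, ‖F x‖ ≤ C) (hl : Low W (j + 1) F) :
    Tendsto (fun R : ℕ => (1 / (R : ℝ)) * ∑ r ∈ range R, ∫ x, ‖AV W j (GR W m F (p * r)) x‖ ^ 2 ∂mX κ) atTop (𝓝 0) := by
  have hmul : Measurable fun z : TX κ × TX κ => z.1 + lp W j z.2 :=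
    (continuous_fst.add ((lp_cont W j).comp continuous_snd)).measurable
  set Ω := TX κ × TX κ
  set S : Ω → Ω := Prod.map (TT W)^[p] id with hS
  have hSp : MeasurePreserving S ((mX κ).prod (mX κ)) ((mX κ).prod (mX κ)) :=
    ((TT_pres W).iterate p).prod (MeasurePreserving.id _)
  have hSr : ∀ (r : ℕ) (z : Ω), S^[r] z = ((TT W)^[p * r] z.1, z.2) := by
    intro r z
    rw [hS, Prod.map_iterate]
    show (((TT W)^[p])^[r] z.1, id^[r] z.2) = _
    rw [Function.iterate_id, id, ← Function.iterate_mul]
  set c : Ω → ℂ := fun z => ch m (psn W p z.1 - psn W p (z.1 + lp W j z.2)) with hc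
  have hcm : Measurable c := (HT.ch_cont m).measurable.comp (((psn_meas W p).comp measurable_fst).sub
    ((psn_meas W p).comp hmul))
  have hc1 : ∀ z, ‖c z‖ = 1 := fun z => HT.ch_norm _ _
  set u : Ω → ℂ := fun z => F z.1 * conj (F (z.1 + lp W j z.2)) with hu
  have hum : Measurable u := (hF.comp measurable_fst).mul (Complex.continuous_conj.measurable.comp (hF.comp hmul))
  have huC : ∀ z, ‖u z‖ ≤ C ^ 2 := fun z => by
    rw [hu]; dsimp only
    rw [norm_mul, RCLike.norm_conj, pow_two]
    exact mul_le_mul (hC _) (hC _) (norm_nonneg _) ((norm_nonneg _).trans (hC z.1))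
  have huB : BM ((mX κ).prod (mX κ)) u := BM.of_bdd hum huC
  obtain ⟨w, wm, wL, winv, wlim, wnorm⟩ := me_coc hSp c hcm hc1 u huB
  -- the terms
  have hterm : ∀ r : ℕ, ∫ z, (∏ k ∈ range r, c (S^[k] z)) * u (S^[r] z) * conj (u z) ∂((mX κ).prod (mX κ)) =
      ((∫ x, ‖AV W j (GR W m F (p * r)) x‖ ^ 2 ∂mX κ : ℝ) : ℂ) := by
    intro r
    have hGm := GR_meas W m hF (p * r)
    have hGl := GR_low W hm hl (p * r)
    have hGb := GR_le W m hC (p * r)
    rw [← int_mul_conj_self, AV_int W (AV_low W j _) (AV_meas W j hGm) (AV_le W j hGb) hGm (BM.of_bdd hGm hGb).integrable]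
    have e1 : ∀ x, GR W m F (p * r) x * conj (AV W j (GR W m F (p * r)) x) =
        ∫ b, GR W m F (p * r) x * conj (GR W m F (p * r) (x + lp W j b)) ∂mX κ := by
      intro x
      rw [AV_lp W hGl, ← integral_conj, ← integral_const_mul]
    simp only [e1]
    rw [← integral_prod (fun z : Ω => GR W m F (p * r) z.1 * conj (GR W m F (p * r) (z.1 + lp W j z.2)))]
    · refine integral_congr_ae (Eventually.of_forall fun z => ?_)
      dsimp only
      have e2 : ∏ k ∈ range r, c (S^[k] z) = ch m (psn W (p * r) z.1 - psn W (p * r) (z.1 + lp W j z.2)) := by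
        rw [← enz_prod W hm z.1 z.2 r]
        refine prod_congr rfl fun k _ => ?_
        rw [hc]; dsimp only
        rw [hSr]
      rw [e2, hu]; dsimp only
      rw [hSr]; dsimp only
      unfold GR
      rw [hl.rot (p * r) z.2 z.1]
      simp only [map_mul, Complex.conj_conj]
      have e3 : ch m (psn W (p * r) z.1 - psn W (p * r) (z.1 + lp W j z.2)) =
          ch m (psn W (p * r) z.1) * conj (ch m (psn W (p * r) (z.1 + lp W j z.2))) := by
        have h1 := HT.ch_add_right m (psn W (p * r) z.1 - psn W (p * r) (z.1 + lp W j z.2)) (psn W (p * r) (z.1 + lp W j z.2))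
        rw [sub_add_cancel] at h1
        rw [h1, mul_assoc, unim_mul _ (HT.ch_norm _ _), mul_one]
      rw [e3]
      ring
    · refine (BM.of_bdd (C := C ^ 2 * C ^ 2) ?_ fun z => ?_).integrable
      · exact (hGm.comp measurable_fst).mul (Complex.continuous_conj.measurable.comp (hGm.comp hmul))
      · rw [norm_mul, RCLike.norm_conj]
        exact mul_le_mul (hGb _) (hGb _) (norm_nonneg _) ((norm_nonneg _).trans (hGb z.1))
  -- the limit is zero
  have hzero : ∫ z, w z * conj (u z) ∂((mX κ).prod (mX κ)) = 0 := by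
    have hwint : Integrable w ((mX κ).prod (mX κ)) := wL.integrable (by norm_num)
    have hmeas2 : Measurable fun z : Ω => ∫ y, w (mixa W (j + 1) z.1 y, z.2) ∂mX κ := by
      have h1 : Measurable fun t : Ω × TX κ => w (mixa W (j + 1) t.1.1 t.2, t.1.2) := by
        refine wm.comp (Measurable.prodMk ?_ (measurable_snd.comp measurable_fst))
        refine measurable_pi_lambda _ fun i => ?_
        unfold mixa
        by_cases h : W.lev i < j + 1
        · simp only [if_pos h]
          exact (measurable_pi_apply i).comp (measurable_fst.comp measurable_fst)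
        · simp only [if_neg h]
          exact (measurable_pi_apply i).comp measurable_snd
      exact (h1.stronglyMeasurable.integral_prod_right (ν := mX κ)).measurable
    set E : Set (TX κ) := {b | ∫⁻ x, ‖∫ y, w (mixa W (j + 1) x y, b) ∂mX κ‖ₑ ∂mX κ ≠ 0} with hE
    have hEm : MeasurableSet E := by
      have h1 : Measurable fun b : TX κ => ∫⁻ x, ‖∫ y, w (mixa W (j + 1) x y, b) ∂mX κ‖ₑ ∂mX κ :=
        (hmeas2.enorm).lintegral_prod_left'
      exact h1 (measurableSet_singleton 0).compl
    have hfib : ∀ᵐ b ∂mX κ, ∀ᵐ x ∂mX κ, w ((TT W)^[p] x, b) = ch m (psn W p (x + lp W j b) - psn W p x) * w (x, b) := by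
      have h1 : ∀ᵐ z ∂((mX κ).prod (mX κ)), w ((TT W)^[p] z.1, z.2) =
          ch m (psn W p (z.1 + lp W j z.2) - psn W p z.1) * w z := by
        filter_upwards [winv] with z hz
        rw [← hz]
        have e4 : ch m (psn W p (z.1 + lp W j z.2) - psn W p z.1) * c z = 1 := by
          rw [hc]; dsimp only
          rw [← HT.ch_add_right]
          have e5 : psn W p (z.1 + lp W j z.2) - psn W p z.1 + (psn W p z.1 - psn W p (z.1 + lp W j z.2)) = 0 := by abel
          rw [e5]
          show FT.ec (FT.pr m 0) = 1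
          have h5 := FT.pr_add_right m (0 : TX κ) 0
          rw [add_zero] at h5
          rw [left_eq_add.1 h5, FT.ec_zero]
        rw [← mul_assoc, e4, one_mul]
        rfl
      have h2 : ∀ᵐ z ∂((mX κ).prod (mX κ)), w ((TT W)^[p] z.2, z.1) =
          ch m (psn W p (z.2 + lp W j z.1) - psn W p z.2) * w (z.2, z.1) :=
        (Measure.measurePreserving_swap (μ := mX κ) (ν := mX κ)).quasiMeasurePreserving.ae h1
      exact Measure.ae_ae_of_ae_prod h2
    have hE0 : mX κ E = 0 := by
      by_contra hne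
      obtain ⟨N, hN1, hN2, hN3⟩ := exists_measurable_superset_of_null (ae_iff.1 hfib)
      refine not_PB W hN hp hm0 hm (ergL W hN (j + 1)) (E := E \ N) (hEm.diff hN2) ?_ fun b hb => ?_
      · rw [measure_sdiff_null hN3]
        exact hne
      · have hb2 : ∀ᵐ x ∂mX κ, w ((TT W)^[p] x, b) = ch m (psn W p (x + lp W j b) - psn W p x) * w (x, b) := by
          by_contra h0
          exact hb.2 (hN1 h0)
        have hwb : Measurable fun x => w (x, b) := wm.comp (measurable_id.prodMk measurable_const)
        have hcl : Low W (j + 1) fun x => ch m (psn W p (x + lp W j b) - psn W p x) := by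
          intro x y hxy
          show FT.ec (FT.pr m _) = FT.ec (FT.pr m _)
          congr 1
          refine FT.pr_congr m _ _ fun i hi => ?_
          have hl' : Low W (j + 1) fun x => psn W p x i := by
            have := psn_low W p i
            rw [hm i hi] at this
            exact this
          have a1 : psn W p x i = psn W p y i := hl' x y hxy
          have a2 : psn W p (x + lp W j b) i = psn W p (y + lp W j b) i := (hl'.shift (lp W j b)) x y hxy
          rw [Pi.sub_apply, Pi.sub_apply, a1, a2]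
        refine cob_unb W hp (ergL W hN (j + 1)) (w := AV W (j + 1) fun x => w (x, b)) (AV_meas W (j + 1) hwb) (AV_low W (j + 1) _) ?_ ?_
        · have e1 : (fun x => (fun x => w (x, b)) ((TT W)^[p] x)) =ᵐ[mX κ]
              fun x => ch m (psn W p (x + lp W j b) - psn W p x) * w (x, b) := hb2
          filter_upwards [AV_congr W (j + 1) e1] with x hx
          rw [← AV_iter W (j + 1) p hwb x, hx, AV_mul W hcl]
        · intro h0
          refine hb.1 ?_
          show ∫⁻ x, ‖AV W (j + 1) (fun x => w (x, b)) x‖ₑ ∂mX κ = 0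
          rw [lintegral_eq_zero_iff ((AV_meas W (j + 1) hwb).enorm)]
          filter_upwards [h0] with x hx
          rw [hx]
          simp
    have hEae : ∀ᵐ b ∂mX κ, AV W (j + 1) (fun x => w (x, b)) =ᵐ[mX κ] 0 := by
      have h1 : ∀ᵐ b ∂mX κ, b ∉ E := measure_eq_zero_iff_ae_notMem.1 hE0
      filter_upwards [h1] with b hb
      have hwb : Measurable fun x => w (x, b) := wm.comp (measurable_id.prodMk measurable_const)
      have h2 : ∫⁻ x, ‖AV W (j + 1) (fun x => w (x, b)) x‖ₑ ∂mX κ = 0 := by
        by_contra h3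
        exact hb h3
      rw [lintegral_eq_zero_iff ((AV_meas W (j + 1) hwb).enorm)] at h2
      filter_upwards [h2] with x hx
      exact enorm_eq_zero.1 hx
    have hprod : Integrable (fun z => w z * conj (u z)) ((mX κ).prod (mX κ)) := by
      have h1 : ∀ᵐ z ∂((mX κ).prod (mX κ)), ‖conj (u z)‖ ≤ C ^ 2 := Eventually.of_forall fun z => by
        rw [RCLike.norm_conj]; exact huC z
      exact hwint.mul_bdd (Complex.continuous_conj.measurable.comp hum).aestronglyMeasurable h1
    rw [integral_prod_symm _ hprod]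
    have h3 : ∀ᵐ b ∂mX κ, ∫ x, w (x, b) * conj (u (x, b)) ∂mX κ = 0 := by
      filter_upwards [hEae, hwint.prod_left_ae] with b hb hbi
      have hwb : Measurable fun x => w (x, b) := wm.comp (measurable_id.prodMk measurable_const)
      have hub : Measurable fun x => u (x, b) := hum.comp (measurable_id.prodMk measurable_const)
      have hul : Low W (j + 1) fun x => u (x, b) := hl.mul (hl.shift (lp W j b)).conj
      rw [← AV_int W hul hub (fun x => huC (x, b)) hwb hbi]
      have : (fun x => AV W (j + 1) (fun x => w (x, b)) x * conj (u (x, b))) =ᵐ[mX κ] fun _ => 0 := by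
        filter_upwards [hb] with x hx
        rw [hx]; simp
      rw [integral_congr_ae this, integral_zero]
    rw [integral_congr_ae h3, integral_zero]
  rw [hzero] at wlim
  have h4 := (Complex.continuous_re.tendsto 0).comp wlim
  rw [Complex.zero_re] at h4
  refine h4.congr fun R => ?_
  show ((1 / (R : ℂ)) * ∑ r ∈ range R, ∫ z, (∏ k ∈ range r, c (S^[k] z)) * u (S^[r] z) * conj (u z) ∂((mX κ).prod (mX κ))).re = _
  simp only [hterm]
  rw [← Complex.ofReal_sum, ← Complex.ofReal_natCast, ← Complex.ofReal_one, ← Complex.ofReal_div, ← Complex.ofReal_mul,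
    Complex.ofReal_re]

end Pool.Agent.Lib.MP_9fe581_an.AH
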