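import Pool.Agent.Lib.MP_9fe581_an.AH.Bilin

/-!
# AH, module J1: the energy inequality for an ergodic joining

`J lam f = E (f ∘ fst | σ (snd))`.  `‖J f‖⁴ ≤ lim (1/R) ∑_{r < R} ‖J (f ∘ S^r * conj f)‖²`.
-/

set_option autoImplicit false

open MeasureTheory Filter Topology Finset
open scoped ComplexConjugate ENNReal

namespace Pool.Agent.Lib.MP_9fe581_an.AH

variable {X : Type} [MeasurableSpace X] {μ : Measure X} {lam : Measure (X × X)}

/-- the sigma-algebra of the second coordinate -/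
abbrev s2 (X : Type) [MeasurableSpace X] : MeasurableSpace (X × X) := MeasurableSpace.comap Prod.snd inferInstance

theorem s2_le : s2 X ≤ (inferInstance : MeasurableSpace (X × X)) := measurable_snd.comap_le

/-- conditional expectation of a function of the first coordinate on the second coordinate -/
noncomputable def J (lam : Measure (X × X)) (f : X → ℂ) : X × X → ℂ := lam[fun z => f z.1 | s2 X]

theorem J_bm [IsProbabilityMeasure lam] (h1 : MeasurePreserving Prod.fst lam μ) {f : X → ℂ} (hf : BM μ f) : BM lam (J lam f) :=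
  BM.condExp (hf.comp h1)

theorem J_rep [IsProbabilityMeasure lam] (f : X → ℂ) : ∃ g : X → ℂ, Measurable g ∧ J lam f = fun z => g z.2 := by
  have h := (stronglyMeasurable_condExp (m := s2 X) (μ := lam) (f := fun z : X × X => f z.1)).measurable
  obtain ⟨g, hg, e⟩ := Measurable.exists_eq_measurable_comp (f := (Prod.snd : X × X → X)) h
  exact ⟨g, hg, e⟩

/-- `∫ f (x) conj g (y) = ∫ J f conj g` -/
theorem J_int [IsProbabilityMeasure lam] (h1 : MeasurePreserving Prod.fst lam μ) {f g : X → ℂ} (hf : BM μ f)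
    (hg : Measurable g) (hgb : BM lam fun z => g z.2) :
    ∫ z, f z.1 * conj (g z.2) ∂lam = ∫ z, J lam f z * conj (g z.2) ∂lam :=
  ce_int s2_le (hf.comp h1) hgb (by
    have : Measurable[s2 X] fun z : X × X => g z.2 := hg.comp (comap_measurable _)
    exact this.aestronglyMeasurable)

theorem energy [IsProbabilityMeasure lam] {S S' : X → X} (hS' : Measurable S') (hU : Ergodic (Prod.map S S') lam)
    (hS : MeasurePreserving S μ μ)
    (h1 : MeasurePreserving Prod.fst lam μ) {f : X → ℂ} (hf : BM μ f) (B : ℝ)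
    (hB : ∀ᶠ R : ℕ in atTop, (1 / (R : ℝ)) * ∑ r ∈ range R, ∫ z, ‖J lam (fun x => f (S^[r] x) * conj (f x)) z‖ ^ 2 ∂lam ≤ B) :
    (∫ z, ‖J lam f z‖ ^ 2 ∂lam) ^ 2 ≤ B := by
  obtain ⟨g, hg, hgJ⟩ := J_rep (lam := lam) f
  have hgb : BM lam fun z : X × X => g z.2 := by rw [← hgJ]; exact J_bm h1 hf
  set a : ℝ := ∫ z, ‖J lam f z‖ ^ 2 ∂lam with ha
  have ha0 : 0 ≤ a := integral_nonneg fun _ => by positivity
  have hfl : BM lam fun z : X × X => f z.1 := hf.comp h1
  have hint : ∫ z, f z.1 * conj (g z.2) ∂lam = (a : ℂ) := by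
    rw [J_int h1 hf hg hgb, ha, ← int_mul_conj_self]
    refine integral_congr_ae (Eventually.of_forall fun z => ?_)
    dsimp only
    rw [hgJ]
  have hasq : ∫ z : X × X, ‖g z.2‖ ^ 2 ∂lam = a := by rw [ha, hgJ]
  have hh : BM lam fun z : X × X => f z.1 * conj (g z.2) := hfl.mul hgb.conj
  have hlim1 := erg_bilin hU hh hh
  rw [hint, Complex.conj_ofReal] at hlim1
  have hlim1' := hlim1.norm
  have e0 : ‖(a : ℂ) * (a : ℂ)‖ = a ^ 2 := by
    rw [norm_mul, Complex.norm_real, Real.norm_of_nonneg ha0]; ring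
  rw [e0] at hlim1'
  have hq : BM lam fun z : X × X => ((‖g z.2‖ ^ 2 : ℝ) : ℂ) := by
    have := hgb.mul hgb.conj
    refine this.congr (Eventually.of_forall fun z => ?_)
    dsimp only
    rw [Complex.mul_conj, Complex.normSq_eq_norm_sq]
  have hlim2 := erg_bilin hU hq hq
  have e1 : ∫ z : X × X, ((‖g z.2‖ ^ 2 : ℝ) : ℂ) ∂lam = (a : ℂ) := by
    rw [integral_complex_ofReal, hasq]
  rw [e1, Complex.conj_ofReal] at hlim2
  -- real form
  set V : ℕ → ℝ := fun R => (1 / (R : ℝ)) * ∑ r ∈ range R, ∫ z : X × X, ‖g (S'^[r] z.2) * conj (g z.2)‖ ^ 2 ∂lam with hV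
  have hVlim : Tendsto V atTop (𝓝 (a ^ 2)) := by
    have h3 := (Complex.continuous_re.tendsto _).comp hlim2
    have e2 : ((a : ℂ) * (a : ℂ)).re = a ^ 2 := by
      rw [← Complex.ofReal_mul, Complex.ofReal_re]; ring
    rw [e2] at h3
    refine h3.congr fun R => ?_
    rw [Function.comp_apply]
    have e3 : ∀ r : ℕ, ∫ z : X × X, ((‖g ((Prod.map S S')^[r] z).2‖ ^ 2 : ℝ) : ℂ) * conj (((‖g z.2‖ ^ 2 : ℝ) : ℂ)) ∂lam =
        ((∫ z : X × X, ‖g (S'^[r] z.2) * conj (g z.2)‖ ^ 2 ∂lam : ℝ) : ℂ) := by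
      intro r
      rw [← integral_complex_ofReal]
      refine integral_congr_ae (Eventually.of_forall fun z => ?_)
      dsimp only
      rw [Complex.conj_ofReal, ← Complex.ofReal_mul, norm_mul, RCLike.norm_conj, Prod.map_iterate, Prod.map_snd, mul_pow]
    rw [Finset.sum_congr rfl fun r _ => e3 r, hV]
    dsimp only
    rw [← Complex.ofReal_sum]
    have e4 : (1 / (R : ℂ)) = ((1 / (R : ℝ) : ℝ) : ℂ) := by push_cast; ring
    rw [e4, ← Complex.ofReal_mul, Complex.ofReal_re]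
  -- one term
  set u : ℕ → ℝ := fun r => ∫ z, ‖J lam (fun x => f (S^[r] x) * conj (f x)) z‖ ^ 2 ∂lam with hu
  set v : ℕ → ℝ := fun r => ∫ z : X × X, ‖g (S'^[r] z.2) * conj (g z.2)‖ ^ 2 ∂lam with hv
  have hu0 : ∀ r, 0 ≤ u r := fun r => integral_nonneg fun _ => by positivity
  have hv0 : ∀ r, 0 ≤ v r := fun r => integral_nonneg fun _ => by positivity
  have hterm : ∀ r : ℕ, ‖∫ z : X × X, (fun z : X × X => f z.1 * conj (g z.2)) ((Prod.map S S')^[r] z) *
      conj (f z.1 * conj (g z.2)) ∂lam‖ ≤ Real.sqrt (u r) * Real.sqrt (v r) := by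
    intro r
    have hGf : BM μ fun x => f (S^[r] x) * conj (f x) := (hf.comp (hS.iterate r)).mul hf.conj
    have hgr : BM lam fun z : X × X => g (S'^[r] z.2) := by
      have h5 := hgb.comp (hU.toMeasurePreserving.iterate r)
      refine h5.congr (Eventually.of_forall fun z => ?_)
      dsimp only
      rw [Prod.map_iterate, Prod.map_snd]
    have hGg : BM lam fun z : X × X => (fun y => g (S'^[r] y) * conj (g y)) z.2 := hgr.mul hgb.conj
    have hmeas : Measurable fun y => g (S'^[r] y) * conj (g y) :=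
      (hg.comp (hS'.iterate r)).mul (Complex.continuous_conj.measurable.comp hg)
    have e5 : ∫ z : X × X, (fun z : X × X => f z.1 * conj (g z.2)) ((Prod.map S S')^[r] z) *
        conj (f z.1 * conj (g z.2)) ∂lam =
        ∫ z : X × X, (fun x => f (S^[r] x) * conj (f x)) z.1 * conj ((fun y => g (S'^[r] y) * conj (g y)) z.2) ∂lam := by
      refine integral_congr_ae (Eventually.of_forall fun z => ?_)
      dsimp only
      rw [Prod.map_iterate, Prod.map_fst, Prod.map_snd]
      simp only [map_mul, Complex.conj_conj]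
      ring
    rw [e5, J_int h1 hGf hmeas hGg]
    exact bm_cs (J_bm h1 hGf) hGg
  have hBig : ∀ᶠ R : ℕ in atTop, ‖(1 / (R : ℂ)) * ∑ r ∈ range R, ∫ z : X × X,
      (fun z : X × X => f z.1 * conj (g z.2)) ((Prod.map S S')^[r] z) * conj (f z.1 * conj (g z.2)) ∂lam‖ ≤
      Real.sqrt B * Real.sqrt (V R) := by
    filter_upwards [hB, eventually_gt_atTop 0] with R hR hR0
    have hRr : (0 : ℝ) < R := by exact_mod_cast hR0
    rw [norm_mul, norm_div, norm_one, Complex.norm_natCast]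
    have h6 : ‖∑ r ∈ range R, ∫ z : X × X, (fun z : X × X => f z.1 * conj (g z.2)) ((Prod.map S S')^[r] z) *
        conj (f z.1 * conj (g z.2)) ∂lam‖ ≤ ∑ r ∈ range R, Real.sqrt (u r) * Real.sqrt (v r) :=
      (norm_sum_le _ _).trans (Finset.sum_le_sum fun r _ => hterm r)
    have h7 : (∑ r ∈ range R, Real.sqrt (u r) * Real.sqrt (v r)) ^ 2 ≤ (∑ r ∈ range R, u r) * ∑ r ∈ range R, v r := by
      have := Finset.sum_mul_sq_le_sq_mul_sq (range R) (fun r => Real.sqrt (u r)) (fun r => Real.sqrt (v r))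
      simpa only [Real.sq_sqrt (hu0 _), Real.sq_sqrt (hv0 _)] using this
    have h8 : 0 ≤ ∑ r ∈ range R, u r := Finset.sum_nonneg fun r _ => hu0 r
    have h9 : 0 ≤ ∑ r ∈ range R, v r := Finset.sum_nonneg fun r _ => hv0 r
    have h10 : ∑ r ∈ range R, Real.sqrt (u r) * Real.sqrt (v r) ≤ Real.sqrt (∑ r ∈ range R, u r) * Real.sqrt (∑ r ∈ range R, v r) := by
      rw [← Real.sqrt_mul h8]
      exact Real.le_sqrt_of_sq_le h7
    have h11 : (1 / (R : ℝ)) * (Real.sqrt (∑ r ∈ range R, u r) * Real.sqrt (∑ r ∈ range R, v r)) =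
        Real.sqrt ((1 / (R : ℝ)) * ∑ r ∈ range R, u r) * Real.sqrt ((1 / (R : ℝ)) * ∑ r ∈ range R, v r) := by
      rw [Real.sqrt_mul (by positivity), Real.sqrt_mul (by positivity)]
      have h13 : Real.sqrt (1 / (R : ℝ)) * Real.sqrt (1 / (R : ℝ)) = 1 / R := Real.mul_self_sqrt (by positivity)
      generalize Real.sqrt (1 / (R : ℝ)) = s at h13 ⊢
      rw [← h13]; ring
    calc 1 / (R : ℝ) * ‖∑ r ∈ range R, ∫ z : X × X, (fun z : X × X => f z.1 * conj (g z.2)) ((Prod.map S S')^[r] z) *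
          conj (f z.1 * conj (g z.2)) ∂lam‖
        ≤ (1 / (R : ℝ)) * (Real.sqrt (∑ r ∈ range R, u r) * Real.sqrt (∑ r ∈ range R, v r)) :=
          mul_le_mul_of_nonneg_left (h6.trans h10) (by positivity)
      _ = Real.sqrt ((1 / (R : ℝ)) * ∑ r ∈ range R, u r) * Real.sqrt ((1 / (R : ℝ)) * ∑ r ∈ range R, v r) := h11
      _ ≤ Real.sqrt B * Real.sqrt (V R) :=
          mul_le_mul_of_nonneg_right (Real.sqrt_le_sqrt hR) (Real.sqrt_nonneg _)
  have hBound : Tendsto (fun R => Real.sqrt B * Real.sqrt (V R)) atTop (𝓝 (Real.sqrt B * Real.sqrt (a ^ 2))) :=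
    (Real.continuous_sqrt.tendsto _).comp hVlim |>.const_mul _
  have hfin : a ^ 2 ≤ Real.sqrt B * Real.sqrt (a ^ 2) := le_of_tendsto_of_tendsto hlim1' hBound hBig
  rw [Real.sqrt_sq ha0] at hfin
  have hB0 : 0 ≤ B := by
    obtain ⟨R, hR⟩ := hB.exists
    exact le_trans (mul_nonneg (by positivity) (Finset.sum_nonneg fun r _ => hu0 r)) hR
  have hs := Real.sq_sqrt hB0
  have hsn := Real.sqrt_nonneg B
  rcases ha0.eq_or_lt with h0 | h0
  · rw [← h0]; simpa using hB0
  · have h12 : a ≤ Real.sqrt B := by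
      have : a * a ≤ Real.sqrt B * a := by nlinarith
      exact le_of_mul_le_mul_right this h0
    calc a ^ 2 ≤ Real.sqrt B ^ 2 := pow_le_pow_left₀ ha0 h12 2
      _ = B := hs

/-- the bilinear form: products of correlations -/
theorem corr_prod [IsProbabilityMeasure lam] {S S' : X → X} (hU : Ergodic (Prod.map S S') lam) {f g f2 g2 : X → ℂ}
    (h : BM lam fun z : X × X => f z.1 * conj (g z.2)) (h2 : BM lam fun z : X × X => f2 z.1 * conj (g2 z.2)) :
    Tendsto (fun R : ℕ => (1 / (R : ℂ)) * ∑ r ∈ range R, ∫ z : X × X,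
      (f (S^[r] z.1) * conj (f2 z.1)) * conj (g (S'^[r] z.2) * conj (g2 z.2)) ∂lam) atTop
      (𝓝 ((∫ z : X × X, f z.1 * conj (g z.2) ∂lam) * conj (∫ z : X × X, f2 z.1 * conj (g2 z.2) ∂lam))) := by
  refine (erg_bilin hU h h2).congr fun R => ?_
  congr 1
  refine Finset.sum_congr rfl fun r _ => ?_
  refine integral_congr_ae (Eventually.of_forall fun z => ?_)
  dsimp only
  rw [Prod.map_iterate, Prod.map_fst, Prod.map_snd]
  simp only [map_mul, Complex.conj_conj]
  ring

end Pool.Agent.Lib.MP_9fe581_an.AH
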