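import Pool.Agent.Lib.MP_9fe581_an.AH.Avg
import Pool.Agent.Lib.MP_9fe581_an.AH.Cob

/-!
# AH, module N-E: ergodicity of all powers
-/

set_option autoImplicit false
set_option linter.unusedSectionVars false

open MeasureTheory Filter Topology Finset
open scoped ComplexConjugate

namespace Pool.Agent.Lib.MP_9fe581_an.AH

open HT (TX mX ch)

variable {κ : Type} [Fintype κ] [DecidableEq κ] (W : Tow κ)

private theorem ch_nsmul (m : κ →₀ ℤ) (n : ℕ) (x : TX κ) : ch (n • m) x = ch m x ^ n := by
  induction n with
  | zero => rw [zero_smul, pow_zero, HT.ch_zero]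
  | succ n ih => rw [succ_nsmul, pow_succ, HT.ch_add, ih]

private theorem psi_zero {m : κ →₀ ℤ} (hm : OnM W 0 m) (x : TX κ) : ch m (fun i => W.ψ i x) = ch m (fun i => W.ψ i 0) := by
  show FT.ec (FT.pr m _) = FT.ec (FT.pr m _)
  congr 1
  exact FT.pr_congr m _ _ fun i hi => W.dep i x 0 fun l hl => by rw [hm i hi] at hl; exact absurd hl (Nat.not_lt_zero _)

private theorem psn_zero_level {m : κ →₀ ℤ} (hm : OnM W 0 m) (n : ℕ) (x : TX κ) :
    ch m (psn W n x) = ch m (fun i => W.ψ i 0) ^ n := by
  induction n generalizing x with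
  | zero =>
    have e : psn W 0 x = 0 := by simp [psn]
    rw [e, pow_zero]
    show FT.ec (FT.pr m 0) = 1
    have h5 := FT.pr_add_right m (0 : TX κ) 0
    rw [add_zero] at h5
    rw [left_eq_add.1 h5, FT.ec_zero]
  | succ n ih => rw [psn_succ, HT.ch_add_right, psi_zero W hm, ih, pow_succ]; ring

theorem unim_mul (z : ℂ) (h : ‖z‖ = 1) : z * conj z = 1 := by
  rw [Complex.mul_conj, Complex.normSq_eq_norm_sq, h]; norm_num

private theorem ae_shift' (c : TX κ) {P : TX κ → Prop} (h : ∀ᵐ x ∂mX κ, P x) : ∀ᵐ x ∂mX κ, P (x + c) :=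
  (measurePreserving_add_right (mX κ) c).quasiMeasurePreserving.ae h

/-- no solution of the cohomological equation in the mode `m` -/
theorem no_coc (hN : ND W) {a p : ℕ} (hp : 0 < p) {m : κ →₀ ℤ} (hm0 : m ≠ 0) (hm : OnM W a m) (hE : ErgL W a) {w : TX κ → ℂ}
    (hw : Measurable w) {C : ℝ} (hC : ∀ x, ‖w x‖ ≤ C) (hl : Low W a w)
    (h : ∀ᵐ x ∂mX κ, w ((TT W)^[p] x) = ch m (psn W p x) * w x) : w =ᵐ[mX κ] 0 := by
  rcases a with _ | j
  · -- level 0
    have hc : ∀ x, w x = w 0 := fun x => hl x 0 fun i hi => absurd hi (Nat.not_lt_zero _)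
    obtain ⟨x, hx⟩ := h.exists
    rw [hc, hc x, psn_zero_level W hm, ← ch_nsmul] at hx
    have hne : ch (p • m) (fun i => W.ψ i 0) ≠ 1 := by
      refine hN.base (p • m) ?_ fun i hi => hm i fun h0 => hi ?_
      · intro h0
        refine hm0 (Finsupp.ext fun i => ?_)
        have := DFunLike.congr_fun h0 i
        simp only [Finsupp.coe_smul, Pi.smul_apply, nsmul_eq_mul, Finsupp.coe_zero, Pi.zero_apply, mul_eq_zero, Nat.cast_eq_zero] at this
        rcases this with h1 | h1
        · omega
        · exact h1
      · rw [Finsupp.coe_smul, Pi.smul_apply, h0, smul_zero]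
    have h0 : w 0 = 0 := by
      have : (ch (p • m) (fun i => W.ψ i 0) - 1) * w 0 = 0 := by rw [sub_mul, one_mul, ← hx, sub_self]
      rcases mul_eq_zero.1 this with h1 | h1
      · exact absurd (sub_eq_zero.1 h1) hne
      · exact h1
    exact Eventually.of_forall fun x => by rw [hc x, h0]; rfl
  · -- level `j + 1`
    obtain ⟨c, hc⟩ := hE p hp (fun x => ((‖w x‖ : ℝ) : ℂ)) (Complex.measurable_ofReal.comp hw.norm)
      ⟨C, fun x => by rw [Complex.norm_real, Real.norm_of_nonneg (norm_nonneg _)]; exact hC x⟩
      (fun x y hxy => by show ((‖w x‖ : ℝ) : ℂ) = ((‖w y‖ : ℝ) : ℂ); rw [hl x y hxy])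
      (by filter_upwards [h] with x hx; rw [hx, norm_mul, HT.ch_norm, one_mul])
    by_contra hne
    have hc0 : c ≠ 0 := by
      intro h0
      refine hne ?_
      filter_upwards [hc] with x hx
      rw [h0] at hx
      have : ‖w x‖ = 0 := by exact_mod_cast hx
      exact norm_eq_zero.1 this
    set v : TX κ → ℂ := fun x => if w x = 0 then 1 else w x / (‖w x‖ : ℝ) with hv
    have hvm : Measurable v := Measurable.ite (hw (measurableSet_singleton 0)) measurable_const
      (hw.div (Complex.measurable_ofReal.comp hw.norm))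
    have hv1 : ∀ x, ‖v x‖ = 1 := by
      intro x
      rw [hv]; dsimp only
      split_ifs with h0
      · simp
      · rw [norm_div, Complex.norm_real, Real.norm_of_nonneg (norm_nonneg _), div_self (norm_ne_zero_iff.2 h0)]
    have hvl : Low W (j + 1) v := by
      intro x y hxy
      rw [hv]; dsimp only
      rw [hl x y hxy]
    have hve : ∀ᵐ x ∂mX κ, v ((TT W)^[p] x) = ch m (psn W p x) * v x := by
      filter_upwards [h, hc] with x hx hcx
      have hx0 : w x ≠ 0 := by
        intro h0
        rw [h0, norm_zero] at hcx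
        exact hc0 (by rw [← hcx]; norm_num)
      have hx1 : w ((TT W)^[p] x) ≠ 0 := by
        rw [hx]
        refine mul_ne_zero ?_ hx0
        rw [← norm_ne_zero_iff, HT.ch_norm]; norm_num
      rw [hv]; dsimp only
      rw [if_neg hx0, if_neg hx1, hx, norm_mul, HT.ch_norm, one_mul]
      ring
    refine not_PB W hN hp hm0 hm hE (E := Set.univ) MeasurableSet.univ (by rw [measure_univ]; norm_num) fun b _ => ?_
    refine ⟨fun x => v (x + lp W j b) * conj (v x), ?_, fun x => ?_, ?_, ?_⟩
    · exact (hvm.comp (measurable_id.add_const _)).mul (Complex.continuous_conj.measurable.comp hvm)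
    · rw [norm_mul, RCLike.norm_conj, hv1, hv1, one_mul]
    · exact (hvl.shift _).mul hvl.conj
    · filter_upwards [hve, ae_shift' (lp W j b) hve] with x h1 h2
      rw [← hvl.rot p b x, h1, h2, map_mul]
      have e : ch m (psn W p (x + lp W j b)) = ch m (psn W p (x + lp W j b) - psn W p x) * ch m (psn W p x) := by
        rw [← HT.ch_add_right, sub_add_cancel]
      rw [e]
      have n1 := unim_mul (ch m (psn W p x)) (HT.ch_norm _ _)
      calc ch m (psn W p (x + lp W j b) - psn W p x) * ch m (psn W p x) * v (x + lp W j b) * (conj (ch m (psn W p x)) * conj (v x))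
          = ch m (psn W p (x + lp W j b) - psn W p x) * (v (x + lp W j b) * conj (v x)) *
            (ch m (psn W p x) * conj (ch m (psn W p x))) := by ring
        _ = _ := by rw [n1, mul_one]

/-- functions invariant under powers are constant, all levels -/
theorem ergL (hN : ND W) (a : ℕ) : ErgL W a := by
  induction a with
  | zero => exact fun p _ g _ _ hg _ => ⟨g 0, Eventually.of_forall fun x => hg x 0 fun i hi => absurd hi (Nat.not_lt_zero _)⟩
  | succ a ih =>
    intro p hp g hgm hgb hgl hginv
    obtain ⟨C, hC⟩ := hgb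
    have hG : ∀ m : κ →₀ ℤ, OnM W a m → ∀ᵐ x ∂mX κ, AV W a (fun x => g x * ch (-m) x) ((TT W)^[p] x) =
        ch (-m) (psn W p x) * AV W a (fun x => g x * ch (-m) x) x := by
      intro m hm
      have hmm : OnM W a (-m) := fun i hi => hm i fun h0 => hi (by rw [Finsupp.neg_apply, h0, neg_zero])
      have hme : Measurable fun x => g x * ch (-m) x := hgm.mul (HT.ch_cont _).measurable
      have e1 : (fun x => (fun x => g x * ch (-m) x) ((TT W)^[p] x)) =ᵐ[mX κ] fun x => ch (-m) (psn W p x) * (g x * ch (-m) x) := by
        filter_upwards [hginv] with x hx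
        show g ((TT W)^[p] x) * ch (-m) ((TT W)^[p] x) = _
        rw [hx, ch_iter]
        ring
      filter_upwards [AV_congr W a e1] with x hx
      rw [← AV_iter W a p hme x, hx, AV_mul W (chpsn_low W hmm p)]
    have hGm : ∀ m : κ →₀ ℤ, Measurable (AV W a fun x => g x * ch (-m) x) := fun m =>
      AV_meas W a (hgm.mul (HT.ch_cont _).measurable)
    have hGb : ∀ (m : κ →₀ ℤ) x, ‖AV W a (fun x => g x * ch (-m) x) x‖ ≤ C := fun m x =>
      AV_le W a (fun y => by rw [norm_mul, HT.ch_norm, mul_one]; exact hC y) x
    have hz : ∀ m : κ →₀ ℤ, OnM W a m → m ≠ 0 → AV W a (fun x => g x * ch (-m) x) =ᵐ[mX κ] 0 := by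
      intro m hm hm0
      have hmm : OnM W a (-m) := fun i hi => hm i fun h0 => hi (by rw [Finsupp.neg_apply, h0, neg_zero])
      exact no_coc W hN hp (neg_ne_zero.2 hm0) hmm ih (hGm m) (hGb m) (AV_low W a _) (hG m hm)
    have h00 : (fun x => g x * ch (-(0 : κ →₀ ℤ)) x) = g := by
      funext x; rw [neg_zero, HT.ch_zero, mul_one]
    obtain ⟨c, hc⟩ : ∃ c : ℂ, AV W a g =ᵐ[mX κ] fun _ => c := by
      have h1 := hG 0 (fun i hi => absurd rfl hi)
      have h2 := hGm 0
      have h3 := hGb 0
      rw [h00] at h1 h2 h3
      refine ih p hp (AV W a g) h2 ⟨C, h3⟩ (AV_low W a _) ?_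
      filter_upwards [h1] with x hx
      rw [hx, neg_zero, HT.ch_zero, one_mul]
    refine ⟨c, ?_⟩
    have hB : BM (mX κ) g := BM.of_bdd hgm hC
    have hz' : (fun x => g x - c) =ᵐ[mX κ] 0 := by
      refine hat_zero (hB.sub (BM.const c)) fun n => ?_
      have hhc : hat (fun x => g x - c) n = hat g n - c * ∫ x, conj (ch n x) ∂mX κ := by
        show ∫ x, (g x - c) * conj (ch n x) ∂mX κ = ∫ x, g x * conj (ch n x) ∂mX κ - c * ∫ x, conj (ch n x) ∂mX κ
        rw [← integral_const_mul, ← integral_sub]
        · exact integral_congr_ae (Eventually.of_forall fun x => sub_mul _ _ _)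
        · exact (hB.mul (BM.of_bdd (HT.ch_cont n).measurable fun x => (HT.ch_norm n x).le).conj).integrable
        · exact ((BM.of_bdd (HT.ch_cont n).measurable fun x => (HT.ch_norm n x).le).conj.integrable).const_mul c
      have hcn : ∫ x, conj (ch n x) ∂mX κ = if n = 0 then 1 else 0 := by
        have := HT.ch_int (-n)
        simp only [HT.ch_neg, neg_eq_zero] at this
        exact this
      rw [hhc, hcn]
      by_cases hn : ∃ i, n i ≠ 0 ∧ a + 1 ≤ W.lev i
      · rw [hat_low W hgl n hn, if_neg, mul_zero, sub_zero]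
        rintro rfl
        obtain ⟨i, hi, -⟩ := hn
        exact hi rfl
      · push Not at hn
        set m : κ →₀ ℤ := n.filter fun i => ¬ W.lev i < a with hm
        set n' : κ →₀ ℤ := n.filter fun i => W.lev i < a with hn'
        have hsum : n' + m = n := Finsupp.filter_add_filter_not n _
        have hmOn : OnM W a m := by
          intro i hi
          rw [hm, Finsupp.filter_apply] at hi
          by_cases h1 : W.lev i < a
          · rw [if_neg (not_not.2 h1)] at hi
            exact absurd rfl hi
          · rw [if_pos h1] at hi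
            have := hn i hi
            omega
        have hn'l : Low W a (ch n') := by
          intro x y hxy
          show FT.ec (FT.pr n' x) = FT.ec (FT.pr n' y)
          congr 1
          refine FT.pr_congr n' x y fun i hi => hxy i ?_
          rw [hn', Finsupp.filter_apply] at hi
          by_contra h1
          rw [if_neg h1] at hi
          exact hi rfl
        have e1 : hat g n = ∫ x, AV W a (fun x => g x * ch (-m) x) x * conj (ch n' x) ∂mX κ := by
          rw [AV_int W hn'l (HT.ch_cont n').measurable (C := 1) (fun x => (HT.ch_norm _ _).le) (w := fun x => g x * ch (-m) x)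
            (hgm.mul (HT.ch_cont _).measurable) (hB.mul (BM.of_bdd (HT.ch_cont (-m)).measurable fun x => (HT.ch_norm _ x).le)).integrable]
          refine integral_congr_ae (Eventually.of_forall fun x => ?_)
          dsimp only
          rw [← hsum, HT.ch_add, map_mul, HT.ch_neg]
          ring
        rw [e1]
        by_cases hm0 : m = 0
        · rw [hm0, h00]
          have e2 : ∫ x, AV W a g x * conj (ch n' x) ∂mX κ = c * ∫ x, conj (ch n' x) ∂mX κ := by
            rw [← integral_const_mul]
            refine integral_congr_ae ?_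
            filter_upwards [hc] with x hx
            rw [hx]
          have e3 : n' = n := by rw [← hsum, hm0, add_zero]
          rw [e2, e3, hcn, sub_self]
        · have e2 : ∫ x, AV W a (fun x => g x * ch (-m) x) x * conj (ch n' x) ∂mX κ = 0 := by
            have : (fun x => AV W a (fun x => g x * ch (-m) x) x * conj (ch n' x)) =ᵐ[mX κ] fun _ => 0 := by
              filter_upwards [hz m hmOn hm0] with x hx
              rw [hx]; simp
            rw [integral_congr_ae this, integral_zero]
          rw [e2, if_neg, mul_zero, sub_zero]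
          intro hn0
          refine hm0 ?_
          rw [hm, hn0, Finsupp.filter_zero]
    filter_upwards [hz'] with x hx
    exact sub_eq_zero.1 hx

theorem low_top {E : Type} (f : TX κ → E) : Low W (∑ i, W.lev i + 1) f := by
  intro x y h
  congr 1
  funext i
  exact h i (Nat.lt_succ_of_le (single_le_sum (f := W.lev) (fun _ _ => Nat.zero_le _) (mem_univ i)))

theorem erg (hN : ND W) {p : ℕ} (hp : 0 < p) : Ergodic (TT W)^[p] (mX κ) := by
  classical
  refine ⟨(TT_pres W).iterate p, ⟨fun s hs hinv => ?_⟩⟩
  obtain ⟨c, hc⟩ := ergL W hN _ p hp (s.indicator fun _ => (1 : ℂ)) (measurable_const.indicator hs)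
    ⟨1, fun x => by rw [Set.indicator_apply]; split_ifs <;> simp⟩ (low_top W _) (Eventually.of_forall fun x => by
      have : (TT W)^[p] x ∈ s ↔ x ∈ s := by
        conv_rhs => rw [← hinv]
        rfl
      rw [Set.indicator_apply, Set.indicator_apply]
      simp only [this])
  rw [eventuallyConst_set']
  by_cases h1 : c = 1
  · right
    filter_upwards [hc] with x hx
    rw [h1, Set.indicator_apply] at hx
    split_ifs at hx with h2
    · exact eq_true h2
    · exact absurd hx.symm one_ne_zero
  · left
    filter_upwards [hc] with x hx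
    rw [Set.indicator_apply] at hx
    split_ifs at hx with h2
    · exact absurd hx.symm h1
    · exact eq_false h2

end Pool.Agent.Lib.MP_9fe581_an.AH
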