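import Mathlib

/-!
# AH, module F1: invariant measures are dominated by ergodic ones

For a continuous `S` on a compact metrizable space, an invariant probability measure `ρ` and a continuous `Φ` there is an
ergodic `lam` with `∫ Φ dρ ≤ ∫ Φ dlam` (lexicographic maximum along a dense sequence of continuous functions).
-/

set_option autoImplicit false

open MeasureTheory Filter Topology Set
open scoped ENNReal

namespace Pool.Agent.Lib.MP_9fe581_an.AH

variable {Z : Type} [TopologicalSpace Z] [CompactSpace Z] [TopologicalSpace.MetrizableSpace Z] [MeasurableSpace Z]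
  [BorelSpace Z]

/-- the integral of a continuous function, as a functional of the measure -/
private noncomputable def eL (Φ : C(Z, ℝ)) (μ : ProbabilityMeasure Z) : ℝ := ∫ z, Φ z ∂(μ : Measure Z)

private theorem eL_cont (Φ : C(Z, ℝ)) : Continuous (eL Φ) := by
  rw [continuous_iff_continuousAt]
  intro μ
  have h := ProbabilityMeasure.tendsto_iff_forall_integral_tendsto.mp (tendsto_id (α := ProbabilityMeasure Z) (x := 𝓝 μ))
  exact h (BoundedContinuousFunction.mkOfCompact Φ)

/-- the maximizers -/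
private noncomputable def eMax (Φ : C(Z, ℝ)) (K : Set (ProbabilityMeasure Z)) : Set (ProbabilityMeasure Z) :=
  {μ | μ ∈ K ∧ ∀ ν ∈ K, eL Φ ν ≤ eL Φ μ}

private theorem eMax_ne (Φ : C(Z, ℝ)) (K : Set (ProbabilityMeasure Z)) (hK : IsCompact K) (hne : K.Nonempty) :
    (eMax Φ K).Nonempty := by
  obtain ⟨μ, hμ, h⟩ := hK.exists_isMaxOn hne (eL_cont Φ).continuousOn
  exact ⟨μ, hμ, fun ν hν => h hν⟩

private theorem eMax_compact [T2Space (ProbabilityMeasure Z)] (Φ : C(Z, ℝ)) (K : Set (ProbabilityMeasure Z))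
    (hK : IsCompact K) : IsCompact (eMax Φ K) := by
  have h : eMax Φ K = K ∩ ⋂ ν ∈ K, {μ | eL Φ ν ≤ eL Φ μ} := by
    ext μ; simp [eMax]
  rw [h]
  refine hK.inter_right ?_
  exact isClosed_biInter fun ν _ => isClosed_le continuous_const (eL_cont Φ)

/-- the nested sets -/
private noncomputable def eK (S : Z → Z) (Ψ : ℕ → C(Z, ℝ)) : ℕ → Set (ProbabilityMeasure Z)
  | 0 => {μ | MeasurePreserving S (μ : Measure Z) (μ : Measure Z)}
  | n + 1 => eMax (Ψ n) (eK S Ψ n)

private theorem eK_zero_closed (S : Z → Z) (hS : Continuous S) (Ψ : ℕ → C(Z, ℝ)) : IsClosed (eK S Ψ 0) := by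
  have h : eK S Ψ 0 = ⋂ Φ : C(Z, ℝ), {μ | eL (Φ.comp ⟨S, hS⟩) μ = eL Φ μ} := by
    ext μ
    simp only [eK, mem_ofPred_eq, mem_iInter]
    constructor
    · intro hμ Φ
      unfold eL
      have h1 := hμ.map_eq
      have h2 : ∫ z, Φ z ∂(Measure.map S (μ : Measure Z)) = ∫ z, Φ (S z) ∂(μ : Measure Z) :=
        integral_map hS.measurable.aemeasurable Φ.continuous.measurable.aestronglyMeasurable
      rw [h1] at h2
      exact h2.symm
    · intro h
      refine ⟨hS.measurable, ?_⟩
      have hfm : IsFiniteMeasure (Measure.map S (μ : Measure Z)) := Measure.isFiniteMeasure_map _ _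
      let _ : MetricSpace Z := TopologicalSpace.metrizableSpaceMetric Z
      refine ext_of_forall_integral_eq_of_IsFiniteMeasure fun g => ?_
      rw [integral_map hS.measurable.aemeasurable g.continuous.measurable.aestronglyMeasurable]
      exact h g.toContinuousMap
  rw [h]
  exact isClosed_iInter fun Φ => isClosed_eq (eL_cont _) (eL_cont _)

private theorem eK_mono (S : Z → Z) (Ψ : ℕ → C(Z, ℝ)) (n : ℕ) : eK S Ψ (n + 1) ⊆ eK S Ψ n := fun _ h => h.1

private theorem eL_conv {a b A B L : ℝ} (ha : 0 < a) (hb : 0 < b) (hab : a + b = 1) (hA : A ≤ L) (hB : B ≤ L)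
    (h : L = a * A + b * B) : A = L := by
  by_contra hne
  have h1 : A < L := lt_of_le_of_ne hA hne
  have h2 : a * A < a * L := mul_lt_mul_of_pos_left h1 ha
  have h3 : b * B ≤ b * L := mul_le_mul_of_nonneg_left hB hb.le
  have h4 : a * L + b * L = L := by rw [← add_mul, hab, one_mul]
  linarith

theorem exists_ergodic (S : Z → Z) (hS : Continuous S) (ρ : Measure Z) (hρ1 : IsProbabilityMeasure ρ)
    (hρ : MeasurePreserving S ρ ρ) (Φ : C(Z, ℝ)) :
    ∃ lam : Measure Z, IsProbabilityMeasure lam ∧ Ergodic S lam ∧ ∫ z, Φ z ∂ρ ≤ ∫ z, Φ z ∂lam := by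
  let _ : MetricSpace Z := TopologicalSpace.metrizableSpaceMetric Z
  have hZ : SecondCountableTopology Z := inferInstance
  obtain ⟨Θ, hΘ⟩ := TopologicalSpace.exists_dense_seq C(Z, ℝ)
  set Ψ : ℕ → C(Z, ℝ) := fun n => Nat.rec Φ (fun k _ => Θ k) n with hΨ
  have hΨ0 : Ψ 0 = Φ := rfl
  have hΨs : ∀ n, Ψ (n + 1) = Θ n := fun n => rfl
  have hc : ∀ n, IsCompact (eK S Ψ n) ∧ (eK S Ψ n).Nonempty := by
    intro n
    induction n with
    | zero => exact ⟨(eK_zero_closed S hS Ψ).isCompact, ⟨⟨ρ, hρ1⟩, hρ⟩⟩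
    | succ n ih => exact ⟨eMax_compact _ _ ih.1, eMax_ne _ _ ih.1 ih.2⟩
  obtain ⟨lam, hlam⟩ := IsCompact.nonempty_iInter_of_sequence_nonempty_isCompact_isClosed (eK S Ψ) (eK_mono S Ψ)
    (fun n => (hc n).2) (hc 0).1 (fun n => (hc n).1.isClosed)
  rw [mem_iInter] at hlam
  have hinv : MeasurePreserving S (lam : Measure Z) (lam : Measure Z) := hlam 0
  refine ⟨(lam : Measure Z), inferInstance, ?_, ?_⟩
  · apply Ergodic.of_mem_extremePoints
    refine mem_extremePoints_iff_left.2 ⟨⟨hinv, inferInstance⟩, ?_⟩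
    rintro ν₁ ⟨h1, h1'⟩ ν₂ ⟨h2, h2'⟩ ⟨a, b, ha, hb, hab, hs⟩
    set m₁ : ProbabilityMeasure Z := ⟨ν₁, h1'⟩ with hm1
    set m₂ : ProbabilityMeasure Z := ⟨ν₂, h2'⟩ with hm2
    have ha1 : a ≠ ∞ := by
      intro h; rw [h] at hab; simp at hab
    have hb1 : b ≠ ∞ := by
      intro h; rw [h] at hab; simp at hab
    have hint : ∀ Φ' : C(Z, ℝ), eL Φ' lam = a.toReal * eL Φ' m₁ + b.toReal * eL Φ' m₂ := by
      intro Φ'
      have hi : ∀ ν : Measure Z, IsProbabilityMeasure ν → Integrable (fun z => Φ' z) ν := by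
        intro ν hν
        exact (BoundedContinuousFunction.mkOfCompact Φ').integrable ν
      have e : (lam : Measure Z) = a • ν₁ + b • ν₂ := hs.symm
      unfold eL
      rw [e, integral_add_measure ((hi ν₁ h1').smul_measure ha1) ((hi ν₂ h2').smul_measure hb1),
        integral_smul_measure, integral_smul_measure, smul_eq_mul, smul_eq_mul]
      rfl
    have hab' : a.toReal + b.toReal = 1 := by
      rw [← ENNReal.toReal_add ha1 hb1, hab, ENNReal.toReal_one]
    have ha' : 0 < a.toReal := ENNReal.toReal_pos ha.ne' ha1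
    have hb' : 0 < b.toReal := ENNReal.toReal_pos hb.ne' hb1
    have key : ∀ n, m₁ ∈ eK S Ψ n ∧ m₂ ∈ eK S Ψ n := by
      intro n
      induction n with
      | zero => exact ⟨h1, h2⟩
      | succ n ih =>
        have hl := (hlam (n + 1)).2
        have g1 := hl m₁ ih.1
        have g2 := hl m₂ ih.2
        have g3 := hint (Ψ n)
        have g4 : eL (Ψ n) m₁ = eL (Ψ n) lam := eL_conv ha' hb' hab' g1 g2 g3
        have g5 : eL (Ψ n) m₂ = eL (Ψ n) lam :=
          eL_conv hb' ha' (by rw [add_comm]; exact hab') g2 g1 (by rw [add_comm]; exact g3)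
        exact ⟨⟨ih.1, fun ν hν => (hl ν hν).trans g4.ge⟩, ⟨ih.2, fun ν hν => (hl ν hν).trans g5.ge⟩⟩
    have heq : ∀ n, eL (Ψ n) m₁ = eL (Ψ n) lam := by
      intro n
      exact le_antisymm ((hlam (n + 1)).2 m₁ (key n).1) ((key (n + 1)).1.2 lam (hlam n))
    have hall : ∀ Φ' : C(Z, ℝ), eL Φ' m₁ = eL Φ' lam := by
      intro Φ'
      have hcl : IsClosed {Φ' : C(Z, ℝ) | eL Φ' m₁ = eL Φ' lam} := by
        have hcont : ∀ μ : ProbabilityMeasure Z, Continuous fun Φ' : C(Z, ℝ) => eL Φ' μ := by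
          intro μ
          refine LipschitzWith.continuous (K := 1) (LipschitzWith.of_dist_le_mul fun f g => ?_)
          rw [NNReal.coe_one, one_mul, Real.dist_eq]
          unfold eL
          have hi : ∀ f : C(Z, ℝ), Integrable (fun z => f z) (μ : Measure Z) :=
            fun f => (BoundedContinuousFunction.mkOfCompact f).integrable _
          rw [← integral_sub (hi f) (hi g)]
          have h3 : ∀ᵐ z ∂(μ : Measure Z), ‖f z - g z‖ ≤ dist f g := by
            filter_upwards with z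
            rw [Real.norm_eq_abs, ← Real.dist_eq]
            exact ContinuousMap.dist_apply_le_dist z
          have h4 := norm_integral_le_of_norm_le_const h3
          simpa using h4
        exact isClosed_eq (hcont _) (hcont _)
      have hd : Dense {Φ' : C(Z, ℝ) | eL Φ' m₁ = eL Φ' lam} := by
        refine hΘ.mono ?_
        rintro _ ⟨n, rfl⟩
        exact heq (n + 1)
      have := hcl.closure_eq ▸ hd.closure_eq
      have h5 : Φ' ∈ closure {Φ' : C(Z, ℝ) | eL Φ' m₁ = eL Φ' lam} := hd Φ'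
      rwa [hcl.closure_eq] at h5
    refine ext_of_forall_integral_eq_of_IsFiniteMeasure fun g => ?_
    exact hall g.toContinuousMap
  · exact (hlam 1).2 ⟨ρ, hρ1⟩ hρ

end Pool.Agent.Lib.MP_9fe581_an.AH
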