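import Pool.Agent.Lib.MP_9fe581_an.AH.UE
import Pool.Agent.Lib.MP_9fe581_an.AH.EnZ
import Pool.Agent.Lib.MP_9fe581_an.AH.Energy

/-!
# AH, module N-G: ergodic joinings respect the height filtration
-/

set_option autoImplicit false
set_option linter.unusedSectionVars false

open MeasureTheory Filter Topology Finset
open scoped ComplexConjugate

namespace Pool.Agent.Lib.MP_9fe581_an.AH

open HT (TX mX ch)

variable {κ : Type} [Fintype κ] [DecidableEq κ] (W : Tow κ)

/-- an ergodic joining of `T^p` and `T^q` -/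
structure EJ (p q : ℕ) (lam : Measure (TX κ × TX κ)) : Prop where
  prob : IsProbabilityMeasure lam
  erg : Ergodic (Prod.map (TT W)^[p] (TT W)^[q]) lam
  fst : MeasurePreserving Prod.fst lam (mX κ)
  snd : MeasurePreserving Prod.snd lam (mX κ)

theorem EJ.swap {W : Tow κ} {p q : ℕ} {lam : Measure (TX κ × TX κ)} (h : EJ W p q lam) : EJ W q p (lam.map Prod.swap) := by
  have hp := h.prob
  have hsw : MeasurePreserving (Prod.swap : TX κ × TX κ → TX κ × TX κ) lam (lam.map Prod.swap) := ⟨measurable_swap, rfl⟩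
  refine ⟨Measure.isProbabilityMeasure_map measurable_swap.aemeasurable, ?_, ?_, ?_⟩
  · have hm : Measurable (Prod.map (TT W)^[q] (TT W)^[p]) :=
      ((TTn_meas W q).comp measurable_fst).prodMk ((TTn_meas W p).comp measurable_snd)
    have hmp : MeasurePreserving (Prod.map (TT W)^[q] (TT W)^[p]) (lam.map Prod.swap) (lam.map Prod.swap) := by
      refine ⟨hm, ?_⟩
      rw [Measure.map_map hm measurable_swap]
      have e : Prod.map (TT W)^[q] (TT W)^[p] ∘ Prod.swap = Prod.swap ∘ Prod.map (TT W)^[p] (TT W)^[q] := rfl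
      rw [e, ← Measure.map_map measurable_swap h.erg.measurable, h.erg.map_eq]
    refine ⟨hmp, ⟨fun s hs hinv => ?_⟩⟩
    have h1 := h.erg.aeconst_set (s := Prod.swap ⁻¹' s) (measurable_swap hs) (by
      rw [← Set.preimage_comp]
      have e : Prod.swap ∘ Prod.map (TT W)^[p] (TT W)^[q] = Prod.map (TT W)^[q] (TT W)^[p] ∘ Prod.swap := rfl
      rw [e, Set.preimage_comp, hinv])
    rw [eventuallyConst_set'] at h1 ⊢
    rcases h1 with h1 | h1
    · left
      rw [ae_eq_empty] at h1 ⊢
      rw [Measure.map_apply measurable_swap hs]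
      exact h1
    · right
      rw [ae_eq_univ] at h1 ⊢
      rw [Measure.map_apply measurable_swap hs.compl]
      exact h1
  · refine ⟨measurable_fst, ?_⟩
    rw [Measure.map_map measurable_fst measurable_swap]
    exact h.snd.map_eq
  · refine ⟨measurable_snd, ?_⟩
    rw [Measure.map_map measurable_snd measurable_swap]
    exact h.fst.map_eq

/-- from ergodicity and `uniq` -/
theorem EJ.of_erg {W : Tow κ} (hN : ND W) {p q : ℕ} (hp : 0 < p) (hq : 0 < q) {lam : Measure (TX κ × TX κ)}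
    (h1 : IsProbabilityMeasure lam) (h2 : Ergodic (Prod.map (TT W)^[p] (TT W)^[q]) lam) : EJ W p q lam := by
  refine ⟨h1, h2, ?_, ?_⟩
  · have hpr : IsProbabilityMeasure (lam.map Prod.fst) := Measure.isProbabilityMeasure_map measurable_fst.aemeasurable
    refine ⟨measurable_fst, uniq W hN hp (lam.map Prod.fst) ⟨TTn_meas W p, ?_⟩⟩
    rw [Measure.map_map (TTn_meas W p) measurable_fst]
    have e : (TT W)^[p] ∘ Prod.fst = Prod.fst ∘ Prod.map (TT W)^[p] (TT W)^[q] := rfl
    rw [e, ← Measure.map_map measurable_fst h2.measurable, h2.map_eq]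
  · have hpr : IsProbabilityMeasure (lam.map Prod.snd) := Measure.isProbabilityMeasure_map measurable_snd.aemeasurable
    refine ⟨measurable_snd, uniq W hN hq (lam.map Prod.snd) ⟨TTn_meas W q, ?_⟩⟩
    rw [Measure.map_map (TTn_meas W q) measurable_snd]
    have e : (TT W)^[q] ∘ Prod.snd = Prod.snd ∘ Prod.map (TT W)^[p] (TT W)^[q] := rfl
    rw [e, ← Measure.map_map measurable_snd h2.measurable, h2.map_eq]

/-- the image of a bounded function under `J`, as a function on the second factor -/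
theorem EJ.rep {W : Tow κ} {p q : ℕ} {lam : Measure (TX κ × TX κ)} (h : EJ W p q lam) {f : TX κ → ℂ} (hf : BM (mX κ) f) :
    ∃ g : TX κ → ℂ, BM (mX κ) g ∧ (J lam f = fun z => g z.2) ∧ ∀ k : TX κ → ℂ, Measurable k → BM (mX κ) k →
      ∫ z, f z.1 * conj (k z.2) ∂lam = ∫ x, g x * conj (k x) ∂mX κ := by
  have hp := h.prob
  obtain ⟨g, gm, hg⟩ := J_rep (lam := lam) f
  have hb : BM lam (J lam f) := J_bm h.fst hf
  obtain ⟨-, C, hC⟩ := hb
  have hgb : BM (mX κ) g := by
    refine ⟨gm.aestronglyMeasurable, C, ?_⟩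
    rw [← h.snd.map_eq]
    rw [ae_map_iff measurable_snd.aemeasurable (measurableSet_le gm.norm measurable_const)]
    filter_upwards [hC] with z hz
    rw [hg] at hz
    exact hz
  refine ⟨g, hgb, hg, fun k hk hkb => ?_⟩
  rw [J_int h.fst hf hk (hkb.comp h.snd), hg]
  have e : ∫ x, g x * conj (k x) ∂mX κ = ∫ x, g x * conj (k x) ∂(lam.map Prod.snd) := by rw [h.snd.map_eq]
  rw [e, integral_map measurable_snd.aemeasurable]
  exact (gm.mul (Complex.continuous_conj.measurable.comp hk)).aestronglyMeasurable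

/-- the same with the roles of the factors exchanged -/
theorem EJ.rep' {W : Tow κ} {p q : ℕ} {lam : Measure (TX κ × TX κ)} (h : EJ W p q lam) {k : TX κ → ℂ} (hk : BM (mX κ) k)
    (_hkm : Measurable k) :
    ∃ g : TX κ → ℂ, BM (mX κ) g ∧ ∀ f : TX κ → ℂ, Measurable f → BM (mX κ) f →
      ∫ z, f z.1 * conj (k z.2) ∂lam = ∫ x, f x * conj (g x) ∂mX κ := by
  obtain ⟨g, hg, -, hr⟩ := h.swap.rep hk
  refine ⟨g, hg, fun f hf hfb => ?_⟩
  have h1 := hr f hf hfb
  rw [integral_map measurable_swap.aemeasurable] at h1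
  · have h2 : ∫ z, f z.1 * conj (k z.2) ∂lam = conj (∫ z, k z.2 * conj (f z.1) ∂lam) := by
      rw [← integral_conj]
      refine integral_congr_ae (Eventually.of_forall fun z => ?_)
      dsimp only
      rw [map_mul, Complex.conj_conj]; ring
    have h3 : ∫ x, f x * conj (g x) ∂mX κ = conj (∫ x, g x * conj (f x) ∂mX κ) := by
      rw [← integral_conj]
      refine integral_congr_ae (Eventually.of_forall fun z => ?_)
      dsimp only
      rw [map_mul, Complex.conj_conj]; ring
    rw [h2, h3, ← h1]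
    rfl
  · have hsw : MeasurePreserving (Prod.swap : TX κ × TX κ → TX κ × TX κ) lam (lam.map Prod.swap) := ⟨measurable_swap, rfl⟩
    exact ((hk.comp h.swap.fst).mul (((BM.conj hfb)).comp h.swap.snd)).1

theorem ch_low {a : ℕ} {m : κ →₀ ℤ} (hm : ∀ i, m i ≠ 0 → W.lev i < a) : Low W a (ch m) := by
  intro x y hxy
  show FT.ec (FT.pr m x) = FT.ec (FT.pr m y)
  rw [FT.pr_congr m x y fun i hi => hxy i (hm i hi)]

theorem ch_bm (m : κ →₀ ℤ) : BM (mX κ) (ch m) := BM.of_bdd (HT.ch_cont m).measurable fun x => (HT.ch_norm m x).le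

/-- the splitting of a character -/
theorem ch_split (a : ℕ) (n : κ →₀ ℤ) : ∃ n1 n2 : κ →₀ ℤ, n1 + n2 = n ∧ (∀ i, n1 i ≠ 0 → W.lev i < a) ∧
    (∀ i, n2 i ≠ 0 → a ≤ W.lev i) ∧ ∀ i, n2 i = 0 ∨ n2 i = n i := by
  refine ⟨n.filter fun i => W.lev i < a, n.filter fun i => ¬ W.lev i < a, Finsupp.filter_add_filter_not n _, fun i hi => ?_,
    fun i hi => ?_, fun i => ?_⟩
  · by_contra h1
    exact hi (Finsupp.filter_apply_neg (fun i => W.lev i < a) n h1)
  · by_contra h1
    exact hi (Finsupp.filter_apply_neg (fun i => ¬ W.lev i < a) n (not_not.2 (not_le.1 h1)))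
  · by_cases h1 : W.lev i < a
    · exact Or.inl (Finsupp.filter_apply_neg (fun i => ¬ W.lev i < a) n (not_not.2 h1))
    · exact Or.inr (Finsupp.filter_apply_pos (fun i => ¬ W.lev i < a) n h1)

/-- modes of the level `a` are orthogonal to the functions of level `< a` of the second factor -/
def FP (lam : Measure (TX κ × TX κ)) (a : ℕ) : Prop := ∀ (m : κ →₀ ℤ), m ≠ 0 → OnM W a m → ∀ (F : TX κ → ℂ), Measurable F →
  (∃ C : ℝ, ∀ x, ‖F x‖ ≤ C) → Low W a F → ∀ g : TX κ → ℂ, Measurable g → (∃ D : ℝ, ∀ x, ‖g x‖ ≤ D) → Low W a g →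
    ∫ z, (F z.1 * ch m z.1) * conj (g z.2) ∂lam = 0

/-- functions of level `< a + 1` without conditional expectation over level `< a` -/
private theorem fp_av {p q : ℕ} {lam : Measure (TX κ × TX κ)} (h : EJ W p q lam) {a : ℕ} (hP : FP W lam a) {G : TX κ → ℂ}
    (hG : Measurable G) {C : ℝ} (hC : ∀ x, ‖G x‖ ≤ C) (hl : Low W (a + 1) G) {k : TX κ → ℂ} (hk : Measurable k) {D : ℝ}
    (hD : ∀ x, ‖k x‖ ≤ D) (hkl : Low W a k) :
    ∫ z, G z.1 * conj (k z.2) ∂lam = ∫ z, AV W a G z.1 * conj (k z.2) ∂lam := by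
  have hp := h.prob
  have hGB : BM (mX κ) G := BM.of_bdd hG hC
  have hAB : BM (mX κ) (AV W a G) := BM.of_bdd (AV_meas W a hG) (AV_le W a hC)
  have hkB : BM (mX κ) k := BM.of_bdd hk hD
  obtain ⟨g, hg, hr⟩ := h.rep' hkB hk
  rw [hr G hG hGB, hr _ (AV_meas W a hG) hAB, ← sub_eq_zero, ← integral_sub (hGB.mul hg.conj).integrable (hAB.mul hg.conj).integrable]
  have e : (fun x => G x * conj (g x) - AV W a G x * conj (g x)) = fun x => (G x - AV W a G x) * conj (g x) := by
    funext x; ring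
  rw [e]
  refine pars_zero (hGB.sub hAB) hg fun n => ?_
  have hsub : hat (fun x => G x - AV W a G x) n = hat G n - hat (AV W a G) n := by
    unfold hat
    rw [← integral_sub (hGB.mul (ch_bm n).conj).integrable (hAB.mul (ch_bm n).conj).integrable]
    refine integral_congr_ae (Eventually.of_forall fun x => ?_)
    dsimp only
    ring
  by_cases hn : ∃ i, n i ≠ 0 ∧ a + 1 ≤ W.lev i
  · left
    rw [hsub, hat_low W hl n hn, hat_AV W hG hC, if_neg, sub_zero]
    intro h0
    obtain ⟨i, hi, hi2⟩ := hn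
    have := h0 i hi
    omega
  · push Not at hn
    by_cases hn2 : ∀ i, n i ≠ 0 → W.lev i < a
    · left
      rw [hsub, hat_AV W hG hC, if_pos hn2, sub_self]
    · right
      obtain ⟨n1, n2, hsum, h1, h2, h3⟩ := ch_split W a n
      have hn20 : n2 ≠ 0 := by
        rintro rfl
        rw [add_zero] at hsum
        rw [← hsum] at hn2
        exact hn2 h1
      have hn2on : OnM W a n2 := by
        intro i hi
        have h4 := h2 i hi
        have h5 : n i ≠ 0 := by
          rcases h3 i with h6 | h6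
          · exact absurd h6 hi
          · rw [← h6]; exact hi
        have := hn i h5
        omega
      have h4 := hP n2 hn20 hn2on (ch n1) (HT.ch_cont n1).measurable ⟨1, fun x => (HT.ch_norm n1 x).le⟩ (ch_low W h1) k hk ⟨D, hD⟩ hkl
      have h5 : ∫ z, ch n z.1 * conj (k z.2) ∂lam = 0 := by
        rw [← h4]
        refine integral_congr_ae (Eventually.of_forall fun z => ?_)
        dsimp only
        rw [← hsum, HT.ch_add]
      rw [hr (ch n) (HT.ch_cont n).measurable (ch_bm n)] at h5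
      have h6 : hat g n = conj (∫ x, ch n x * conj (g x) ∂mX κ) := by
        unfold hat
        rw [← integral_conj]
        refine integral_congr_ae (Eventually.of_forall fun x => ?_)
        dsimp only
        rw [map_mul, Complex.conj_conj, mul_comm]
      rw [h6, h5, map_zero]

/-- orthogonality to a pure mode of the level below -/
private theorem fp_pure (hN : ND W) {p q : ℕ} (hp : 0 < p) {lam : Measure (TX κ × TX κ)} (h : EJ W p q lam) {j : ℕ}
    (hP : FP W lam j) {m : κ →₀ ℤ} (hm0 : m ≠ 0) (hm : OnM W (j + 1) m) {F : TX κ → ℂ} (hF : Measurable F) {C : ℝ}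
    (hC : ∀ x, ‖F x‖ ≤ C) (hl : Low W (j + 1) F) {n : κ →₀ ℤ} (hn : OnM W j n) {g : TX κ → ℂ} (hg : Measurable g) {D : ℝ}
    (hD : ∀ x, ‖g x‖ ≤ D) (hgl : Low W j g) : ∫ z, (F z.1 * ch m z.1) * conj (g z.2 * ch n z.2) ∂lam = 0 := by
  have hpr := h.prob
  have hFB : BM (mX κ) fun x => F x * ch m x := (BM.of_bdd hF hC).mul (ch_bm m)
  have hgB : BM (mX κ) fun x => g x * ch n x := (BM.of_bdd hg hD).mul (ch_bm n)
  have hB : BM lam fun z : TX κ × TX κ => (fun x => F x * ch m x) z.1 * conj ((fun x => g x * ch n x) z.2) :=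
    (hFB.comp h.fst).mul (hgB.comp h.snd).conj
  have hlim := corr_prod (S := (TT W)^[p]) (S' := (TT W)^[q]) h.erg (f := fun x => F x * ch m x) (g := fun x => g x * ch n x)
    (f2 := fun x => F x * ch m x) (g2 := fun x => g x * ch n x) hB hB
  have hiden : ∀ (F : TX κ → ℂ) (m : κ →₀ ℤ) (p r : ℕ) (x : TX κ), F (((TT W)^[p])^[r] x) * ch m (((TT W)^[p])^[r] x) *
      conj (F x * ch m x) = GR W m F (p * r) x := by
    intro F m p r x
    unfold GR
    rw [← Function.iterate_mul, ch_iter, map_mul]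
    have := unim_mul (ch m x) (HT.ch_norm m x)
    calc F ((TT W)^[p * r] x) * (ch m (psn W (p * r) x) * ch m x) * (conj (F x) * conj (ch m x))
        = F ((TT W)^[p * r] x) * ch m (psn W (p * r) x) * conj (F x) * (ch m x * conj (ch m x)) := by ring
      _ = _ := by rw [this, mul_one]
  simp only [hiden] at hlim
  -- every term is bounded by the relative energy
  have hen := energy_zero W hN hp hm0 hm hF hC hl
  have hD0 : 0 ≤ D := (norm_nonneg _).trans (hD 0)
  have hterm : ∀ r, ‖∫ z : TX κ × TX κ, GR W m F (p * r) z.1 * conj (GR W n g (q * r) z.2) ∂lam‖ ≤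
      D ^ 2 * Real.sqrt (∫ x, ‖AV W j (GR W m F (p * r)) x‖ ^ 2 ∂mX κ) := by
    intro r
    have hGm := GR_meas W m hF (p * r)
    have hGb := GR_le W m hC (p * r)
    have hkm := GR_meas W n hg (q * r)
    have hkb := GR_le W n hD (q * r)
    rw [fp_av W h hP hGm hGb (GR_low W hm hl _) hkm hkb (GR_low W hn hgl _)]
    have hAB : BM (mX κ) (AV W j (GR W m F (p * r))) := BM.of_bdd (AV_meas W j hGm) (AV_le W j hGb)
    have hkB : BM (mX κ) (GR W n g (q * r)) := BM.of_bdd hkm hkb
    refine (bm_cs (hAB.comp h.fst) (hkB.comp h.snd)).trans ?_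
    have e1 : ∫ z : TX κ × TX κ, ‖AV W j (GR W m F (p * r)) z.1‖ ^ 2 ∂lam = ∫ x, ‖AV W j (GR W m F (p * r)) x‖ ^ 2 ∂mX κ := by
      rw [← h.fst.map_eq, integral_map measurable_fst.aemeasurable]
      exact ((AV_meas W j hGm).norm.pow_const 2).aestronglyMeasurable
    have e2 : Real.sqrt (∫ z : TX κ × TX κ, ‖GR W n g (q * r) z.2‖ ^ 2 ∂lam) ≤ D ^ 2 := by
      refine Real.sqrt_le_iff.2 ⟨by positivity, ?_⟩
      have : ∫ z : TX κ × TX κ, ‖GR W n g (q * r) z.2‖ ^ 2 ∂lam ≤ ∫ _ : TX κ × TX κ, (D ^ 2) ^ 2 ∂lam := by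
        refine integral_mono_ae (hkB.comp h.snd).int_sq (integrable_const _) (Eventually.of_forall fun z => ?_)
        exact pow_le_pow_left₀ (norm_nonneg _) (hkb z.2) 2
      simpa using this
    rw [e1, mul_comm]
    exact mul_le_mul_of_nonneg_right e2 (Real.sqrt_nonneg _)
  -- the averages tend to zero
  have hz : Tendsto (fun R : ℕ => (1 / (R : ℂ)) * ∑ r ∈ range R,
      ∫ z : TX κ × TX κ, GR W m F (p * r) z.1 * conj (GR W n g (q * r) z.2) ∂lam) atTop (𝓝 0) := by
    rw [tendsto_zero_iff_norm_tendsto_zero]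
    have h1 : Tendsto (fun R : ℕ => D ^ 2 * Real.sqrt ((1 / (R : ℝ)) * ∑ r ∈ range R,
        ∫ x, ‖AV W j (GR W m F (p * r)) x‖ ^ 2 ∂mX κ)) atTop (𝓝 0) := by
      have h2 := (Real.continuous_sqrt.tendsto 0).comp hen
      rw [Real.sqrt_zero] at h2
      have h3 := h2.const_mul (D ^ 2)
      rw [mul_zero] at h3
      exact h3
    refine squeeze_zero' (Eventually.of_forall fun R => norm_nonneg _) ?_ h1
    filter_upwards [eventually_gt_atTop 0] with R hR
    have hR' : (0 : ℝ) < R := by exact_mod_cast hR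
    rw [norm_mul, norm_div, norm_one, Complex.norm_natCast]
    set A : ℕ → ℝ := fun r => ∫ x, ‖AV W j (GR W m F (p * r)) x‖ ^ 2 ∂mX κ with hA
    have hA0 : ∀ r, 0 ≤ A r := fun r => integral_nonneg fun x => by positivity
    calc (1 / (R : ℝ)) * ‖∑ r ∈ range R, ∫ z : TX κ × TX κ, GR W m F (p * r) z.1 * conj (GR W n g (q * r) z.2) ∂lam‖
        ≤ (1 / (R : ℝ)) * ∑ r ∈ range R, D ^ 2 * Real.sqrt (A r) := by
          refine mul_le_mul_of_nonneg_left ((norm_sum_le _ _).trans (sum_le_sum fun r _ => hterm r)) (by positivity)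
      _ = D ^ 2 * ((1 / (R : ℝ)) * ∑ r ∈ range R, Real.sqrt (A r)) := by rw [← mul_sum]; ring
      _ ≤ D ^ 2 * Real.sqrt ((1 / (R : ℝ)) * ∑ r ∈ range R, A r) := by
          refine mul_le_mul_of_nonneg_left ?_ (by positivity)
          refine Real.le_sqrt_of_sq_le ?_
          have h4 : (∑ r ∈ range R, Real.sqrt (A r)) ^ 2 ≤ R * ∑ r ∈ range R, A r := by
            have := sq_sum_le_card_mul_sum_sq (s := range R) (f := fun r => Real.sqrt (A r))
            rw [card_range] at this
            refine this.trans (le_of_eq ?_)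
            congr 1
            exact sum_congr rfl fun r _ => Real.sq_sqrt (hA0 r)
          rw [mul_pow]
          calc (1 / (R : ℝ)) ^ 2 * (∑ r ∈ range R, Real.sqrt (A r)) ^ 2 ≤ (1 / (R : ℝ)) ^ 2 * (R * ∑ r ∈ range R, A r) :=
                mul_le_mul_of_nonneg_left h4 (by positivity)
            _ = (1 / (R : ℝ)) * ∑ r ∈ range R, A r := by field_simp
  have h5 := tendsto_nhds_unique hlim hz
  rcases mul_eq_zero.1 h5 with h6 | h6
  · exact h6
  · exact (map_eq_zero _).1 h6

theorem filt_all (hN : ND W) {p q : ℕ} (hp : 0 < p) {lam : Measure (TX κ × TX κ)} (h : EJ W p q lam) (a : ℕ) : FP W lam a := by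
  have hpr := h.prob
  induction a with
  | zero =>
    rintro m hm0 hm F hF ⟨C, hC⟩ hl g hg ⟨D, hD⟩ hgl
    have e1 : ∀ x, F x = F 0 := fun x => hl x 0 fun i hi => absurd hi (Nat.not_lt_zero _)
    have e2 : ∀ x, g x = g 0 := fun x => hgl x 0 fun i hi => absurd hi (Nat.not_lt_zero _)
    have e3 : ∫ z, (F z.1 * ch m z.1) * conj (g z.2) ∂lam = F 0 * conj (g 0) * ∫ z, ch m z.1 ∂lam := by
      rw [← integral_const_mul]
      refine integral_congr_ae (Eventually.of_forall fun z => ?_)
      dsimp only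
      rw [e1 z.1, e2 z.2]; ring
    have e4 : ∫ z, ch m z.1 ∂lam = ∫ x, ch m x ∂mX κ := by
      rw [← h.fst.map_eq, integral_map measurable_fst.aemeasurable]
      exact (HT.ch_cont m).measurable.aestronglyMeasurable
    rw [e3, e4, HT.ch_int, if_neg hm0, mul_zero]
  | succ j ih =>
    rintro m hm0 hm F hF ⟨C, hC⟩ hl g hg ⟨D, hD⟩ hgl
    have hFB : BM (mX κ) fun x => F x * ch m x := (BM.of_bdd hF hC).mul (ch_bm m)
    have hgB : BM (mX κ) g := BM.of_bdd hg hD
    obtain ⟨u, hu, -, hr⟩ := h.rep hFB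
    have e := hr g hg hgB
    rw [e]
    refine pars_zero hu hgB fun n => ?_
    by_cases hn : ∃ i, n i ≠ 0 ∧ j + 1 ≤ W.lev i
    · right
      exact hat_low W hgl n hn
    · left
      push Not at hn
      obtain ⟨n1, n2, hsum, h1, h2, h3⟩ := ch_split W j n
      have hn2on : OnM W j n2 := by
        intro i hi
        have h4 := h2 i hi
        have h5 : n i ≠ 0 := by
          rcases h3 i with h6 | h6
          · exact absurd h6 hi
          · rw [← h6]; exact hi
        have := hn i h5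
        omega
      have h4 := fp_pure W hN hp h ih hm0 hm hF hC hl hn2on (HT.ch_cont n1).measurable (fun x => (HT.ch_norm n1 x).le)
        (ch_low W h1)
      have h5 := hr (ch n) (HT.ch_cont n).measurable (ch_bm n)
      unfold hat
      rw [← h5, ← h4]
      refine integral_congr_ae (Eventually.of_forall fun z => ?_)
      dsimp only
      rw [← hsum, HT.ch_add]

/-- `n` of level `< a`, `f = F ch m` in the mode `m ≠ 0` of level `a` -/
theorem filt (hN : ND W) {p q : ℕ} (hp : 0 < p) {lam : Measure (TX κ × TX κ)} (h : EJ W p q lam) {a : ℕ}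
    {m : κ →₀ ℤ} (hm0 : m ≠ 0) (hm : OnM W a m) {F : TX κ → ℂ} (hF : Measurable F) {C : ℝ} (hC : ∀ x, ‖F x‖ ≤ C) (hl : Low W a F)
    {g : TX κ → ℂ} (hg : Measurable g) {D : ℝ} (hD : ∀ x, ‖g x‖ ≤ D) (hgl : Low W a g) :
    ∫ z, (F z.1 * ch m z.1) * conj (g z.2) ∂lam = 0 :=
  filt_all W hN hp h a m hm0 hm F hF ⟨C, hC⟩ hl g hg ⟨D, hD⟩ hgl

/-- a function of level `< a` of the first factor is orthogonal to the characters of the second factor with a coordinate of level `≥ a` -/
theorem filt_swap (hN : ND W) {p q : ℕ} (hq : 0 < q) {lam : Measure (TX κ × TX κ)} (h : EJ W p q lam) {a : ℕ}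
    {f : TX κ → ℂ} (hf : Measurable f) {C : ℝ} (hC : ∀ x, ‖f x‖ ≤ C) (hl : Low W a f) {n : κ →₀ ℤ} (hn : ∃ i, n i ≠ 0 ∧ a ≤ W.lev i) :
    ∫ z, f z.1 * conj (ch n z.2) ∂lam = 0 := by
  have hpr := h.prob
  -- the top level of `n`
  obtain ⟨i0, hi0, hmax⟩ : ∃ i0, n i0 ≠ 0 ∧ ∀ i, n i ≠ 0 → W.lev i ≤ W.lev i0 := by
    obtain ⟨i, hi, -⟩ := hn
    obtain ⟨i0, h1, h2⟩ := n.support.exists_max_image W.lev ⟨i, Finsupp.mem_support_iff.2 hi⟩
    exact ⟨i0, Finsupp.mem_support_iff.1 h1, fun i hi => h2 i (Finsupp.mem_support_iff.2 hi)⟩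
  have hab : a ≤ W.lev i0 := by
    obtain ⟨i, hi, hi2⟩ := hn
    exact hi2.trans (hmax i hi)
  set b := W.lev i0 with hb
  obtain ⟨n1, n2, hsum, h1, h2, h3⟩ := ch_split W b n
  have hn2on : OnM W b n2 := by
    intro i hi
    have h4 := h2 i hi
    have h5 : n i ≠ 0 := by
      rcases h3 i with h6 | h6
      · exact absurd h6 hi
      · rw [← h6]; exact hi
    exact le_antisymm (hmax i h5) h4
  have hn20 : n2 ≠ 0 := by
    rintro rfl
    rw [add_zero] at hsum
    have := h1 i0 (by rw [hsum]; exact hi0)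
    exact absurd this (lt_irrefl _)
  have h4 := filt W hN hq h.swap hn20 hn2on (HT.ch_cont n1).measurable (fun x => (HT.ch_norm n1 x).le) (ch_low W h1) hf hC
    (hl.mono hab)
  rw [integral_map measurable_swap.aemeasurable] at h4
  · have e : ∫ z, f z.1 * conj (ch n z.2) ∂lam = conj (∫ z : TX κ × TX κ, ch n1 z.swap.1 * ch n2 z.swap.1 * conj (f z.swap.2) ∂lam) := by
      rw [← integral_conj]
      refine integral_congr_ae (Eventually.of_forall fun z => ?_)
      show f z.1 * conj (ch n z.2) = conj (ch n1 z.2 * ch n2 z.2 * conj (f z.1))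
      rw [← hsum, HT.ch_add, map_mul, map_mul, map_mul, Complex.conj_conj]
      ring
    rw [e, h4, map_zero]
  · exact ((((ch_bm n1).mul (ch_bm n2)).comp h.swap.fst).mul (((BM.of_bdd hf hC).conj).comp h.swap.snd)).1

/-- different modes of the same level have orthogonal images -/
theorem J_orth (hN : ND W) {p q : ℕ} (hp : 0 < p) (hq : 0 < q) {lam : Measure (TX κ × TX κ)} (h : EJ W p q lam) {a : ℕ}
    {m m' : κ →₀ ℤ} (hmm : m ≠ m') (hm : OnM W a m) (hm' : OnM W a m') {F F' : TX κ → ℂ} (hF : Measurable F) (hF' : Measurable F')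
    {C : ℝ} (hC : ∀ x, ‖F x‖ ≤ C) (hC' : ∀ x, ‖F' x‖ ≤ C) (hl : Low W a F) (hl' : Low W a F') :
    ∫ z, J lam (fun x => F x * ch m x) z * conj (J lam (fun x => F' x * ch m' x) z) ∂lam = 0 := by
  have hpr := h.prob
  have hfB : BM (mX κ) fun x => F x * ch m x := (BM.of_bdd hF hC).mul (ch_bm m)
  have hfB' : BM (mX κ) fun x => F' x * ch m' x := (BM.of_bdd hF' hC').mul (ch_bm m')
  obtain ⟨u, hu, eu, hr⟩ := h.rep hfB
  obtain ⟨u', hu', eu', hr'⟩ := h.rep hfB'
  rw [eu, eu']
  have e1 : ∫ z : TX κ × TX κ, u z.2 * conj (u' z.2) ∂lam = ∫ x, u x * conj (u' x) ∂mX κ := by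
    rw [← h.snd.map_eq, integral_map measurable_snd.aemeasurable]
    rw [h.snd.map_eq]
    exact (hu.mul hu'.conj).1
  rw [e1]
  refine pars_zero hu hu' fun n => ?_
  have hun : hat u n = ∫ z, (F z.1 * ch m z.1) * conj (ch n z.2) ∂lam := (hr (ch n) (HT.ch_cont n).measurable (ch_bm n)).symm
  have hun' : hat u' n = ∫ z, (F' z.1 * ch m' z.1) * conj (ch n z.2) ∂lam := (hr' (ch n) (HT.ch_cont n).measurable (ch_bm n)).symm
  by_cases hn : ∃ i, n i ≠ 0 ∧ a + 1 ≤ W.lev i
  · left
    rw [hun]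
    refine filt_swap W hN hq h (f := fun x => F x * ch m x) (hF.mul (HT.ch_cont m).measurable) (C := C) (fun x => ?_) ?_ hn
    · rw [norm_mul, HT.ch_norm, mul_one]; exact hC x
    · refine (hl.mono (Nat.le_succ a)).mul (ch_low W fun i hi => ?_)
      rw [hm i hi]; exact Nat.lt_succ_self a
  · push Not at hn
    have hB : BM lam fun z : TX κ × TX κ => (fun x => F x * ch m x) z.1 * conj (ch n z.2) :=
      (hfB.comp h.fst).mul ((ch_bm n).comp h.snd).conj
    have hB' : BM lam fun z : TX κ × TX κ => (fun x => F' x * ch m' x) z.1 * conj (ch n z.2) :=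
      (hfB'.comp h.fst).mul ((ch_bm n).comp h.snd).conj
    have hlim := corr_prod (S := (TT W)^[p]) (S' := (TT W)^[q]) h.erg (f := fun x => F x * ch m x) (g := ch n)
      (f2 := fun x => F' x * ch m' x) (g2 := ch n) hB hB'
    have hz : ∀ r : ℕ, ∫ z : TX κ × TX κ, (F (((TT W)^[p])^[r] z.1) * ch m (((TT W)^[p])^[r] z.1) * conj (F' z.1 * ch m' z.1)) *
        conj (ch n (((TT W)^[q])^[r] z.2) * conj (ch n z.2)) ∂lam = 0 := by
      intro r
      have h1 : Low W a fun x => F ((TT W)^[p * r] x) * ch m (psn W (p * r) x) * conj (F' x) :=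
        ((hl.iter _).mul (chpsn_low W hm _)).mul hl'.conj
      have h2 : Measurable fun x => F ((TT W)^[p * r] x) * ch m (psn W (p * r) x) * conj (F' x) :=
        ((hF.comp (TTn_meas W _)).mul (chpsn_meas W m _)).mul
          (Complex.continuous_conj.measurable.comp hF')
      have h3 : ∀ x, ‖F ((TT W)^[p * r] x) * ch m (psn W (p * r) x) * conj (F' x)‖ ≤ C * C := by
        intro x
        rw [norm_mul, norm_mul, HT.ch_norm, mul_one, RCLike.norm_conj]
        exact mul_le_mul (hC _) (hC' _) (norm_nonneg _) ((norm_nonneg _).trans (hC x))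
      have h4 : Low W a fun x => ch n (psn W (q * r) x) := by
        intro x y hxy
        show FT.ec (FT.pr n (psn W (q * r) x)) = FT.ec (FT.pr n (psn W (q * r) y))
        rw [FT.pr_congr n _ _ fun i hi => psn_low W (q * r) i x y fun l hl => hxy l (hl.trans_le (Nat.lt_succ_iff.1 (hn i hi)))]
      have h5 : Measurable fun x => ch n (psn W (q * r) x) := chpsn_meas W n _
      have hd0 : m - m' ≠ 0 := sub_ne_zero.2 hmm
      have hdon : OnM W a (m - m') := by
        intro i hi
        by_contra h6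
        have a1 : m i = 0 := by
          by_contra h7
          exact h6 (hm i h7)
        have a2 : m' i = 0 := by
          by_contra h7
          exact h6 (hm' i h7)
        exact hi (by rw [Finsupp.sub_apply, a1, a2, sub_self])
      have h6 := filt W hN hp h hd0 hdon h2 h3 h1 h5 (D := 1) (fun x => (HT.ch_norm _ _).le) h4
      rw [← h6]
      refine integral_congr_ae (Eventually.of_forall fun z => ?_)
      dsimp only
      rw [← Function.iterate_mul, ← Function.iterate_mul, ch_iter, ch_iter]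
      have n1 := unim_mul (ch n z.2) (HT.ch_norm n z.2)
      have e2 : ch (m - m') z.1 = ch m z.1 * conj (ch m' z.1) := by
        rw [sub_eq_add_neg, HT.ch_add, HT.ch_neg]
      rw [e2]
      simp only [map_mul, Complex.conj_conj]
      calc F ((TT W)^[p * r] z.1) * (ch m (psn W (p * r) z.1) * ch m z.1) * (conj (F' z.1) * conj (ch m' z.1)) *
            (conj (ch n (psn W (q * r) z.2)) * conj (ch n z.2) * ch n z.2)
          = F ((TT W)^[p * r] z.1) * ch m (psn W (p * r) z.1) * conj (F' z.1) * (ch m z.1 * conj (ch m' z.1)) *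
            conj (ch n (psn W (q * r) z.2)) * (ch n z.2 * conj (ch n z.2)) := by ring
        _ = _ := by rw [n1, mul_one]
    have hlim0 : Tendsto (fun R : ℕ => (1 / (R : ℂ)) * ∑ r ∈ range R, ∫ z : TX κ × TX κ,
        ((fun x => F x * ch m x) (((TT W)^[p])^[r] z.1) * conj ((fun x => F' x * ch m' x) z.1)) *
          conj (ch n (((TT W)^[q])^[r] z.2) * conj (ch n z.2)) ∂lam) atTop (𝓝 0) := by
      refine tendsto_const_nhds.congr fun R => ?_
      rw [sum_congr rfl fun r _ => hz r, sum_const_zero, mul_zero]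
    have h5 := tendsto_nhds_unique hlim hlim0
    rw [← hun, ← hun'] at h5
    rcases mul_eq_zero.1 h5 with h6 | h6
    · exact Or.inl h6
    · exact Or.inr ((map_eq_zero _).1 h6)

end Pool.Agent.Lib.MP_9fe581_an.AH
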