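import Pool.Agent.Lib.MP_9fe581_an.AH.ErgMax
import Pool.Agent.Lib.MP_9fe581_an.HT.MaxMeas
import Pool.Agent.Lib.MP_9fe581_an.HD.Kbsz
import Pool.Agent.Lib.MP_9fe581_an.HD.Cheb

/-!
# AH, module F3: ergodic joinings suffice

If the integrals of `f ⊗ conj f` against the ERGODIC `T^p × T^q` invariant measures are small for all primes `p ≠ q` large,
then `f` is orthogonal to every bounded multiplicative function, uniformly in the point (Katai - Bourgain - Sarnak - Ziegler).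
-/

set_option autoImplicit false

open Finset MeasureTheory Filter Topology
open scoped ComplexConjugate

namespace Pool.Agent.Lib.MP_9fe581_an.AH

/-- real part / imaginary part bound -/
private theorem jn_abs {w : ℂ} {a : ℝ} (h1 : w.re ≤ a) (h2 : -w.re ≤ a) (h3 : w.im ≤ a) (h4 : -w.im ≤ a) :
    ‖w‖ ≤ 2 * a := by
  have := Complex.norm_le_abs_re_add_abs_im w
  have h5 : |w.re| ≤ a := abs_le.2 ⟨by linarith, h1⟩
  have h6 : |w.im| ≤ a := abs_le.2 ⟨by linarith, h3⟩
  linarith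

variable {Z : Type} [TopologicalSpace Z] [CompactSpace Z] [TopologicalSpace.MetrizableSpace Z] [MeasurableSpace Z]
  [BorelSpace Z]

/-- averages of a real continuous function are at most its integral against an ergodic measure, up to `ε` -/
private theorem jn_real [Nonempty Z] (S : Z → Z) (hS : Continuous S) (Φ : C(Z, ℝ)) (a : ℝ)
    (h : ∀ lam : Measure Z, IsProbabilityMeasure lam → Ergodic S lam → ∫ z, Φ z ∂lam ≤ a) (ε : ℝ) (hε : 0 < ε) :
    ∃ M0 : ℕ, ∀ M ≥ M0, ∀ z : Z, ∑ m ∈ Icc 1 M, Φ (S^[m] z) ≤ (a + ε) * M := by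
  obtain ⟨ρ, h1, h2, h3⟩ := HT.max_meas S hS Φ Φ.continuous
  obtain ⟨lam, l1, l2, l3⟩ := exists_ergodic S hS ρ h1 h2 Φ
  obtain ⟨M0, hM0⟩ := h3 ε hε
  refine ⟨max M0 1, fun M hM z => ?_⟩
  have hM1 : (0 : ℝ) < M := by exact_mod_cast (le_max_right M0 1).trans hM
  have h4 := hM0 M ((le_max_left _ _).trans hM) z
  have h5 : (1 / (M : ℝ)) * ∑ m ∈ Icc 1 M, Φ (S^[m] z) ≤ a + ε := h4.trans (by linarith [l3.trans (h lam l1 l2)])
  rw [one_div, inv_mul_le_iff₀ hM1] at h5
  linarith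

/-- averages of a complex continuous function -/
theorem avg_of_erg [Nonempty Z] (S : Z → Z) (hS : Continuous S) (F : C(Z, ℂ)) (a : ℝ)
    (h : ∀ lam : Measure Z, IsProbabilityMeasure lam → Ergodic S lam → ‖∫ z, F z ∂lam‖ ≤ a) (ε : ℝ) (hε : 0 < ε) :
    ∃ M0 : ℕ, ∀ M ≥ M0, ∀ z : Z, ‖∑ m ∈ Icc 1 M, F (S^[m] z)‖ ≤ (2 * a + ε) * M := by
  have hint : ∀ lam : Measure Z, IsProbabilityMeasure lam → Integrable (fun z => F z) lam := by
    intro lam hl
    exact (BoundedContinuousFunction.mkOfCompact F).integrable lam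
  have hre : ∀ lam : Measure Z, IsProbabilityMeasure lam → ∫ z, (F z).re ∂lam = (∫ z, F z ∂lam).re := by
    intro lam hl
    exact integral_re (hint lam hl)
  have him : ∀ lam : Measure Z, IsProbabilityMeasure lam → ∫ z, (F z).im ∂lam = (∫ z, F z ∂lam).im := by
    intro lam hl
    exact integral_im (hint lam hl)
  have g1 := jn_real S hS ⟨fun z => (F z).re, Complex.continuous_re.comp F.continuous⟩ a
    (fun lam h1 h2 => by
      change ∫ z, (F z).re ∂lam ≤ a
      rw [hre lam h1]; exact (Complex.re_le_norm _).trans (h lam h1 h2)) (ε / 2) (by positivity)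
  have g2 := jn_real S hS ⟨fun z => -(F z).re, (Complex.continuous_re.comp F.continuous).neg⟩ a
    (fun lam h1 h2 => by
      change ∫ z, -(F z).re ∂lam ≤ a
      rw [integral_neg, hre lam h1]
      exact ((neg_le_abs _).trans (Complex.abs_re_le_norm _)).trans (h lam h1 h2)) (ε / 2) (by positivity)
  have g3 := jn_real S hS ⟨fun z => (F z).im, Complex.continuous_im.comp F.continuous⟩ a
    (fun lam h1 h2 => by
      change ∫ z, (F z).im ∂lam ≤ a
      rw [him lam h1]; exact (Complex.im_le_norm _).trans (h lam h1 h2)) (ε / 2) (by positivity)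
  have g4 := jn_real S hS ⟨fun z => -(F z).im, (Complex.continuous_im.comp F.continuous).neg⟩ a
    (fun lam h1 h2 => by
      change ∫ z, -(F z).im ∂lam ≤ a
      rw [integral_neg, him lam h1]
      exact ((neg_le_abs _).trans (Complex.abs_im_le_norm _)).trans (h lam h1 h2)) (ε / 2) (by positivity)
  obtain ⟨M1, k1⟩ := g1
  obtain ⟨M2, k2⟩ := g2
  obtain ⟨M3, k3⟩ := g3
  obtain ⟨M4, k4⟩ := g4
  refine ⟨max (max M1 M2) (max M3 M4), fun M hM z => ?_⟩
  have j1 := k1 M (le_trans (le_trans (le_max_left _ _) (le_max_left _ _)) hM) z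
  have j2 := k2 M (le_trans (le_trans (le_max_right _ _) (le_max_left _ _)) hM) z
  have j3 := k3 M (le_trans (le_trans (le_max_left _ _) (le_max_right _ _)) hM) z
  have j4 := k4 M (le_trans (le_trans (le_max_right _ _) (le_max_right _ _)) hM) z
  simp only [ContinuousMap.coe_mk, Finset.sum_neg_distrib] at j1 j2 j3 j4
  have e : (2 * a + ε) * M = 2 * ((a + ε / 2) * M) := by ring
  rw [e]
  apply jn_abs
  · rw [Complex.re_sum]; exact j1
  · rw [Complex.re_sum]; exact j2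
  · rw [Complex.im_sum]; exact j3
  · rw [Complex.im_sum]; exact j4

variable {X : Type} [TopologicalSpace X] [CompactSpace X] [TopologicalSpace.MetrizableSpace X] [MeasurableSpace X]
  [BorelSpace X]

theorem unifOrth_of_joinings [Nonempty X] (T : X → X) (hT : Continuous T) (f : C(X, ℂ)) (hf : ∀ x, ‖f x‖ ≤ 1)
    (h : ∀ ε : ℝ, 0 < ε → ∃ P0 : ℕ, ∀ p q : ℕ, p.Prime → q.Prime → P0 ≤ p → P0 ≤ q → p ≠ q →
      ∀ lam : Measure (X × X), IsProbabilityMeasure lam → Ergodic (Prod.map T^[p] T^[q]) lam →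
        ‖∫ z, f z.1 * conj (f z.2) ∂lam‖ ≤ ε) : HD.UnifOrth T f := by
  intro u hu
  refine HD.kbsz_avg hu (fun z n => f (T^[n] z)) (fun z n => hf _) ?_
  intro η hη
  obtain ⟨P0, hP0⟩ := h (η / 8) (by positivity)
  obtain ⟨K, hK⟩ := exists_nat_ge (4 / η)
  -- large blocks: all primes `≥ P0`, and at least `K` primes or the trivial bound
  have hcard : ∃ J1 : ℕ, ∀ j ≥ J1, (K : ℝ) ≤ ((HD.Qb j).card : ℝ) := by
    obtain ⟨c, hc, j0, hj0⟩ := HD.Qb_card
    have h1 : Tendsto (fun j : ℕ => (2 : ℝ) ^ j / (j : ℝ) ^ 1) atTop atTop := by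
      have := tendsto_pow_const_div_const_pow_of_one_lt 1 (by norm_num : (1 : ℝ) < 2)
      have h2 : Tendsto (fun n : ℕ => ((n : ℝ) ^ 1 / 2 ^ n)⁻¹) atTop atTop := by
        refine Tendsto.inv_tendsto_nhdsGT_zero ?_
        rw [tendsto_nhdsWithin_iff]
        refine ⟨this, ?_⟩
        filter_upwards [eventually_gt_atTop 0] with n hn
        have : (0 : ℝ) < n := by exact_mod_cast hn
        exact Set.mem_Ioi.2 (by positivity)
      simpa using h2
    have h3 := (h1.const_mul_atTop hc).eventually (eventually_ge_atTop (K : ℝ))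
    obtain ⟨J2, hJ2⟩ := eventually_atTop.1 h3
    refine ⟨max j0 J2, fun j hj => ?_⟩
    have h4 := hJ2 j ((le_max_right _ _).trans hj)
    have h5 := hj0 j ((le_max_left _ _).trans hj)
    rw [pow_one, ← mul_div_assoc] at h4
    exact h4.trans h5
  obtain ⟨J1, hJ1⟩ := hcard
  refine ⟨max P0 J1, fun j hj => ?_⟩
  have hjP : P0 ≤ j := (le_max_left _ _).trans hj
  have hjJ : J1 ≤ j := (le_max_right _ _).trans hj
  have hmem : ∀ p ∈ HD.Qb j, p.Prime ∧ P0 ≤ p := by
    intro p hp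
    unfold HD.Qb at hp
    rw [mem_filter, mem_Ico] at hp
    exact ⟨hp.2, hjP.trans ((Nat.lt_two_pow_self).le.trans hp.1.1)⟩
  have hc : ∀ p q : ℕ, ∃ M0 : ℕ, p ∈ HD.Qb j → q ∈ HD.Qb j → p ≠ q → ∀ M ≥ M0, ∀ x : X,
      ‖∑ m ∈ Icc 1 M, f (T^[p * m] x) * conj (f (T^[q * m] x))‖ ≤ η / 2 * M := by
    intro p q
    by_cases hpq : p ∈ HD.Qb j ∧ q ∈ HD.Qb j ∧ p ≠ q
    swap
    · exact ⟨0, fun a b c => absurd ⟨a, b, c⟩ hpq⟩
    obtain ⟨hp, hq, hne⟩ := hpq
    have hSc : Continuous (Prod.map T^[p] T^[q]) := (hT.iterate p).prodMap (hT.iterate q)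
    obtain ⟨M0, hM0⟩ := avg_of_erg (Z := X × X) (Prod.map T^[p] T^[q]) hSc
      ⟨fun z => f z.1 * conj (f z.2), by fun_prop⟩ (η / 8)
      (fun lam h1 h2 => hP0 p q (hmem p hp).1 (hmem q hq).1 (hmem p hp).2 (hmem q hq).2 hne lam h1 h2)
      (η / 4) (by positivity)
    refine ⟨M0, fun _ _ _ M hM x => ?_⟩
    have h3 := hM0 M hM (x, x)
    have e : (2 * (η / 8) + η / 4) * (M : ℝ) = η / 2 * M := by ring
    rw [e] at h3
    refine le_trans (le_of_eq ?_) h3
    congr 1
    refine Finset.sum_congr rfl fun m _ => ?_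
    have e2 : (Prod.map T^[p] T^[q])^[m] (x, x) = (T^[p * m] x, T^[q * m] x) := by
      rw [Prod.map_iterate, Prod.map_apply, Function.iterate_mul, Function.iterate_mul]
    rw [e2]
    rfl
  choose M0 hM0 using hc
  refine ⟨(HD.Qb j ×ˢ HD.Qb j).sup fun x => M0 x.1 x.2, fun z => ?_⟩
  refine ⟨fun p q => if p = q then 1 else η / 2, ?_, ?_, ?_⟩
  · intro p _ q _
    dsimp only
    split_ifs
    · norm_num
    · positivity
  · intro p hp q hq hne M hM
    dsimp only
    rw [if_neg hne]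
    exact hM0 p q hp hq hne M
      ((Finset.le_sup (f := fun x : ℕ × ℕ => M0 x.1 x.2) (mem_product.2 ⟨hp, hq⟩ : (p, q) ∈ HD.Qb j ×ˢ HD.Qb j)).trans hM) z
  · have hKc := hJ1 j hjJ
    set C : ℝ := ((HD.Qb j).card : ℝ) with hC
    have hC0 : 0 ≤ C := Nat.cast_nonneg _
    have e1 : ∑ p ∈ HD.Qb j, ∑ q ∈ HD.Qb j, (if p = q then (1 : ℝ) else η / 2) ≤
        ∑ p ∈ HD.Qb j, ∑ q ∈ HD.Qb j, ((if p = q then (1 : ℝ) else 0) + η / 2) := by
      refine Finset.sum_le_sum fun p _ => Finset.sum_le_sum fun q _ => ?_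
      split_ifs
      · linarith
      · linarith
    have e2 : ∑ p ∈ HD.Qb j, ∑ q ∈ HD.Qb j, ((if p = q then (1 : ℝ) else 0) + η / 2) = C + η / 2 * C ^ 2 := by
      simp only [Finset.sum_add_distrib, Finset.sum_ite_eq, Finset.sum_const, nsmul_eq_mul]
      rw [Finset.sum_congr rfl (fun p hp => if_pos hp)]
      rw [Finset.sum_const, nsmul_eq_mul, ← hC]
      ring
    refine (e1.trans e2.le).trans ?_
    have h6 : 4 / η ≤ C := hK.trans hKc
    rw [div_le_iff₀ hη] at h6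
    nlinarith [mul_nonneg hC0 hC0]

end Pool.Agent.Lib.MP_9fe581_an.AH
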