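import Pool.Agent.Lib.MP_9fe581_an.AH.EnZ
import Pool.Agent.Lib.MP_9fe581_an.AH.Bilin

/-!
# AH, NDe: if all differences of a mode are coboundaries, its energy over the lower level does not vanish
-/

set_option autoImplicit false
set_option linter.unusedSectionVars false

open MeasureTheory Filter Topology Finset
open scoped ComplexConjugate

namespace Pool.Agent.Lib.MP_9fe581_an.AH

open HT (TX mX ch)

variable {κ : Type} [Fintype κ] [DecidableEq κ] (W : Tow κ)

/-- the square of the average, as an integral over the translations of the level `j` -/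
theorem sq_AV {j : ℕ} {G : TX κ → ℂ} (hG : Measurable G) {C : ℝ} (hC : ∀ x, ‖G x‖ ≤ C) (hl : Low W (j + 1) G) :
    ((∫ x, ‖AV W j G x‖ ^ 2 ∂mX κ : ℝ) : ℂ) = ∫ b, ∫ x, G x * conj (G (x + lp W j b)) ∂mX κ ∂mX κ := by
  have hmul : Measurable fun z : TX κ × TX κ => z.1 + lp W j z.2 :=
    (continuous_fst.add ((lp_cont W j).comp continuous_snd)).measurable
  rw [← int_mul_conj_self, AV_int W (AV_low W j _) (AV_meas W j hG) (AV_le W j hC) hG (BM.of_bdd hG hC).integrable]
  have e1 : ∀ x, G x * conj (AV W j G x) = ∫ b, G x * conj (G (x + lp W j b)) ∂mX κ := by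
    intro x
    rw [AV_lp W hl, ← integral_conj, ← integral_const_mul]
  simp only [e1]
  refine integral_integral_swap (f := fun x b => G x * conj (G (x + lp W j b))) ?_
  refine (BM.of_bdd (μ := (mX κ).prod (mX κ)) (C := C * C) ?_ fun z => ?_).integrable
  · exact (hG.comp measurable_fst).mul (Complex.continuous_conj.measurable.comp (hG.comp hmul))
  · show ‖G z.1 * conj (G (z.1 + lp W j z.2))‖ ≤ C * C
    rw [norm_mul, RCLike.norm_conj]
    exact mul_le_mul (hC _) (hC _) (norm_nonneg _) ((norm_nonneg _).trans (hC z.1))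

private theorem ch_zero_right (m : κ →₀ ℤ) : ch m (0 : TX κ) = 1 := by
  show FT.ec (FT.pr m 0) = 1
  have h5 := FT.pr_add_right m (0 : TX κ) 0
  rw [add_zero] at h5
  rw [left_eq_add.1 h5, FT.ec_zero]

/-- the iterated relation -/
theorem wit_iter {j : ℕ} {m : κ →₀ ℤ} (hm : OnM W (j + 1) m) {b : TX κ} {w : TX κ → ℂ}
    (h : ∀ᵐ x ∂mX κ, w (TT W x) = ch m (fun i => W.ψ i (x + lp W j b) - W.ψ i x) * w x) (n : ℕ) :
    ∀ᵐ x ∂mX κ, w ((TT W)^[n] x) = ch m (psn W n (x + lp W j b) - psn W n x) * w x := by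
  induction n with
  | zero =>
    refine Eventually.of_forall fun x => ?_
    have e : psn W 0 (x + lp W j b) - psn W 0 x = 0 := by simp [psn]
    rw [e, ch_zero_right, one_mul]
    rfl
  | succ n ih =>
    have h' : ∀ᵐ x ∂mX κ, w (TT W ((TT W)^[n] x)) =
        ch m (fun i => W.ψ i ((TT W)^[n] x + lp W j b) - W.ψ i ((TT W)^[n] x)) * w ((TT W)^[n] x) :=
      ((TT_pres W).iterate n).quasiMeasurePreserving.ae h
    filter_upwards [ih, h'] with x h1 h2
    rw [Function.iterate_succ_apply', h2, h1]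
    have e2 : ch m (psn W (n + 1) (x + lp W j b) - psn W (n + 1) x) =
        ch m (fun i => W.ψ i ((TT W)^[n] x + lp W j b) - W.ψ i ((TT W)^[n] x)) * ch m (psn W n (x + lp W j b) - psn W n x) := by
      rw [← HT.ch_add_right]
      show FT.ec (FT.pr m _) = FT.ec (FT.pr m _)
      congr 1
      refine FT.pr_congr m _ _ fun i hi => ?_
      have hl : Low W (j + 1) fun x => psn W 1 x i := by
        have := psn_low W 1 i
        rw [hm i hi] at this
        exact this
      have h3 : psn W 1 ((TT W)^[n] (x + lp W j b)) i = psn W 1 ((TT W)^[n] x + lp W j b) i := hl.rot n b x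
      have h4 : ∀ y, psn W 1 y i = W.ψ i y := by
        intro y
        simp [psn, TT]
      rw [add_comm n 1, psn_add W 1 n, psn_add W 1 n]
      simp only [Pi.add_apply, Pi.sub_apply]
      rw [h3, h4, h4]
      abel
    rw [e2]
    ring

/-- the correlations of the mode `m` along `b` are those of `H x = F x conj (F (x + b)) conj (w x)` -/
theorem wit_corr {j : ℕ} {m : κ →₀ ℤ} (hm : OnM W (j + 1) m) {b : TX κ} {w : TX κ → ℂ} (hw : ∀ x, ‖w x‖ = 1)
    (h : ∀ᵐ x ∂mX κ, w (TT W x) = ch m (fun i => W.ψ i (x + lp W j b) - W.ψ i x) * w x) {F : TX κ → ℂ}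
    (hl : Low W (j + 1) F) (r : ℕ) :
    ∫ x, GR W m F r x * conj (GR W m F r (x + lp W j b)) ∂mX κ =
      ∫ x, (fun x => F x * conj (F (x + lp W j b)) * conj (w x)) ((TT W)^[r] x) *
        conj ((fun x => F x * conj (F (x + lp W j b)) * conj (w x)) x) ∂mX κ := by
  refine integral_congr_ae ?_
  filter_upwards [wit_iter W hm h r] with x hx
  unfold GR
  rw [hl.rot r b x, hx]
  have e3 : ch m (psn W r (x + lp W j b) - psn W r x) =
      ch m (psn W r (x + lp W j b)) * conj (ch m (psn W r x)) := by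
    have h1 := HT.ch_add_right m (psn W r (x + lp W j b) - psn W r x) (psn W r x)
    rw [sub_add_cancel] at h1
    rw [h1, mul_assoc, unim_mul _ (HT.ch_norm _ _), mul_one]
  have e4 := unim_mul _ (hw x)
  rw [e3]
  simp only [map_mul, Complex.conj_conj]
  calc _ = (F ((TT W)^[r] x) * conj (F ((TT W)^[r] x + lp W j b)) * ch m (psn W r x) *
        conj (ch m (psn W r (x + lp W j b))) * conj (F x) * F (x + lp W j b)) * 1 := by ring
    _ = (F ((TT W)^[r] x) * conj (F ((TT W)^[r] x + lp W j b)) * ch m (psn W r x) *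
        conj (ch m (psn W r (x + lp W j b))) * conj (F x) * F (x + lp W j b)) * (w x * conj (w x)) := by rw [e4]
    _ = _ := by ring

/-- if the energy of `F` vanishes then for almost every `b` the function `H` has mean zero -/
theorem wit_mean (hT : Ergodic (TT W) (mX κ)) {j : ℕ} {m : κ →₀ ℤ} (hm : OnM W (j + 1) m) {w : TX κ → TX κ → ℂ}
    (hwm : ∀ b, Measurable (w b)) (hw : ∀ b x, ‖w b x‖ = 1)
    (h : ∀ b, ∀ᵐ x ∂mX κ, w b (TT W x) = ch m (fun i => W.ψ i (x + lp W j b) - W.ψ i x) * w b x) {F : TX κ → ℂ}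
    (hF : Measurable F) (hF1 : ∀ x, ‖F x‖ ≤ 1) (hl : Low W (j + 1) F)
    (he : Tendsto (fun R : ℕ => (1 / (R : ℝ)) * ∑ r ∈ range R, ∫ x, ‖AV W j (GR W m F r) x‖ ^ 2 ∂mX κ) atTop (𝓝 0)) :
    ∀ᵐ b ∂mX κ, ∫ x, F x * conj (F (x + lp W j b)) * conj (w b x) ∂mX κ = 0 := by
  have hmul : Measurable fun z : TX κ × TX κ => z.1 + lp W j z.2 :=
    (continuous_fst.add ((lp_cont W j).comp continuous_snd)).measurable
  set H : TX κ → TX κ → ℂ := fun b x => F x * conj (F (x + lp W j b)) * conj (w b x) with hH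
  have hHb : ∀ b, BM (mX κ) (H b) := fun b => BM.of_bdd (C := 1)
    ((hF.mul (Complex.continuous_conj.measurable.comp (hF.comp (measurable_id.add_const _)))).mul
      (Complex.continuous_conj.measurable.comp (hwm b))) fun x => by
        rw [hH]; dsimp only
        rw [norm_mul, norm_mul, RCLike.norm_conj, RCLike.norm_conj, hw, mul_one]
        exact mul_le_one₀ (hF1 _) (norm_nonneg _) (hF1 _)
  set J : ℕ → TX κ → ℂ := fun r b => ∫ x, GR W m F r x * conj (GR W m F r (x + lp W j b)) ∂mX κ with hJ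
  have hGm : ∀ r, Measurable (GR W m F r) := GR_meas W m hF
  have hGb : ∀ r x, ‖GR W m F r x‖ ≤ 1 := fun r x => by
    have := GR_le W m hF1 r x
    simpa using this
  have hJm : ∀ r, Measurable (J r) := by
    intro r
    have h1 : Measurable fun z : TX κ × TX κ => GR W m F r z.1 * conj (GR W m F r (z.1 + lp W j z.2)) :=
      ((hGm r).comp measurable_fst).mul (Complex.continuous_conj.measurable.comp ((hGm r).comp hmul))
    exact (h1.stronglyMeasurable.integral_prod_left' (μ := mX κ)).measurable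
  have hJ1 : ∀ r b, ‖J r b‖ ≤ 1 := by
    intro r b
    refine (norm_integral_le_of_norm_le_const (C := 1) (Eventually.of_forall fun x => ?_)).trans (by simp)
    rw [norm_mul, RCLike.norm_conj]
    exact mul_le_one₀ (hGb _ _) (norm_nonneg _) (hGb _ _)
  set φ : TX κ → ℂ := fun b => (∫ x, H b x ∂mX κ) * conj (∫ x, H b x ∂mX κ) with hφ
  set A : ℕ → TX κ → ℂ := fun R b => (1 / (R : ℂ)) * ∑ r ∈ range R, J r b with hA
  have hlim : ∀ b, Tendsto (fun R => A R b) atTop (𝓝 (φ b)) := by
    intro b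
    have h1 := erg_bilin hT (hHb b) (hHb b)
    refine h1.congr fun R => ?_
    rw [hA]; dsimp only
    congr 1
    refine sum_congr rfl fun r _ => ?_
    exact (wit_corr W hm (hw b) (h b) hl r).symm
  have hAm : ∀ R, Measurable (A R) := fun R => measurable_const.mul (Finset.measurable_fun_sum _ fun r _ => hJm r)
  have hA1 : ∀ R b, ‖A R b‖ ≤ 1 := by
    intro R b
    rw [hA]; dsimp only
    rcases Nat.eq_zero_or_pos R with h0 | h0
    · subst h0
      simp
    rw [norm_mul, norm_div, norm_one, Complex.norm_natCast]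
    have h2 : ‖∑ r ∈ range R, J r b‖ ≤ R := by
      refine (norm_sum_le _ _).trans ((sum_le_sum fun r _ => hJ1 r b).trans ?_)
      simp
    have hR : (0 : ℝ) < R := by exact_mod_cast h0
    rw [one_div, inv_mul_le_iff₀ hR, mul_one]
    exact h2
  have hdom : Tendsto (fun R => ∫ b, A R b ∂mX κ) atTop (𝓝 (∫ b, φ b ∂mX κ)) :=
    tendsto_integral_of_dominated_convergence (fun _ => (1 : ℝ)) (fun R => (hAm R).aestronglyMeasurable)
      (integrable_const _) (fun R => Eventually.of_forall (hA1 R)) (Eventually.of_forall hlim)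
  have hsum : ∀ R, ∫ b, A R b ∂mX κ =
      (((1 / (R : ℝ)) * ∑ r ∈ range R, ∫ x, ‖AV W j (GR W m F r) x‖ ^ 2 ∂mX κ : ℝ) : ℂ) := by
    intro R
    rw [hA]; dsimp only
    rw [integral_const_mul, integral_finsetSum]
    · push_cast
      congr 1
      refine sum_congr rfl fun r _ => ?_
      exact (sq_AV W (hGm r) (hGb r) (GR_low W hm hl r)).symm
    · intro r _
      exact (BM.of_bdd (μ := mX κ) (hJm r) (hJ1 r)).integrable
  have hzero : ∫ b, φ b ∂mX κ = 0 := by
    refine tendsto_nhds_unique hdom ?_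
    simp only [hsum]
    have := (Complex.continuous_ofReal.tendsto 0).comp he
    rw [Complex.ofReal_zero] at this
    exact this
  have hφm : AEStronglyMeasurable φ (mX κ) :=
    aestronglyMeasurable_of_tendsto_ae atTop (fun R => (hAm R).aestronglyMeasurable) (Eventually.of_forall hlim)
  have hφr : ∀ b, φ b = ((‖∫ x, H b x ∂mX κ‖ ^ 2 : ℝ) : ℂ) := by
    intro b
    rw [hφ]; dsimp only
    rw [Complex.mul_conj, Complex.normSq_eq_norm_sq]
  have hre : ∫ b, ‖∫ x, H b x ∂mX κ‖ ^ 2 ∂mX κ = 0 := by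
    have h1 : ((∫ b, ‖∫ x, H b x ∂mX κ‖ ^ 2 ∂mX κ : ℝ) : ℂ) = ∫ b, φ b ∂mX κ := by
      rw [← integral_complex_ofReal]
      exact integral_congr_ae (Eventually.of_forall fun b => (hφr b).symm)
    rw [hzero] at h1
    exact_mod_cast h1
  have hint : Integrable (fun b => ‖∫ x, H b x ∂mX κ‖ ^ 2) (mX κ) := by
    have h1 : AEStronglyMeasurable (fun b => ‖∫ x, H b x ∂mX κ‖ ^ 2) (mX κ) := by
      have h2 := Complex.continuous_re.comp_aestronglyMeasurable hφm
      refine h2.congr (Eventually.of_forall fun b => ?_)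
      show (φ b).re = _
      rw [hφr, Complex.ofReal_re]
    refine Integrable.of_bound h1 1 (Eventually.of_forall fun b => ?_)
    rw [Real.norm_of_nonneg (by positivity)]
    refine pow_le_one₀ (norm_nonneg _) ?_
    refine (norm_integral_le_of_norm_le_const (C := 1) (Eventually.of_forall fun x => ?_)).trans (by simp)
    rw [hH]; dsimp only
    rw [norm_mul, norm_mul, RCLike.norm_conj, RCLike.norm_conj, hw, mul_one]
    exact mul_le_one₀ (hF1 _) (norm_nonneg _) (hF1 _)
  rw [integral_eq_zero_iff_of_nonneg (fun b => by positivity) hint] at hre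
  filter_upwards [hre] with b hb
  have hb' : ‖∫ x, H b x ∂mX κ‖ ^ 2 = 0 := hb
  have h3 : ‖∫ x, H b x ∂mX κ‖ = 0 := by simpa using hb'
  exact norm_eq_zero.1 h3

/-- the test functions -/
private noncomputable def tf (n : κ →₀ ℤ) (c : ℂ) (x : TX κ) : ℂ := (1 / 2 : ℂ) * (ch n x + c)

private theorem tf_int {n : κ →₀ ℤ} {b : TX κ} {w : TX κ → ℂ} (hw : Integrable w (mX κ)) (c : ℂ) (hc : c * conj c = 1)
    (h : ∫ x, tf n c x * conj (tf n c (x + b)) * conj (w x) ∂mX κ = 0) :
    (conj (ch n b) + 1) * conj (∫ x, w x ∂mX κ) + conj c * (∫ x, ch n x * conj (w x) ∂mX κ) +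
      c * conj (ch n b) * (∫ x, conj (ch n x) * conj (w x) ∂mX κ) = 0 := by
  have hi0 : Integrable (fun x => conj (w x)) (mX κ) := by
    have := Complex.conjLIE.toContinuousLinearEquiv.toContinuousLinearMap.integrable_comp hw
    exact this
  have hch : ∀ n : κ →₀ ℤ, Measurable (ch n) := fun n => (HT.ch_cont n).measurable
  have hi1 : Integrable (fun x => ch n x * conj (w x)) (mX κ) :=
    hi0.bdd_mul (c := 1) (hch n).aestronglyMeasurable (Eventually.of_forall fun x => (HT.ch_norm n x).le)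
  have hi2 : Integrable (fun x => conj (ch n x) * conj (w x)) (mX κ) :=
    hi0.bdd_mul (c := 1) (Complex.continuous_conj.measurable.comp (hch n)).aestronglyMeasurable
      (Eventually.of_forall fun x => by rw [RCLike.norm_conj]; exact (HT.ch_norm n x).le)
  have e : ∀ x, tf n c x * conj (tf n c (x + b)) * conj (w x) =
      (1 / 4 : ℂ) * ((conj (ch n b) + 1) * conj (w x) + conj c * (ch n x * conj (w x)) +
        c * conj (ch n b) * (conj (ch n x) * conj (w x))) := by
    intro x
    unfold tf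
    rw [HT.ch_add_right]
    have h1 := unim_mul _ (HT.ch_norm n x)
    simp only [map_mul, map_add, map_div₀, map_one, map_ofNat]
    linear_combination (1 / 4 : ℂ) * conj (ch n b) * conj (w x) * h1 + (1 / 4 : ℂ) * conj (w x) * hc
  simp only [e] at h
  have t1 : Integrable (fun x => (conj (ch n b) + 1) * conj (w x) + conj c * (ch n x * conj (w x))) (mX κ) :=
    (hi0.const_mul _).add (hi1.const_mul _)
  rw [integral_const_mul, integral_add t1 (hi2.const_mul _),
    integral_add (hi0.const_mul _) (hi1.const_mul _), integral_const_mul, integral_const_mul, integral_const_mul,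
    integral_conj] at h
  have h4 : (1 / 4 : ℂ) ≠ 0 := by norm_num
  exact (mul_eq_zero.1 h).resolve_left h4

/-- **NDe.** -/
theorem nde (hT : Ergodic (TT W) (mX κ)) {j : ℕ} {m : κ →₀ ℤ} (hm : OnM W (j + 1) m)
    (hb : ∀ b, ∃ w : TX κ → ℂ, Measurable w ∧ (∀ x, ‖w x‖ = 1) ∧ Low W (j + 1) w ∧
      ∀ᵐ x ∂mX κ, w (TT W x) = ch m (fun i => W.ψ i (x + lp W j b) - W.ψ i x) * w x)
    (he : ∀ F : TX κ → ℂ, Measurable F → (∀ x, ‖F x‖ ≤ 1) → Low W (j + 1) F →
      Tendsto (fun R : ℕ => (1 / (R : ℝ)) * ∑ r ∈ range R, ∫ x, ‖AV W j (GR W m F r) x‖ ^ 2 ∂mX κ) atTop (𝓝 0)) :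
    False := by
  choose w w1 w2 w3 w4 using hb
  have key : ∀ (n : κ →₀ ℤ) (c : ℂ), ‖c‖ = 1 → (∀ i, n i ≠ 0 → W.lev i < j + 1) →
      ∀ᵐ b ∂mX κ, ∫ x, tf n c x * conj (tf n c (x + lp W j b)) * conj (w b x) ∂mX κ = 0 := by
    intro n c hc hn
    have hnl : Low W (j + 1) (ch n) := by
      intro x y hxy
      show FT.ec (FT.pr n _) = FT.ec (FT.pr n _)
      rw [FT.pr_congr n _ _ fun i hi => hxy i (hn i hi)]
    have htm : Measurable (tf n c) := measurable_const.mul ((HT.ch_cont n).measurable.add measurable_const)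
    have ht1 : ∀ x, ‖tf n c x‖ ≤ 1 := by
      intro x
      unfold tf
      rw [norm_mul]
      have h1 : ‖ch n x + c‖ ≤ 2 := by
        refine (norm_add_le _ _).trans ?_
        rw [HT.ch_norm, hc]; norm_num
      have h2 : ‖(1 / 2 : ℂ)‖ = 1 / 2 := by norm_num
      rw [h2]; linarith
    have htl : Low W (j + 1) (tf n c) := by
      intro x y hxy
      unfold tf
      rw [hnl x y hxy]
    exact wit_mean W hT hm w1 w2 w4 htm ht1 htl (he _ htm ht1 htl)
  have hall : ∀ᵐ b ∂mX κ, ∀ n : κ →₀ ℤ, (∀ i, n i ≠ 0 → W.lev i < j + 1) → ∀ k : Fin 4,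
      ∫ x, tf n (Complex.I ^ (k : ℕ)) x * conj (tf n (Complex.I ^ (k : ℕ)) (x + lp W j b)) * conj (w b x) ∂mX κ = 0 := by
    rw [ae_all_iff]
    intro n
    by_cases hn : ∀ i, n i ≠ 0 → W.lev i < j + 1
    · have h1 : ∀ᵐ b ∂mX κ, ∀ k : Fin 4, ∫ x, tf n (Complex.I ^ (k : ℕ)) x *
          conj (tf n (Complex.I ^ (k : ℕ)) (x + lp W j b)) * conj (w b x) ∂mX κ = 0 :=
        ae_all_iff.2 fun k => key n _ (by rw [norm_pow, Complex.norm_I, one_pow]) hn
      filter_upwards [h1] with b hb _
      exact hb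
    · exact Eventually.of_forall fun b h => absurd h hn
  obtain ⟨b, hb⟩ := hall.exists
  have hwB : BM (mX κ) (w b) := BM.of_bdd (w1 b) (C := 1) fun x => (w2 b x).le
  have hz : w b =ᵐ[mX κ] 0 := by
    refine hat_zero hwB fun n => ?_
    by_cases hn : ∃ i, n i ≠ 0 ∧ j + 1 ≤ W.lev i
    · exact hat_low W (w3 b) n hn
    push Not at hn
    have h0 := tf_int hwB.integrable (Complex.I ^ 0) (by simp) (hb n hn 0)
    have h1 := tf_int hwB.integrable (Complex.I ^ 1) (by simp) (hb n hn 1)
    have h2 := tf_int hwB.integrable (Complex.I ^ 2) (by simp) (hb n hn 2)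
    have h3 := tf_int hwB.integrable (Complex.I ^ 3) (by simp [pow_succ]) (hb n hn 3)
    have e2 : Complex.I ^ 2 = -1 := Complex.I_sq
    have e3 : Complex.I ^ 3 = -Complex.I := by rw [pow_succ, e2]; ring
    rw [pow_zero] at h0
    rw [pow_one] at h1
    rw [e2] at h2
    rw [e3] at h3
    simp only [map_one, map_neg, Complex.conj_I] at h0 h1 h2 h3
    have hI : Complex.I * Complex.I = -1 := Complex.I_mul_I
    -- the combination `∑ i^k`
    have h4 : (4 : ℂ) * ∫ x, ch n x * conj (w b x) ∂mX κ = 0 := by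
      linear_combination h0 - h2 + Complex.I * h1 - Complex.I * h3 + 
        (2 * (∫ x, ch n x * conj (w b x) ∂mX κ) - 2 * conj (ch n (lp W j b)) * ∫ x, conj (ch n x) * conj (w b x) ∂mX κ) * hI
    have h5 : ∫ x, ch n x * conj (w b x) ∂mX κ = 0 := (mul_eq_zero.1 h4).resolve_left (by norm_num)
    have h6 : conj (hat (w b) n) = 0 := by
      unfold hat
      rw [← integral_conj, ← h5]
      refine integral_congr_ae (Eventually.of_forall fun x => ?_)
      dsimp only
      rw [map_mul, Complex.conj_conj, mul_comm]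
    exact (map_eq_zero _).1 h6
  obtain ⟨x, hx⟩ := hz.exists
  have h1 := w2 b x
  rw [hx] at h1
  simp at h1

end Pool.Agent.Lib.MP_9fe581_an.AH
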