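import Pool.Agent.Lib.MP_9fe581_an.AH.UE
import Pool.Agent.Lib.MP_9fe581_an.AH.EnZ
import Pool.Agent.Lib.MP_9fe581_an.HD.Simple

/-!
# AH, part B: factors without small characters are small
-/

set_option autoImplicit false
set_option linter.unusedSectionVars false

open MeasureTheory Filter Topology Finset
open scoped ComplexConjugate

namespace Pool.Agent.Lib.MP_9fe581_an.AH

open HT (TX mX ch)

section general

variable {Ω : Type} {m m0 : MeasurableSpace Ω} {μ : Measure Ω} [IsProbabilityMeasure μ]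

theorem rg_eig {T : Ω → Ω} (hE : Ergodic T μ) {f : Ω → ℂ} (hf : BM μ f) {w : ℂ} (hw1 : ‖w‖ = 1)
    (hT : ∀ x, f (T x) = w * f x) (hne : ¬ (f =ᵐ[μ] 0))
    (hinv : μ[fun x => f (T x) | m] =ᵐ[μ] fun x => (μ[f | m]) (T x))
    (hnm : ¬ AEStronglyMeasurable[m] f μ) : μ[f | m] =ᵐ[μ] 0 := by
  have he : ∀ᵐ z ∂μ, f (T z) = w * f z := Eventually.of_forall hT
  have he' : ∀ᵐ z ∂μ, (μ[f | m]) (T z) = w * (μ[f | m]) z := by
    have h2 : μ[fun x => f (T x) | m] =ᵐ[μ] fun x => w * (μ[f | m]) x := by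
      have e : (fun x => f (T x)) = w • f := funext fun x => hT x
      rw [e]
      exact condExp_smul w f m
    filter_upwards [hinv, h2] with z e1 e2
    rw [← e1, e2]
  obtain ⟨c, hc⟩ := HD.eig_simple hE w hw1 hf.1 hf.condExp.1 he he' hne
  by_cases hc0 : c = 0
  · refine hc.trans (Eventually.of_forall fun z => ?_)
    rw [hc0]; simp
  · exfalso
    refine hnm ?_
    have h3 : AEStronglyMeasurable[m] (fun z => c⁻¹ * (μ[f | m]) z) μ := (ce_meas f).const_mul c⁻¹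
    refine h3.congr ?_
    filter_upwards [hc] with z hz
    rw [hz, ← mul_assoc, inv_mul_cancel₀ hc0, one_mul]

theorem rg_iter {T : Ω → Ω} (hT : MeasurePreserving T μ μ)
    (hinv : ∀ f : Ω → ℂ, BM μ f → μ[fun x => f (T x) | m] =ᵐ[μ] fun x => (μ[f | m]) (T x))
    {f : Ω → ℂ} (hf : BM μ f) (r : ℕ) :
    μ[fun x => f (T^[r] x) | m] =ᵐ[μ] fun x => (μ[f | m]) (T^[r] x) := by
  induction r with
  | zero => exact Eventually.of_forall fun _ => rfl
  | succ r ih =>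
    have h1 := hinv _ (hf.comp (hT.iterate r))
    have h2 := hT.quasiMeasurePreserving.ae_eq_comp ih
    refine (h1.trans ?_)
    filter_upwards [h2] with x hx
    simp only [Function.comp] at hx
    rw [hx]
    rfl

theorem rg_vdc {T : Ω → Ω} (hm : m ≤ m0) (hT : MeasurePreserving T μ μ)
    (hinv : ∀ f : Ω → ℂ, BM μ f → μ[fun x => f (T x) | m] =ᵐ[μ] fun x => (μ[f | m]) (T x))
    {f : Ω → ℂ} (hf : Measurable f) (hf1 : ∀ x, ‖f x‖ ≤ 1)
    (R : ℕ) (hR : 0 < R) : (∫ x, ‖(μ[f | m]) x‖ ^ 2 ∂μ) ^ 2 ≤ (1 / (R : ℝ) ^ 2) * ∑ r ∈ range R, ∑ s ∈ range R,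
      Real.sqrt (∫ x, ‖(μ[fun x => f (T^[r] x) * conj (f (T^[s] x)) | m]) x‖ ^ 2 ∂μ) := by
  have hb : BM μ f := BM.of_bdd hf hf1
  set g : Ω → ℂ := μ[f | m] with hg
  have hgb : BM μ g := hb.condExp
  have hg1 : ∀ᵐ x ∂μ, ‖g x‖ ≤ 1 :=
    ae_bdd_norm_condExp_of_ae_bdd_norm (m := m) (Eventually.of_forall hf1)
  have hTr : ∀ r : ℕ, MeasurePreserving T^[r] μ μ := fun r => hT.iterate r
  set G : ℕ → Ω → ℂ := fun r x => f (T^[r] x) * conj (g (T^[r] x)) with hG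
  have hfr : ∀ r, BM μ fun x => f (T^[r] x) := fun r => hb.comp (hTr r)
  have hgr : ∀ r, BM μ fun x => g (T^[r] x) := fun r => hgb.comp (hTr r)
  have hGb : ∀ r, BM μ (G r) := fun r => (hfr r).mul (hgr r).conj
  set a : ℝ := ∫ x, ‖g x‖ ^ 2 ∂μ with ha
  have ha0 : 0 ≤ a := integral_nonneg fun x => by positivity
  have hGi : ∀ r, ∫ x, G r x ∂μ = (a : ℂ) := by
    intro r
    have h1 := ce_sq hm hb
    have h2 : ∫ y, (fun y => f y * conj (g y)) y ∂(μ.map T^[r]) = ∫ x, f (T^[r] x) * conj (g (T^[r] x)) ∂μ :=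
      integral_map (hTr r).measurable.aemeasurable (by rw [(hTr r).map_eq]; exact (hb.mul hgb.conj).1)
    rw [(hTr r).map_eq] at h2
    simp only [hG]
    rw [← h2]
    exact h1
  set A : Ω → ℂ := fun x => ∑ r ∈ range R, G r x with hA
  have hAb : BM μ A := BM.sum _ fun r _ => hGb r
  have hAi : ∫ x, A x ∂μ = (R : ℂ) * a := by
    simp only [hA]
    rw [integral_finsetSum _ fun r _ => (hGb r).integrable]
    simp only [hGi, sum_const, card_range, nsmul_eq_mul]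
  -- Cauchy-Schwarz
  have h1 := bm_cs hAb (BM.const (μ := μ) 1)
  simp only [map_one, mul_one, norm_one, one_pow, integral_const, probReal_univ, smul_eq_mul,
    Real.sqrt_one] at h1
  rw [hAi, norm_mul, Complex.norm_natCast, Complex.norm_real, Real.norm_of_nonneg ha0] at h1
  have hR' : (0 : ℝ) < R := by exact_mod_cast hR
  have hA0 : 0 ≤ ∫ x, ‖A x‖ ^ 2 ∂μ := integral_nonneg fun x => by positivity
  have h2 : (R : ℝ) ^ 2 * a ^ 2 ≤ ∫ x, ‖A x‖ ^ 2 ∂μ := by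
    calc (R : ℝ) ^ 2 * a ^ 2 = (R * a) ^ 2 := by ring
      _ ≤ Real.sqrt (∫ x, ‖A x‖ ^ 2 ∂μ) ^ 2 := by gcongr
      _ = _ := Real.sq_sqrt hA0
  -- expansion
  have h3 : ((∫ x, ‖A x‖ ^ 2 ∂μ : ℝ) : ℂ) = ∑ r ∈ range R, ∑ s ∈ range R,
      ∫ x, G r x * conj (G s x) ∂μ := by
    rw [← int_mul_conj_self]
    have e : (fun x => A x * conj (A x)) = fun x => ∑ r ∈ range R, ∑ s ∈ range R, G r x * conj (G s x) := by
      funext x
      simp only [hA]
      rw [map_sum, sum_mul_sum]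
    rw [e, integral_finsetSum _ fun r _ => integrable_finsetSum _ fun s _ => ((hGb r).mul (hGb s).conj).integrable]
    refine sum_congr rfl fun r _ => ?_
    rw [integral_finsetSum _ fun s _ => ((hGb r).mul (hGb s).conj).integrable]
  have h4 : ∀ r s, ‖∫ x, G r x * conj (G s x) ∂μ‖ ≤
      Real.sqrt (∫ x, ‖(μ[fun x => f (T^[r] x) * conj (f (T^[s] x)) | m]) x‖ ^ 2 ∂μ) := by
    intro r s
    set F : Ω → ℂ := fun x => f (T^[r] x) * conj (f (T^[s] x)) with hF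
    have hFb : BM μ F := (hfr r).mul (hfr s).conj
    set K : Ω → ℂ := fun x => g (T^[r] x) * conj (g (T^[s] x)) with hK
    have hKb : BM μ K := (hgr r).mul (hgr s).conj
    have hKm : AEStronglyMeasurable[m] K μ := by
      have e1 : ∀ r, AEStronglyMeasurable[m] (fun x => g (T^[r] x)) μ := fun r =>
        (ce_meas (m := m) (fun x => f (T^[r] x))).congr (rg_iter hT hinv hb r)
      exact (e1 r).mul (Complex.continuous_conj.comp_aestronglyMeasurable (e1 s))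
    have e2 : ∫ x, G r x * conj (G s x) ∂μ = ∫ x, F x * conj (K x) ∂μ := by
      refine integral_congr_ae (Eventually.of_forall fun x => ?_)
      simp only [hG, hF, hK, map_mul, Complex.conj_conj]
      ring
    rw [e2, ce_int hm hFb hKb hKm]
    have e3 := bm_cs (hFb.condExp (m := m)) hKb
    have e4 : ∫ x, ‖K x‖ ^ 2 ∂μ ≤ 1 := by
      have : ∀ᵐ x ∂μ, ‖K x‖ ^ 2 ≤ 1 := by
        have i1 := (hTr r).quasiMeasurePreserving.ae (p := fun x => ‖g x‖ ≤ 1) hg1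
        have i2 := (hTr s).quasiMeasurePreserving.ae (p := fun x => ‖g x‖ ≤ 1) hg1
        filter_upwards [i1, i2] with x j1 j2
        simp only [hK]
        rw [norm_mul, RCLike.norm_conj]
        have : ‖g (T^[r] x)‖ * ‖g (T^[s] x)‖ ≤ 1 := by
          calc _ ≤ (1 : ℝ) * 1 := mul_le_mul j1 j2 (norm_nonneg _) zero_le_one
            _ = 1 := one_mul _
        nlinarith [mul_nonneg (norm_nonneg (g (T^[r] x))) (norm_nonneg (g (T^[s] x)))]
      calc ∫ x, ‖K x‖ ^ 2 ∂μ ≤ ∫ x, (1 : ℝ) ∂μ := integral_mono_ae hKb.int_sq (integrable_const _) this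
        _ = 1 := by simp
    calc _ ≤ _ := e3
      _ ≤ Real.sqrt (∫ x, ‖(μ[F | m]) x‖ ^ 2 ∂μ) * 1 := by
          gcongr
          rw [← Real.sqrt_one]
          exact Real.sqrt_le_sqrt e4
      _ = _ := mul_one _
  have h5 : ∫ x, ‖A x‖ ^ 2 ∂μ ≤ ∑ r ∈ range R, ∑ s ∈ range R,
      Real.sqrt (∫ x, ‖(μ[fun x => f (T^[r] x) * conj (f (T^[s] x)) | m]) x‖ ^ 2 ∂μ) := by
    have e1 : ∫ x, ‖A x‖ ^ 2 ∂μ = ‖((∫ x, ‖A x‖ ^ 2 ∂μ : ℝ) : ℂ)‖ := by
      rw [Complex.norm_real, Real.norm_of_nonneg hA0]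
    rw [e1, h3]
    refine (norm_sum_le _ _).trans (sum_le_sum fun r _ => (norm_sum_le _ _).trans (sum_le_sum fun s _ => h4 r s))
  have h6 := h2.trans h5
  rw [one_div, ← div_eq_inv_mul, le_div_iff₀ (by positivity)]
  linarith

end general

variable {κ : Type} [Fintype κ] [DecidableEq κ] (W : Tow κ)



/-- a `T`-invariant factor that contains no character `ch n`, `n` on the level 0 with a coordinate not divisible by `q` -/
structure QF (q : ℕ) (D : MeasurableSpace (TX κ)) : Prop where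
  le : D ≤ MeasurableSpace.pi
  inv : ∀ f : TX κ → ℂ, BM (mX κ) f → (mX κ)[fun x => f (TT W x) | D] =ᵐ[mX κ] fun x => ((mX κ)[f | D]) (TT W x)
  char : ∀ n : κ →₀ ℤ, OnM W 0 n → (∃ i, ¬ (q : ℤ) ∣ n i) → ¬ AEStronglyMeasurable[D] (ch n) (mX κ)

theorem rg_ch_bm (n : κ →₀ ℤ) : BM (mX κ) (ch n) :=
  BM.of_bdd (HT.ch_cont n).measurable (C := 1) fun x => (HT.ch_norm n x).le

theorem rg_cont_bm {f : TX κ → ℂ} (hf : Continuous f) : BM (mX κ) f := by
  obtain ⟨C, hC⟩ := isCompact_univ.exists_bound_of_continuousOn hf.continuousOn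
  exact BM.of_bdd hf.measurable (C := C) fun x => hC x (Set.mem_univ x)

theorem rg_erg1 (hN : ND W) : Ergodic (TT W) (mX κ) := by
  have := erg W hN (p := 1) one_pos
  simpa using this

theorem rg_eq0 {n : κ →₀ ℤ} (hn : OnM W 0 n) (x : TX κ) :
    ch n (TT W x) = ch n (fun i => W.ψ i 0) * ch n x := by
  have h1 := ch_iter W n 1 x
  rw [Function.iterate_one] at h1
  rw [h1]
  congr 1
  show FT.ec (FT.pr n _) = FT.ec (FT.pr n _)
  rw [FT.pr_congr n _ _ fun i hi => ?_]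
  have h2 : psn W 1 x i = W.ψ i x := by
    simp [psn, TT]
  rw [h2]
  exact W.dep i x 0 fun l hl => by rw [hn i hi] at hl; omega

theorem rg_ch_ne (n : κ →₀ ℤ) : ¬ (ch n =ᵐ[mX κ] 0) := by
  intro h
  have h1 : ∫ x, ‖ch n x‖ ^ 2 ∂mX κ = 0 := by
    have : (fun x => ‖ch n x‖ ^ 2) =ᵐ[mX κ] fun _ => (0 : ℝ) := by
      filter_upwards [h] with x hx
      rw [hx]; simp
    rw [integral_congr_ae this, integral_zero]
  simp [HT.ch_norm] at h1

/-- level 0: `E (ch n | D)` is an eigenfunction, `HD.eig_simple` -/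
theorem rig_zero (hN : ND W) {q : ℕ} {D : MeasurableSpace (TX κ)} (hD : QF W q D) {n : κ →₀ ℤ} (hn : OnM W 0 n)
    (hq : ∃ i, ¬ (q : ℤ) ∣ n i) : (mX κ)[ch n | D] =ᵐ[mX κ] 0 :=
  rg_eig (rg_erg1 W hN) (rg_ch_bm n) (HT.ch_norm _ _) (rg_eq0 W hn) (rg_ch_ne n) (hD.inv _ (rg_ch_bm n))
    (hD.char n hn hq)

/-- van der Corput with `R` fixed -/
theorem rig_vdc {q : ℕ} {f : TX κ → ℂ} (hf : Measurable f) (hf1 : ∀ x, ‖f x‖ ≤ 1)
    (R : ℕ) (hR : 0 < R) {D : MeasurableSpace (TX κ)} (hD : QF W q D) : (∫ x, ‖((mX κ)[f | D]) x‖ ^ 2 ∂mX κ) ^ 2 ≤ (1 / (R : ℝ) ^ 2) * ∑ r ∈ range R, ∑ s ∈ range R,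
      Real.sqrt (∫ x, ‖((mX κ)[fun x => f ((TT W)^[r] x) * conj (f ((TT W)^[s] x)) | D]) x‖ ^ 2 ∂mX κ) :=
  @rg_vdc (TX κ) D MeasurableSpace.pi (mX κ) _ (TT W) hD.le (TT_pres W) hD.inv f hf hf1 R hR

/-! ### small functions -/

/-- small relative to all factors of large parameter -/
def Sm (f : TX κ → ℂ) : Prop := ∀ ε : ℝ, 0 < ε → ∃ q0 : ℕ, ∀ q ≥ q0, ∀ D : MeasurableSpace (TX κ), QF W q D →
  ∫ x, ‖((mX κ)[f | D]) x‖ ^ 2 ∂mX κ ≤ ε

section general2

variable {Ω : Type} {m m0 : MeasurableSpace Ω} {μ : Measure Ω} [IsProbabilityMeasure μ]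

theorem rg_add {f g : Ω → ℂ} (hf : BM μ f) (hg : BM μ g) :
    ∫ x, ‖(μ[fun x => f x + g x | m]) x‖ ^ 2 ∂μ ≤
      2 * ∫ x, ‖(μ[f | m]) x‖ ^ 2 ∂μ + 2 * ∫ x, ‖(μ[g | m]) x‖ ^ 2 ∂μ := by
  have h1 : μ[fun x => f x + g x | m] =ᵐ[μ] μ[f | m] + μ[g | m] := condExp_add hf.integrable hg.integrable m
  have i1 := (hf.condExp (m := m)).int_sq
  have i2 := (hg.condExp (m := m)).int_sq
  rw [← integral_const_mul, ← integral_const_mul, ← integral_add (i1.const_mul 2) (i2.const_mul 2)]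
  refine integral_mono_ae ((hf.add hg).condExp).int_sq ((i1.const_mul 2).add (i2.const_mul 2)) ?_
  filter_upwards [h1] with x hx
  simp only [Pi.add_apply] at hx ⊢
  rw [hx]
  have h2 := norm_add_le ((μ[f | m]) x) ((μ[g | m]) x)
  nlinarith [norm_nonneg ((μ[f | m]) x + (μ[g | m]) x), sq_nonneg (‖(μ[f | m]) x‖ - ‖(μ[g | m]) x‖)]

theorem rg_smul (c : ℂ) (f : Ω → ℂ) :
    ∫ x, ‖(μ[fun x => c * f x | m]) x‖ ^ 2 ∂μ = ‖c‖ ^ 2 * ∫ x, ‖(μ[f | m]) x‖ ^ 2 ∂μ := by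
  have h1 : μ[fun x => c * f x | m] =ᵐ[μ] c • μ[f | m] := condExp_smul c f m
  rw [← integral_const_mul]
  refine integral_congr_ae ?_
  filter_upwards [h1] with x hx
  rw [hx, Pi.smul_apply, smul_eq_mul, norm_mul, mul_pow]

theorem rg_bdd (hm : m ≤ m0) {f : Ω → ℂ} (hf : Measurable f) {δ : ℝ} (hδ : ∀ x, ‖f x‖ ≤ δ) :
    ∫ x, ‖(μ[f | m]) x‖ ^ 2 ∂μ ≤ δ ^ 2 := by
  have hb : BM μ f := BM.of_bdd hf hδ
  refine (ce_norm hm hb).trans ?_
  calc ∫ x, ‖f x‖ ^ 2 ∂μ ≤ ∫ x, δ ^ 2 ∂μ := by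
        refine integral_mono hb.int_sq (integrable_const _) fun x => ?_
        have := hδ x
        have h0 := norm_nonneg (f x)
        exact pow_le_pow_left₀ h0 this 2
    _ = δ ^ 2 := by simp

/-- splitting off the constant -/
theorem rg_const (hm : m ≤ m0) {h : Ω → ℂ} (hb : BM μ h) (z : ℂ) :
    Real.sqrt (∫ x, ‖(μ[h | m]) x‖ ^ 2 ∂μ) ≤
      Real.sqrt 2 * (Real.sqrt (∫ x, ‖(μ[fun x => h x - z | m]) x‖ ^ 2 ∂μ) + ‖z‖) := by
  have h1 := rg_add (m := m) (hb.sub (BM.const (μ := μ) z)) (BM.const (μ := μ) z)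
  have e1 : (fun x => h x - z + z) = h := by funext x; ring
  rw [e1] at h1
  have e2 : ∫ x, ‖(μ[fun _ : Ω => z | m]) x‖ ^ 2 ∂μ = ‖z‖ ^ 2 := by
    rw [condExp_const hm]; simp
  rw [e2] at h1
  have h3 : 0 ≤ ∫ x, ‖(μ[fun x => h x - z | m]) x‖ ^ 2 ∂μ := integral_nonneg fun x => by positivity
  set b := ∫ x, ‖(μ[fun x => h x - z | m]) x‖ ^ 2 ∂μ with hbdef
  apply Real.sqrt_le_iff.2
  refine ⟨by positivity, ?_⟩
  rw [mul_pow, Real.sq_sqrt (by norm_num : (0 : ℝ) ≤ 2)]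
  have h4 : Real.sqrt b ^ 2 = b := Real.sq_sqrt h3
  nlinarith [Real.sqrt_nonneg b, norm_nonneg z, mul_nonneg (Real.sqrt_nonneg b) (norm_nonneg z)]

end general2

variable {W}

theorem Sm.congr {f g : TX κ → ℂ} (hf : Sm W f) (h : f = g) : Sm W g := h ▸ hf

theorem Sm.zero : Sm W (fun _ => (0 : ℂ)) := by
  intro ε hε
  refine ⟨0, fun q _ D hD => ?_⟩
  have := @rg_bdd (TX κ) D MeasurableSpace.pi (mX κ) _ hD.le (fun _ => (0 : ℂ)) measurable_const 0 (by simp)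
  refine this.trans ?_
  simpa using hε.le

theorem Sm.add {f g : TX κ → ℂ} (hfb : BM (mX κ) f) (hgb : BM (mX κ) g) (hf : Sm W f) (hg : Sm W g) :
    Sm W fun x => f x + g x := by
  intro ε hε
  obtain ⟨q1, h1⟩ := hf (ε / 4) (by positivity)
  obtain ⟨q2, h2⟩ := hg (ε / 4) (by positivity)
  refine ⟨max q1 q2, fun q hq D hD => ?_⟩
  have e1 := h1 q ((le_max_left _ _).trans hq) D hD
  have e2 := h2 q ((le_max_right _ _).trans hq) D hD
  have e3 := @rg_add (TX κ) D MeasurableSpace.pi (mX κ) _ f g hfb hgb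
  linarith

theorem Sm.smul {f : TX κ → ℂ} (c : ℂ) (hf : Sm W f) : Sm W fun x => c * f x := by
  intro ε hε
  obtain ⟨q1, h1⟩ := hf (ε / (‖c‖ ^ 2 + 1)) (by positivity)
  refine ⟨q1, fun q hq D hD => ?_⟩
  have e1 := h1 q hq D hD
  have e3 := @rg_smul (TX κ) D MeasurableSpace.pi (mX κ) _ c f
  rw [e3]
  calc ‖c‖ ^ 2 * ∫ x, ‖((mX κ)[f | D]) x‖ ^ 2 ∂mX κ ≤ ‖c‖ ^ 2 * (ε / (‖c‖ ^ 2 + 1)) := by gcongr
    _ ≤ (‖c‖ ^ 2 + 1) * (ε / (‖c‖ ^ 2 + 1)) := by gcongr; linarith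
    _ = ε := by field_simp

theorem Sm.sum {ι : Type} (s : Finset ι) (f : ι → TX κ → ℂ) (hb : ∀ i ∈ s, BM (mX κ) (f i)) (hf : ∀ i ∈ s, Sm W (f i)) :
    Sm W fun x => ∑ i ∈ s, f i x := by
  classical
  induction s using Finset.induction_on with
  | empty => simpa using Sm.zero
  | insert a s ha ih =>
    refine Sm.congr (Sm.add (hb a (mem_insert_self _ _)) (BM.sum s fun i hi => hb i (mem_insert_of_mem hi))
      (hf a (mem_insert_self _ _)) (ih (fun i hi => hb i (mem_insert_of_mem hi)) fun i hi => hf i (mem_insert_of_mem hi))) ?_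
    funext x
    rw [sum_insert ha]

theorem Sm.lim {f : TX κ → ℂ} (hf : BM (mX κ) f)
    (h : ∀ δ : ℝ, 0 < δ → ∃ g : TX κ → ℂ, BM (mX κ) g ∧ Sm W g ∧ ∫ x, ‖f x - g x‖ ^ 2 ∂mX κ ≤ δ) : Sm W f := by
  intro ε hε
  obtain ⟨g, hg, hgs, hfg⟩ := h (ε / 4) (by positivity)
  obtain ⟨q1, h1⟩ := hgs (ε / 4) (by positivity)
  refine ⟨q1, fun q hq D hD => ?_⟩
  have e1 := h1 q hq D hD
  have e2 := (@ce_norm (TX κ) D MeasurableSpace.pi (mX κ) _ hD.le (fun x => f x - g x) (hf.sub hg)).trans hfg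
  have e3 := @rg_add (TX κ) D MeasurableSpace.pi (mX κ) _ g (fun x => f x - g x) hg (hf.sub hg)
  have e4 : (fun x => g x + (f x - g x)) = f := by funext x; ring
  rw [e4] at e3
  linarith

/-- approximation by characters -/
theorem Sm.of_ch (a : ℕ) (h : ∀ n : κ →₀ ℤ, n ≠ 0 → (∀ i, n i ≠ 0 → W.lev i < a) → Sm W (ch n))
    {f : TX κ → ℂ} (hf : BM (mX κ) f) (hl : Low W a f) (h0 : ∫ x, f x ∂mX κ = 0) : Sm W f := by
  refine Sm.lim hf fun δ hδ => ?_
  obtain ⟨S, hS⟩ := four_approx hf hδ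
  refine ⟨fun x => ∑ n ∈ S, hat f n * ch n x, ?_, ?_, hS⟩
  · exact BM.sum S fun n _ => (BM.const (μ := mX κ) (hat f n)).mul (rg_ch_bm n)
  · refine Sm.sum S _ (fun n _ => (BM.const (μ := mX κ) (hat f n)).mul (rg_ch_bm n)) fun n _ => ?_
    by_cases hn0 : n = 0
    · have e : hat f n = 0 := by
        rw [hn0]
        unfold hat
        simp only [HT.ch_zero, map_one, mul_one]
        exact h0
      refine Sm.congr Sm.zero ?_
      funext x
      rw [e, zero_mul]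
    · by_cases hn : ∃ i, n i ≠ 0 ∧ a ≤ W.lev i
      · have e : hat f n = 0 := hat_low W hl n hn
        refine Sm.congr Sm.zero ?_
        funext x
        rw [e, zero_mul]
      · push Not at hn
        exact (h n hn0 hn).smul _

variable (W)

/-- level 0 -/
theorem Sm.ch_base (hN : ND W) (n : κ →₀ ℤ) (hn0 : n ≠ 0) (hn : ∀ i, n i ≠ 0 → W.lev i < 1) : Sm W (ch n) := by
  obtain ⟨i, hi⟩ : ∃ i, n i ≠ 0 := by
    by_contra hcon
    push Not at hcon
    exact hn0 (Finsupp.ext hcon)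
  intro ε hε
  refine ⟨(n i).natAbs + 1, fun q hq D hD => ?_⟩
  have hq' : ¬ (q : ℤ) ∣ n i := by
    intro hdvd
    have h1 := Nat.le_of_dvd (Int.natAbs_pos.2 hi) (Int.natAbs_dvd_natAbs.2 hdvd)
    rw [Int.natAbs_natCast] at h1
    omega
  have h1 := rig_zero W hN hD (n := n) (fun l hl => by have := hn l hl; omega) ⟨i, hq'⟩
  have h2 : ∫ x, ‖((mX κ)[ch n | D]) x‖ ^ 2 ∂mX κ = 0 := by
    have : (fun x => ‖((mX κ)[ch n | D]) x‖ ^ 2) =ᵐ[mX κ] fun _ => (0 : ℝ) := by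
      filter_upwards [h1] with x hx
      rw [hx]; simp
    rw [integral_congr_ae this, integral_zero]
  rw [h2]
  exact hε.le

/-- a double sum of a function of the difference -/
theorem rg_dbl (b : ℕ → ℝ) (hb : ∀ k, 0 ≤ b k) (c : ℕ → ℕ → ℝ) (h1 : ∀ r s, s ≤ r → c r s ≤ b (r - s))
    (h2 : ∀ r s, r ≤ s → c r s ≤ b (s - r)) (R : ℕ) :
    ∑ r ∈ range R, ∑ s ∈ range R, c r s ≤ 2 * R * ∑ k ∈ range R, b k := by
  have hr : ∀ r ∈ range R, ∑ s ∈ range R, c r s ≤ 2 * ∑ k ∈ range R, b k := by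
    intro r hr
    rw [mem_range] at hr
    have e1 : ∑ s ∈ range (r + 1), c r s + ∑ s ∈ Ico (r + 1) R, c r s = ∑ s ∈ range R, c r s :=
      sum_range_add_sum_Ico (fun s => c r s) hr
    have e2 : ∑ s ∈ range (r + 1), c r s ≤ ∑ k ∈ range R, b k := by
      calc ∑ s ∈ range (r + 1), c r s ≤ ∑ s ∈ range (r + 1), b (r + 1 - 1 - s) :=
            sum_le_sum fun s hs => by
              rw [mem_range] at hs
              simpa using h1 r s (by omega)
        _ = ∑ k ∈ range (r + 1), b k := sum_range_reflect b (r + 1)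
        _ ≤ ∑ k ∈ range R, b k := sum_le_sum_of_subset_of_nonneg
            (range_subset_range.2 hr) fun k _ _ => hb k
    have e3 : ∑ s ∈ Ico (r + 1) R, c r s ≤ ∑ k ∈ range R, b k := by
      calc ∑ s ∈ Ico (r + 1) R, c r s ≤ ∑ s ∈ Ico (r + 1) R, b (s - r) :=
            sum_le_sum fun s hs => by
              rw [mem_Ico] at hs
              exact h2 r s (by omega)
        _ ≤ ∑ s ∈ Ico r R, b (s - r) := sum_le_sum_of_subset_of_nonneg
            (Ico_subset_Ico_left (Nat.le_succ r)) fun k _ _ => hb _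
        _ = ∑ k ∈ range (R - r), b (r + k - r) := sum_Ico_eq_sum_range _ _ _
        _ = ∑ k ∈ range (R - r), b k := sum_congr rfl fun k _ => by rw [add_tsub_cancel_left]
        _ ≤ ∑ k ∈ range R, b k := sum_le_sum_of_subset_of_nonneg
            (range_subset_range.2 (Nat.sub_le _ _)) fun k _ _ => hb k
    linarith
  calc ∑ r ∈ range R, ∑ s ∈ range R, c r s ≤ ∑ r ∈ range R, 2 * ∑ k ∈ range R, b k := sum_le_sum hr
    _ = 2 * R * ∑ k ∈ range R, b k := by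
        rw [sum_const, card_range, nsmul_eq_mul]; ring

theorem rg_avg (b : ℕ → ℝ) (R : ℕ) (hR : 0 < R) :
    (1 / (R : ℝ)) * ∑ k ∈ range R, b k ≤ Real.sqrt ((1 / (R : ℝ)) * ∑ k ∈ range R, b k ^ 2) := by
  have hR' : (0 : ℝ) < R := by exact_mod_cast hR
  apply Real.le_sqrt_of_sq_le
  have h2 : (∑ k ∈ range R, b k) ^ 2 ≤ R * ∑ k ∈ range R, b k ^ 2 := by
    have := sq_sum_le_card_mul_sum_sq (s := range R) (f := b)
    rwa [card_range] at this
  calc ((1 / (R : ℝ)) * ∑ k ∈ range R, b k) ^ 2 = (1 / (R : ℝ)) ^ 2 * (∑ k ∈ range R, b k) ^ 2 := by ring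
    _ ≤ (1 / (R : ℝ)) ^ 2 * (R * ∑ k ∈ range R, b k ^ 2) := by gcongr
    _ = (1 / (R : ℝ)) * ∑ k ∈ range R, b k ^ 2 := by field_simp

theorem rg_corr (hN : ND W) {j : ℕ} {m : κ →₀ ℤ} (hm0 : m ≠ 0) (hm : OnM W (j + 1) m) {n' : κ →₀ ℤ}
    (hn' : ∀ i, n' i ≠ 0 → W.lev i < j + 1) :
    Tendsto (fun R : ℕ => (1 / (R : ℝ)) * ∑ r ∈ range R,
      ‖∫ x, ch (n' + m) ((TT W)^[r] x) * conj (ch (n' + m) x) ∂mX κ‖ ^ 2) atTop (𝓝 0) := by
  have hl : Low W (j + 1) (ch n') := by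
    intro x y h
    show FT.ec (FT.pr n' _) = FT.ec (FT.pr n' _)
    rw [FT.pr_congr n' _ _ fun i hi => h i (hn' i hi)]
  have h1 := energy_zero W hN (j := j) (p := 1) one_pos hm0 hm (HT.ch_cont n').measurable (C := 1)
    (fun x => (HT.ch_norm n' x).le) hl
  simp only [one_mul] at h1
  refine squeeze_zero (fun R => by positivity) (fun R => ?_) h1
  refine mul_le_mul_of_nonneg_left (sum_le_sum fun r _ => ?_) (by positivity)
  set w : TX κ → ℂ := fun x => ch n' ((TT W)^[r] x) * ch m (psn W r x) * conj (ch n' x) with hw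
  have hwc : Measurable w := (((HT.ch_cont n').measurable.comp (TTn_meas W r)).mul
    (chpsn_meas W m r)).mul (Complex.continuous_conj.measurable.comp (HT.ch_cont n').measurable)
  have hw1 : ∀ x, ‖w x‖ ≤ 1 := by
    intro x
    simp only [hw]
    rw [norm_mul, norm_mul, RCLike.norm_conj, HT.ch_norm, HT.ch_norm, HT.ch_norm]
    norm_num
  have e1 : ∀ x, ch (n' + m) ((TT W)^[r] x) * conj (ch (n' + m) x) = w x := by
    intro x
    have h2 : ch m x * conj (ch m x) = 1 := by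
      rw [Complex.mul_conj, Complex.normSq_eq_norm_sq, HT.ch_norm]; norm_num
    simp only [hw, HT.ch_add, ch_iter W m r x, map_mul]
    calc _ = (ch n' ((TT W)^[r] x) * ch m (psn W r x) * conj (ch n' x)) * (ch m x * conj (ch m x)) := by ring
      _ = _ := by rw [h2, mul_one]
  simp only [e1]
  have e2 := AV_int W (a := j) (u := fun _ => (1 : ℂ)) (fun _ _ _ => rfl) measurable_const (C := 1) (by simp)
    hwc (BM.of_bdd (μ := mX κ) hwc hw1).integrable
  simp only [map_one, mul_one] at e2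
  rw [← e2]
  have hAb : BM (mX κ) (AV W j w) := BM.of_bdd (AV_meas W j hwc) (C := 1) fun x => AV_le W j hw1 x
  have h3 := bm_cs hAb (BM.const (μ := mX κ) 1)
  simp only [map_one, mul_one, norm_one, one_pow, integral_const, probReal_univ, smul_eq_mul,
    Real.sqrt_one] at h3
  have h4 : 0 ≤ ∫ x, ‖AV W j w x‖ ^ 2 ∂mX κ := integral_nonneg fun x => by positivity
  calc ‖∫ x, AV W j w x ∂mX κ‖ ^ 2 ≤ Real.sqrt (∫ x, ‖AV W j w x‖ ^ 2 ∂mX κ) ^ 2 := by gcongr
    _ = _ := Real.sq_sqrt h4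

theorem Sm.ch_step (hN : ND W) (j : ℕ)
    (ih : ∀ f : TX κ → ℂ, BM (mX κ) f → Low W (j + 1) f → ∫ x, f x ∂mX κ = 0 → Sm W f)
    (n : κ →₀ ℤ) (hn0 : n ≠ 0) (hn : ∀ i, n i ≠ 0 → W.lev i < j + 2) : Sm W (ch n) := by
  set m : κ →₀ ℤ := n.filter (fun i => W.lev i = j + 1) with hm
  set n' : κ →₀ ℤ := n.filter (fun i => ¬ W.lev i = j + 1) with hn'
  have hsum : n' + m = n := by rw [add_comm, hm, hn', Finsupp.filter_add_filter_not]
  have hn'l : ∀ i, n' i ≠ 0 → W.lev i < j + 1 := by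
    intro i hi
    by_cases h : W.lev i = j + 1
    · exfalso
      apply hi
      exact Finsupp.filter_apply_neg (fun i => ¬ W.lev i = j + 1) _ (by simpa using h)
    · have h2 : n' i = n i := Finsupp.filter_apply_pos (fun i => ¬ W.lev i = j + 1) _ h
      rw [h2] at hi
      have := hn i hi
      omega
  have hmO : OnM W (j + 1) m := by
    intro i hi
    by_contra h
    apply hi
    exact Finsupp.filter_apply_neg (fun i => W.lev i = j + 1) _ h
  by_cases hm0 : m = 0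
  · refine ih _ (rg_ch_bm n) ?_ ?_
    · rw [hm0, add_zero] at hsum
      intro x y h
      show FT.ec (FT.pr n _) = FT.ec (FT.pr n _)
      rw [FT.pr_congr n _ _ fun i hi => h i (hn'l i (by rw [hsum]; exact hi))]
    · rw [HT.ch_int, if_neg hn0]
  -- the correlations
  set b : ℕ → ℝ := fun r => ‖∫ x, ch n ((TT W)^[r] x) * conj (ch n x) ∂mX κ‖ with hb
  have hb0 : ∀ r, 0 ≤ b r := fun r => norm_nonneg _
  have hcorr : Tendsto (fun R : ℕ => (1 / (R : ℝ)) * ∑ r ∈ range R, b r ^ 2) atTop (𝓝 0) := by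
    have := rg_corr W hN hm0 hmO hn'l
    rw [hsum] at this
    exact this
  set h : ℕ → ℕ → TX κ → ℂ := fun r s x => ch n ((TT W)^[r] x) * conj (ch n ((TT W)^[s] x)) with hh
  have hhc : ∀ r s, Measurable (h r s) := fun r s => ((HT.ch_cont n).measurable.comp (TTn_meas W r)).mul
    (Complex.continuous_conj.measurable.comp ((HT.ch_cont n).measurable.comp (TTn_meas W s)))
  have hhb : ∀ r s, BM (mX κ) (h r s) := fun r s => BM.of_bdd (hhc r s) (C := 1) fun x => by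
    simp only [hh]
    rw [norm_mul, RCLike.norm_conj, HT.ch_norm, HT.ch_norm, one_mul]
  have hhl : ∀ r s, Low W (j + 1) (h r s) := by
    intro r s
    have e : ∀ x, h r s x = ch n (psn W r x) * conj (ch n (psn W s x)) := by
      intro x
      have h2 : ch n x * conj (ch n x) = 1 := by
        rw [Complex.mul_conj, Complex.normSq_eq_norm_sq, HT.ch_norm]; norm_num
      simp only [hh, ch_iter W n _ x, map_mul]
      calc _ = (ch n (psn W r x) * conj (ch n (psn W s x))) * (ch n x * conj (ch n x)) := by ring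
        _ = _ := by rw [h2, mul_one]
    have e2 : ∀ k x y, (∀ i, W.lev i < j + 1 → x i = y i) → ch n (psn W k x) = ch n (psn W k y) := by
      intro k x y hxy
      show FT.ec (FT.pr n _) = FT.ec (FT.pr n _)
      rw [FT.pr_congr n _ _ fun i hi => psn_low W k i x y fun l hl => hxy l (by
        have := hn i hi; omega)]
    intro x y hxy
    rw [e, e, e2 r x y hxy, e2 s x y hxy]
  have hc1 : ∀ r s, s ≤ r → ‖∫ x, h r s x ∂mX κ‖ ≤ b (r - s) := by
    intro r s hsr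
    have hs := (TT_pres W).iterate s
    have e1 : ∫ y, (fun y => ch n ((TT W)^[r - s] y) * conj (ch n y)) y ∂((mX κ).map (TT W)^[s]) =
        ∫ x, ch n ((TT W)^[r - s] ((TT W)^[s] x)) * conj (ch n ((TT W)^[s] x)) ∂mX κ :=
      integral_map hs.measurable.aemeasurable (((HT.ch_cont n).measurable.comp (TTn_meas W (r - s))).mul
        (Complex.continuous_conj.measurable.comp (HT.ch_cont n).measurable)).aestronglyMeasurable
    rw [hs.map_eq] at e1
    have e2 : ∀ x, (TT W)^[r - s] ((TT W)^[s] x) = (TT W)^[r] x := by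
      intro x
      rw [← Function.iterate_add_apply]
      congr 1
      omega
    simp only [e2] at e1
    simp only [hh, hb]
    rw [← e1]
  have hc2 : ∀ r s, r ≤ s → ‖∫ x, h r s x ∂mX κ‖ ≤ b (s - r) := by
    intro r s hrs
    have e1 : ∫ x, h r s x ∂mX κ = conj (∫ x, h s r x ∂mX κ) := by
      rw [← integral_conj]
      refine integral_congr_ae (Eventually.of_forall fun x => ?_)
      simp only [hh, map_mul, Complex.conj_conj]
      ring
    rw [e1, RCLike.norm_conj]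
    exact hc1 s r hrs
  intro ε hε
  -- choice of `R`
  obtain ⟨R, hR0, hR⟩ : ∃ R : ℕ, 0 < R ∧ Real.sqrt 2 * (2 * Real.sqrt ((1 / (R : ℝ)) * ∑ r ∈ range R, b r ^ 2)) ≤ ε ^ 2 / 2 := by
    have h1 : Tendsto (fun R : ℕ => Real.sqrt 2 * (2 * Real.sqrt ((1 / (R : ℝ)) * ∑ r ∈ range R, b r ^ 2))) atTop (𝓝 0) := by
      have h2 := (Real.continuous_sqrt.tendsto 0).comp hcorr
      rw [Real.sqrt_zero] at h2
      have h3 := (h2.const_mul 2).const_mul (Real.sqrt 2)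
      simpa using h3
    have h2 : ∀ᶠ R : ℕ in atTop, Real.sqrt 2 * (2 * Real.sqrt ((1 / (R : ℝ)) * ∑ r ∈ range R, b r ^ 2)) < ε ^ 2 / 2 :=
      h1.eventually_lt_const (by positivity)
    obtain ⟨R, hR1, hR2⟩ := (h2.and (eventually_gt_atTop 0)).exists
    exact ⟨R, hR2, hR1.le⟩
  set δ : ℝ := ε ^ 2 / 4 with hδ
  have hδ0 : 0 < δ := by positivity
  have hsm : ∀ r s, Sm W fun x => h r s x - ∫ y, h r s y ∂mX κ := by
    intro r s
    refine ih _ ((hhb r s).sub (BM.const (μ := mX κ) _)) ?_ ?_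
    · intro x y hxy
      show h r s x - _ = h r s y - _
      rw [hhl r s x y hxy]
    · rw [integral_sub (hhb r s).integrable (integrable_const _)]
      simp
  choose Q hQ using fun r s => hsm r s (δ ^ 2) (by positivity)
  have hmn : Measurable (ch n) := (HT.ch_cont n).measurable
  refine ⟨(range R ×ˢ range R).sup fun z => Q z.1 z.2, fun q hq D hD => ?_⟩
  have hvdc := rig_vdc W hmn (fun x => (HT.ch_norm n x).le) R hR0 hD
  have hbd : ∀ r ∈ range R, ∀ s ∈ range R,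
      Real.sqrt (∫ x, ‖((mX κ)[fun x => ch n ((TT W)^[r] x) * conj (ch n ((TT W)^[s] x)) | D]) x‖ ^ 2 ∂mX κ) ≤
        Real.sqrt 2 * (δ + ‖∫ x, h r s x ∂mX κ‖) := by
    intro r hr s hs
    have e1 := @rg_const (TX κ) D MeasurableSpace.pi (mX κ) _ hD.le (h r s) (hhb r s) (∫ y, h r s y ∂mX κ)
    refine e1.trans ?_
    gcongr
    have hq' : Q r s ≤ q := by
      have := Finset.le_sup (f := fun z : ℕ × ℕ => Q z.1 z.2) (mk_mem_product hr hs)
      exact this.trans hq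
    have e2 := hQ r s q hq' D hD
    calc Real.sqrt _ ≤ Real.sqrt (δ ^ 2) := Real.sqrt_le_sqrt e2
      _ = δ := Real.sqrt_sq hδ0.le
  have hR' : (0 : ℝ) < R := by exact_mod_cast hR0
  have hsum1 : ∑ r ∈ range R, ∑ s ∈ range R, ‖∫ x, h r s x ∂mX κ‖ ≤ 2 * R * ∑ k ∈ range R, b k :=
    rg_dbl b hb0 _ hc1 hc2 R
  have hsum2 := rg_avg b R hR0
  have h7 : (∫ x, ‖((mX κ)[ch n | D]) x‖ ^ 2 ∂mX κ) ^ 2 ≤ ε ^ 2 := by
    calc _ ≤ _ := hvdc
      _ ≤ (1 / (R : ℝ) ^ 2) * ∑ r ∈ range R, ∑ s ∈ range R, Real.sqrt 2 * (δ + ‖∫ x, h r s x ∂mX κ‖) := by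
          gcongr with r hr s hs
          exact hbd r hr s hs
      _ = Real.sqrt 2 * (δ + (1 / (R : ℝ) ^ 2) * ∑ r ∈ range R, ∑ s ∈ range R, ‖∫ x, h r s x ∂mX κ‖) := by
          simp only [← mul_sum, sum_add_distrib, sum_const, card_range, nsmul_eq_mul]
          field_simp
      _ ≤ Real.sqrt 2 * (δ + (1 / (R : ℝ) ^ 2) * (2 * R * ∑ k ∈ range R, b k)) := by gcongr
      _ = Real.sqrt 2 * δ + Real.sqrt 2 * (2 * ((1 / (R : ℝ)) * ∑ k ∈ range R, b k)) := by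
          field_simp
      _ ≤ 2 * δ + Real.sqrt 2 * (2 * Real.sqrt ((1 / (R : ℝ)) * ∑ k ∈ range R, b k ^ 2)) := by
          gcongr
          exact Real.sqrt_le_iff.2 ⟨by norm_num, by norm_num⟩
      _ ≤ 2 * δ + ε ^ 2 / 2 := by gcongr
      _ = ε ^ 2 := by rw [hδ]; ring
  exact (abs_le_of_sq_le_sq h7 hε.le) |> (le_abs_self _).trans

theorem Sm.all (hN : ND W) (a : ℕ) : ∀ f : TX κ → ℂ, BM (mX κ) f → Low W a f → ∫ x, f x ∂mX κ = 0 → Sm W f := by
  induction a with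
  | zero =>
    intro f hf hl h0
    refine Sm.of_ch 0 (fun n hn0 hn => ?_) hf hl h0
    exfalso
    apply hn0
    ext i
    by_contra hi
    exact absurd (hn i hi) (by omega)
  | succ a ih =>
    intro f hf hl h0
    refine Sm.of_ch (a + 1) (fun n hn0 hn => ?_) hf hl h0
    rcases a with _ | j
    · exact Sm.ch_base W hN n hn0 hn
    · exact Sm.ch_step W hN j ih n hn0 hn

/-- every bounded function of mean zero becomes small, uniformly in `D` (characters, induction on the top level) -/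
theorem rigid (hN : ND W) (f : TX κ → ℂ) (hf : BM (mX κ) f) (hf0 : ∫ x, f x ∂mX κ = 0) (ε : ℝ) (hε : 0 < ε) :
    ∃ q0 : ℕ, ∀ q ≥ q0, ∀ D : MeasurableSpace (TX κ), QF W q D → ∫ x, ‖((mX κ)[f | D]) x‖ ^ 2 ∂mX κ ≤ ε := by
  refine Sm.all W hN ((univ.sup W.lev) + 1) f hf (fun x y h => ?_) hf0 ε hε
  have : x = y := funext fun i => h i (Nat.lt_succ_of_le (Finset.le_sup (f := W.lev) (mem_univ i)))
  rw [this]

end Pool.Agent.Lib.MP_9fe581_an.AH
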