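import Pool.Agent.Lib.MP_9fe581_an.HT.Char

/-!
# AH / TriM: measurable triangular maps preserve Haar measure
-/

set_option autoImplicit false

open Finset MeasureTheory Filter Topology
open scoped ComplexConjugate Matrix

namespace Pool.Agent.Lib.MP_9fe581_an.AH

open HT (TX mX ch)

variable {κ : Type} [Fintype κ] [DecidableEq κ]

private theorem triM_half (a : ℤ) (ha : a ≠ 0) : ∃ t : UnitAddCircle, FT.ec (a • t) = -1 := by
  refine ⟨((1 / (2 * (a : ℝ)) : ℝ) : UnitAddCircle), ?_⟩
  have ha' : (a : ℝ) ≠ 0 := by exact_mod_cast ha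
  have h1 : a • ((1 / (2 * (a : ℝ)) : ℝ) : UnitAddCircle) = ((1 / 2 : ℝ) : UnitAddCircle) := by
    rw [← AddCircle.coe_zsmul, zsmul_eq_mul]
    congr 1
    field_simp
  rw [h1, FT.ec_coe]
  have h2 : ((2 * Real.pi * (1 / 2) : ℝ) : ℂ) = Real.pi := by
    push_cast
    ring
  rw [h2, Complex.exp_pi_mul_I]

theorem triM (lev : κ → ℕ) (θ : κ → TX κ → UnitAddCircle) (hc : ∀ i, Measurable (θ i))
    (hd : ∀ i x y, (∀ l, lev l < lev i → x l = y l) → θ i x = θ i y) :
    MeasurePreserving (fun x i => x i + θ i x) (mX κ) (mX κ) := by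
  have hcont : Measurable (fun (x : TX κ) (i : κ) => x i + θ i x) :=
    measurable_pi_lambda _ fun i => (measurable_pi_apply i).add (hc i)
  refine ⟨hcont, ?_⟩
  have hp : IsProbabilityMeasure (Measure.map (fun (x : TX κ) (i : κ) => x i + θ i x) (mX κ)) :=
    Measure.isProbabilityMeasure_map hcont.aemeasurable
  refine HT.ch_ext _ _ fun m => ?_
  rw [integral_map hcont.aemeasurable (HT.ch_cont m).aestronglyMeasurable, HT.ch_int]
  by_cases hm : m = 0
  · rw [if_pos hm, hm]
    simp only [HT.ch_zero]
    simp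
  · rw [if_neg hm]
    obtain ⟨l, hl, hmax⟩ := exists_max_image m.support lev (Finsupp.support_nonempty_iff.2 hm)
    obtain ⟨t, ht⟩ := triM_half (m l) (Finsupp.mem_support_iff.1 hl)
    obtain ⟨v, hv⟩ : ∃ v : TX κ, v = Pi.single l t := ⟨_, rfl⟩
    have key : ∀ x : TX κ, ch m (fun i => (x + v) i + θ i (x + v)) =
        -ch m (fun i => x i + θ i x) := by
      intro x
      have h1 : ch m (fun i => (x + v) i + θ i (x + v)) =
          ch m ((fun i => x i + θ i x) + v) := by
        unfold HT.ch
        congr 1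
        refine FT.pr_congr m _ _ fun i hi => ?_
        have h2 : lev i ≤ lev l := hmax i (Finsupp.mem_support_iff.2 hi)
        have h3 : θ i (x + v) = θ i x := by
          refine hd i _ _ fun k hk => ?_
          have h4 : k ≠ l := by
            rintro rfl
            omega
          rw [Pi.add_apply, hv, Pi.single_eq_of_ne h4, add_zero]
        rw [h3, Pi.add_apply, Pi.add_apply]
        exact add_right_comm _ _ _
      rw [h1, HT.ch_add_right]
      have h5 : ch m v = -1 := by
        unfold HT.ch
        rw [hv, FT.pr_single, ht]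
      rw [h5]
      ring
    have h6 := integral_add_right_eq_self (μ := mX κ) (fun x : TX κ => ch m (fun i => x i + θ i x))
      v
    have h7 : ∫ x, ch m (fun i => (x + v) i + θ i (x + v)) ∂mX κ =
        -∫ x, ch m (fun i => x i + θ i x) ∂mX κ := by
      rw [← integral_neg]
      exact integral_congr_ae (Eventually.of_forall fun x => key x)
    have h8 : ∫ x, ch m (fun i => x i + θ i x) ∂mX κ = -∫ x, ch m (fun i => x i + θ i x) ∂mX κ :=
      h6.symm.trans h7
    exact self_eq_neg.1 h8

end Pool.Agent.Lib.MP_9fe581_an.AH
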