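import Pool.Agent.Lib.MP_9fe581_an.HT.Char
import Pool.Agent.Lib.MP_9fe581_an.AH.TriM

/-!
# AH, module N-A: towers in the flat model

`T x i = x i + ψ i x`, `ψ i` measurable, depending on the coordinates of level `< lev i` only.  `Low W a f`: `f` depends on the
coordinates of level `< a`.  `psn W n x = T^n x - x`.  `lp W j b`: the part of `b` on the level `j`.
-/

set_option autoImplicit false
set_option linter.unusedSectionVars false

open MeasureTheory Filter Topology Finset
open scoped ComplexConjugate

namespace Pool.Agent.Lib.MP_9fe581_an.AH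

open HT (TX mX ch)

/-- a tower of torus extensions, flat -/
structure Tow (κ : Type) where
  /-- the level of a coordinate -/
  lev : κ → ℕ
  /-- the cocycles -/
  ψ : κ → TX κ → UnitAddCircle
  meas : ∀ i, Measurable (ψ i)
  dep : ∀ i x y, (∀ l, lev l < lev i → x l = y l) → ψ i x = ψ i y

variable {κ : Type}

/-- the skew product -/
def TT (W : Tow κ) (x : TX κ) : TX κ := fun i => x i + W.ψ i x

/-- `f` depends only on the coordinates of level `< a` -/
def Low (W : Tow κ) (a : ℕ) {E : Type} (f : TX κ → E) : Prop := ∀ x y, (∀ i, W.lev i < a → x i = y i) → f x = f y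

/-- `m` is supported on the level `j` -/
def OnM (W : Tow κ) (j : ℕ) (m : κ →₀ ℤ) : Prop := ∀ i, m i ≠ 0 → W.lev i = j

/-- the part of `b` on the level `j` -/
noncomputable def lp (W : Tow κ) (j : ℕ) (b : TX κ) : TX κ := fun i => if W.lev i = j then b i else 0

/-- `T^n x - x` -/
noncomputable def psn (W : Tow κ) (n : ℕ) (x : TX κ) : TX κ := (TT W)^[n] x - x

/-- the hypothesis of the theorem: (level 0) `m ψ` is not an integer for `m ≠ 0` on the level 0; (level `j + 1`) for `m ≠ 0` on the level
`j + 1` there is `b` on the level `j` such that `m (ψ (x + b) - ψ x)` is not a coboundary of measurable functions of level `≤ j` -/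
structure ND [Fintype κ] (W : Tow κ) : Prop where
  base : ∀ m : κ →₀ ℤ, m ≠ 0 → OnM W 0 m → ch m (fun i => W.ψ i 0) ≠ 1
  nd : ∀ (j : ℕ) (m : κ →₀ ℤ), m ≠ 0 → OnM W (j + 1) m → ∃ b : TX κ, ∀ w : TX κ → ℂ, Measurable w → (∀ x, ‖w x‖ = 1) →
    Low W (j + 1) w → ¬ ∀ᵐ x ∂mX κ, w (TT W x) = ch m (fun i => W.ψ i (x + lp W j b) - W.ψ i x) * w x

variable [Fintype κ] [DecidableEq κ] (W : Tow κ)

theorem TT_meas : Measurable (TT W) := measurable_pi_lambda _ fun i => (measurable_pi_apply i).add (W.meas i)

theorem TTn_meas (n : ℕ) : Measurable (TT W)^[n] := (TT_meas W).iterate n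

theorem TT_pres : MeasurePreserving (TT W) (mX κ) (mX κ) := triM W.lev W.ψ W.meas W.dep

theorem Low.mono {W : Tow κ} {a b : ℕ} (h : a ≤ b) {E : Type} {f : TX κ → E} (hf : Low W a f) : Low W b f :=
  fun x y hxy => hf x y fun i hi => hxy i (hi.trans_le h)

theorem psi_low (i : κ) : Low W (W.lev i) (W.ψ i) := fun x y h => W.dep i x y h

/-- the lower coordinates of `T^n x` depend on the lower coordinates of `x` only -/
theorem iter_low (n a : ℕ) (x y : TX κ) (h : ∀ i, W.lev i < a → x i = y i) :
    ∀ i, W.lev i < a → (TT W)^[n] x i = (TT W)^[n] y i := by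
  induction n generalizing x y with
  | zero => exact h
  | succ n ih =>
    intro i hi
    rw [Function.iterate_succ_apply, Function.iterate_succ_apply]
    refine ih _ _ (fun l hl => ?_) i hi
    show x l + W.ψ l x = y l + W.ψ l y
    rw [h l hl, W.dep l x y fun k hk => h k (hk.trans hl)]

theorem Low.iter {W : Tow κ} {a : ℕ} {E : Type} {f : TX κ → E} (hf : Low W a f) (n : ℕ) :
    Low W a fun x => f ((TT W)^[n] x) := fun x y h => hf _ _ (iter_low W n a x y h)

/-- on the coordinates of level `≤ j`, `T^n` commutes with the rotations of the level `j` -/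
theorem iter_rot (n j : ℕ) (b x : TX κ) : ∀ i, W.lev i ≤ j → (TT W)^[n] (x + lp W j b) i = (TT W)^[n] x i + lp W j b i := by
  induction n generalizing x with
  | zero => intro i _; rfl
  | succ n ih =>
    intro i hi
    rw [Function.iterate_succ_apply, Function.iterate_succ_apply]
    have h1 : ∀ l, W.lev l < j + 1 → TT W (x + lp W j b) l = (TT W x + lp W j b) l := by
      intro l hl
      show (x + lp W j b) l + W.ψ l (x + lp W j b) = (x l + W.ψ l x) + lp W j b l
      rw [W.dep l (x + lp W j b) x fun k hk => ?_]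
      · rw [Pi.add_apply]; abel
      · rw [Pi.add_apply]
        have : lp W j b k = 0 := if_neg (by omega)
        rw [this, add_zero]
    rw [iter_low W n (j + 1) _ _ h1 i (by omega), ih (TT W x) i hi]

theorem Low.rot {W : Tow κ} {j : ℕ} {E : Type} {f : TX κ → E} (hf : Low W (j + 1) f) (n : ℕ) (b x : TX κ) :
    f ((TT W)^[n] (x + lp W j b)) = f ((TT W)^[n] x + lp W j b) :=
  hf _ _ fun i hi => by rw [iter_rot W n j b x i (by omega)]; rfl

theorem Low.shift {W : Tow κ} {a : ℕ} {E : Type} {f : TX κ → E} (hf : Low W a f) (c : TX κ) : Low W a fun x => f (x + c) :=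
  fun x y h => hf _ _ fun i hi => by rw [Pi.add_apply, Pi.add_apply, h i hi]

theorem Low.mul {W : Tow κ} {a : ℕ} {f g : TX κ → ℂ} (hf : Low W a f) (hg : Low W a g) : Low W a fun x => f x * g x :=
  fun x y h => by show f x * g x = f y * g y; rw [hf x y h, hg x y h]

theorem Low.conj {W : Tow κ} {a : ℕ} {f : TX κ → ℂ} (hf : Low W a f) : Low W a fun x => conj (f x) :=
  fun x y h => congrArg _ (hf x y h)

theorem psn_succ (n : ℕ) (x : TX κ) : psn W (n + 1) x = (fun i => W.ψ i x) + psn W n (TT W x) := by
  unfold psn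
  rw [Function.iterate_succ_apply]
  have : TT W x = x + fun i => W.ψ i x := rfl
  rw [sub_eq_add_neg, sub_eq_add_neg]
  nth_rewrite 3 [this]
  abel

theorem psn_add (n k : ℕ) (x : TX κ) : psn W (n + k) x = psn W k x + psn W n ((TT W)^[k] x) := by
  unfold psn
  rw [Function.iterate_add_apply]
  abel

/-- the coordinates of level `≤ a` of `psn` depend on levels `< a` -/
theorem psn_low (n : ℕ) (i : κ) : Low W (W.lev i) fun x => psn W n x i := by
  induction n with
  | zero => intro x y _; simp [psn]
  | succ n ih =>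
    intro x y h
    show psn W (n + 1) x i = psn W (n + 1) y i
    rw [psn_succ, psn_succ, Pi.add_apply, Pi.add_apply]
    have h1 : psn W n (TT W x) i = psn W n (TT W y) i := ih _ _ fun l hl => iter_low W 1 (W.lev i) x y h l hl
    rw [h1, W.dep i x y h]

theorem chpsn_low {a : ℕ} {m : κ →₀ ℤ} (hm : OnM W a m) (n : ℕ) : Low W a fun x => ch m (psn W n x) := by
  intro x y h
  show FT.ec (FT.pr m (psn W n x)) = FT.ec (FT.pr m (psn W n y))
  rw [FT.pr_congr m _ _ fun i hi => psn_low W n i x y fun l hl => h l (by rw [hm i hi] at hl; exact hl)]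

theorem ch_iter (m : κ →₀ ℤ) (n : ℕ) (x : TX κ) : ch m ((TT W)^[n] x) = ch m (psn W n x) * ch m x := by
  rw [← HT.ch_add_right]
  unfold psn
  rw [sub_add_cancel]

theorem psn_meas (n : ℕ) : Measurable (psn W n) := (TTn_meas W n).sub measurable_id

theorem chpsn_meas (m : κ →₀ ℤ) (n : ℕ) : Measurable fun x => ch m (psn W n x) :=
  (HT.ch_cont m).measurable.comp (psn_meas W n)

end Pool.Agent.Lib.MP_9fe581_an.AH
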