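import Pool.Agent.Lib.MP_9fe581_an.AH.Erg
import Pool.Agent.Lib.MP_9fe581_an.AH.CE
import Pool.Agent.Lib.MP_9fe581_an.HD.MeanErg

/-!
# AH, module N-U: unique ergodicity of the powers
-/

set_option autoImplicit false
set_option linter.unusedSectionVars false

open MeasureTheory Filter Topology Finset
open scoped ComplexConjugate

namespace Pool.Agent.Lib.MP_9fe581_an.AH

open HT (TX mX ch)

theorem ue_l2 {Ω : Type} [MeasurableSpace Ω] {μ : Measure Ω} [IsProbabilityMeasure μ] {U : Ω → Ω}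
    (hU : Ergodic U μ) {f : Ω → ℂ} (hf : BM μ f) (h0 : ∫ ω, f ω ∂μ = 0) :
    Tendsto (fun N : ℕ => ∫ ω, ‖(1 / (N : ℂ)) * ∑ n ∈ Icc 1 N, f (U^[n] ω)‖ ^ 2 ∂μ) atTop (𝓝 0) := by
  have hm : MeasurePreserving U μ μ := hU.toMeasurePreserving
  obtain ⟨P, hP1, hP2, -⟩ := HD.mean_erg hm 1 (by norm_num)
  set F : Lp ℂ 2 μ := (hf.memLp 2).toLp f with hF
  have hFf : F =ᵐ[μ] f := MemLp.coeFn_toLp _
  obtain ⟨c, hc⟩ : ∃ c : ℂ, (P F : Ω → ℂ) =ᵐ[μ] fun _ => c := by
    have h3 := hP1 F
    simp only [one_mul] at h3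
    exact hU.ae_eq_const_of_ae_eq_comp₀ (Lp.aestronglyMeasurable _).aemeasurable.nullMeasurable h3
  have hlim := hP2 F
  simp only [map_one, one_pow, one_smul] at hlim
  -- the representative of the average
  have hrep : ∀ N : ℕ, (((1 / (N : ℂ)) • ∑ n ∈ Icc 1 N,
      Lp.compMeasurePreserving (U^[n]) (hm.iterate n) F : Lp ℂ 2 μ) : Ω → ℂ) =ᵐ[μ]
      fun ω => (1 / (N : ℂ)) * ∑ n ∈ Icc 1 N, f (U^[n] ω) := by
    intro N
    have h1 := Lp.coeFn_smul (1 / (N : ℂ)) (∑ n ∈ Icc 1 N,
      Lp.compMeasurePreserving (U^[n]) (hm.iterate n) F : Lp ℂ 2 μ)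
    have h2 : (((∑ n ∈ Icc 1 N, Lp.compMeasurePreserving (U^[n]) (hm.iterate n) F : Lp ℂ 2 μ)) :
        Ω → ℂ) =ᵐ[μ] fun ω => ∑ n ∈ Icc 1 N, f (U^[n] ω) := by
      induction (Icc 1 N) using Finset.induction_on with
      | empty =>
        simp only [sum_empty]
        exact Lp.coeFn_zero _ _ _
      | insert a s ha ih =>
        rw [sum_insert ha]
        have h3 := Lp.coeFn_add (Lp.compMeasurePreserving (U^[a]) (hm.iterate a) F)
          (∑ n ∈ s, Lp.compMeasurePreserving (U^[n]) (hm.iterate n) F)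
        have h4 := Lp.coeFn_compMeasurePreserving F (hm.iterate a)
        have h5 := (hm.iterate a).quasiMeasurePreserving.ae_eq_comp hFf
        filter_upwards [h3, h4, h5, ih] with ω e1 e2 e3 e4
        rw [e1, Pi.add_apply, e2, e4, sum_insert ha]
        simp only [Function.comp] at e3 ⊢
        rw [e3]
    filter_upwards [h1, h2] with ω e1 e2
    rw [e1, Pi.smul_apply, e2, smul_eq_mul]
  -- the constant is zero
  have hPF : P F = 0 := by
    have hc0 : c = 0 := by
      have h6 : ∀ G : Lp ℂ 2 μ, (∫ ω, G ω ∂μ) = inner ℂ (indicatorConstLp 2 MeasurableSet.univ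
          (measure_ne_top μ _) (1 : ℂ)) G := by
        intro G
        rw [L2.inner_indicatorConstLp_one, setIntegral_univ]
      have h7 : Tendsto (fun N : ℕ => ∫ ω, ((1 / (N : ℂ)) • ∑ n ∈ Icc 1 N,
          Lp.compMeasurePreserving (U^[n]) (hm.iterate n) F : Lp ℂ 2 μ) ω ∂μ) atTop
          (𝓝 (∫ ω, (P F) ω ∂μ)) := by
        simp only [h6]
        exact Filter.Tendsto.inner tendsto_const_nhds hlim
      have h8 : ∀ N : ℕ, ∫ ω, ((1 / (N : ℂ)) • ∑ n ∈ Icc 1 N,
          Lp.compMeasurePreserving (U^[n]) (hm.iterate n) F : Lp ℂ 2 μ) ω ∂μ = 0 := by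
        intro N
        rw [integral_congr_ae (hrep N), integral_const_mul, integral_finsetSum]
        · have : ∀ n ∈ Icc 1 N, ∫ ω, f (U^[n] ω) ∂μ = 0 := by
            intro n _
            have hn := hm.iterate n
            have h9 : ∫ y, f y ∂(μ.map U^[n]) = ∫ ω, f (U^[n] ω) ∂μ :=
              integral_map hn.measurable.aemeasurable (by rw [hn.map_eq]; exact hf.1)
            rw [← h9, hn.map_eq, h0]
          rw [sum_eq_zero this, mul_zero]
        · intro n _
          exact ((hm.iterate n).integrable_comp_of_integrable hf.integrable)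
      simp only [h8] at h7
      have h9 := tendsto_nhds_unique tendsto_const_nhds h7
      rw [integral_congr_ae hc, integral_const] at h9
      simpa using h9.symm
    apply Lp.ext
    refine hc.trans ?_
    rw [hc0]
    exact (Lp.coeFn_zero _ _ _).symm
  have h10 := (hlim.norm).pow 2
  rw [hPF, norm_zero, zero_pow two_ne_zero] at h10
  refine h10.congr fun N => ?_
  set G : Lp ℂ 2 μ := (1 / (N : ℂ)) • ∑ n ∈ Icc 1 N, Lp.compMeasurePreserving (U^[n]) (hm.iterate n) F
    with hG
  have h11 : ((‖G‖ ^ 2 : ℝ) : ℂ) = ((∫ ω, ‖(1 / (N : ℂ)) * ∑ n ∈ Icc 1 N, f (U^[n] ω)‖ ^ 2 ∂μ : ℝ) : ℂ) := by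
    have h12 : ((‖G‖ ^ 2 : ℝ) : ℂ) = inner ℂ G G := by
      rw [inner_self_eq_norm_sq_to_K]; norm_cast
    rw [h12, L2.inner_def, ← integral_complex_ofReal]
    refine integral_congr_ae ?_
    filter_upwards [hrep N] with ω hω
    rw [← hG] at hω
    rw [hω, inner_self_eq_norm_sq_to_K]
    norm_cast
  exact_mod_cast h11

variable {κ : Type} [Fintype κ] [DecidableEq κ] (W : Tow κ)


/-- keep the lower coordinates -/
noncomputable def ue_cut (a : ℕ) (x : TX κ) : TX κ := fun i => if W.lev i < a then x i else 0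

theorem ue_cut_cont (a : ℕ) : Continuous (ue_cut W a) := by
  refine continuous_pi fun i => ?_
  by_cases h : W.lev i < a
  · simp only [ue_cut, if_pos h]; exact continuous_apply i
  · simp only [ue_cut, if_neg h]; exact continuous_const

theorem ch_ue_cut (a : ℕ) (m : κ →₀ ℤ) (x : TX κ) :
    ch m (ue_cut W a x) = ch (m.filter (fun i => W.lev i < a)) x := by
  unfold ch
  have h1 : FT.pr m (ue_cut W a x) = FT.pr (m.filter (fun i => W.lev i < a)) (ue_cut W a x) +
      FT.pr (m.filter (fun i => ¬ W.lev i < a)) (ue_cut W a x) := by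
    rw [← FT.pr_add, Finsupp.filter_add_filter_not]
  have h2 : FT.pr (m.filter (fun i => ¬ W.lev i < a)) (ue_cut W a x) =
      FT.pr (m.filter (fun i => ¬ W.lev i < a)) (0 : TX κ) := by
    refine FT.pr_congr _ _ _ fun i hi => ?_
    have : ¬ W.lev i < a := by
      by_contra hcon
      apply hi
      exact Finsupp.filter_apply_neg (fun i => ¬ W.lev i < a) _ (by simpa using hcon)
    simp [ue_cut, if_neg this]
  have h3 : FT.pr (m.filter (fun i => ¬ W.lev i < a)) (0 : TX κ) = 0 := by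
    have := FT.pr_add_right (m.filter (fun i => ¬ W.lev i < a)) (0 : TX κ) 0
    rw [add_zero] at this
    exact left_eq_add.1 this
  have h4 : FT.pr (m.filter (fun i => W.lev i < a)) (ue_cut W a x) =
      FT.pr (m.filter (fun i => W.lev i < a)) x := by
    refine FT.pr_congr _ _ _ fun i hi => ?_
    have : W.lev i < a := by
      by_contra hcon
      apply hi
      exact Finsupp.filter_apply_neg (fun i => W.lev i < a) _ hcon
    simp [ue_cut, if_pos this]
  rw [h1, h2, h3, add_zero, h4]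

theorem ue_low {ν : Measure (TX κ)} [IsProbabilityMeasure ν] (a : ℕ)
    (h : ∀ n : κ →₀ ℤ, n ≠ 0 → (∀ i, n i ≠ 0 → W.lev i < a) → ∫ x, ch n x ∂ν = 0)
    {g : TX κ → ℝ} (hg : Measurable g) (hl : Low W a g) : ∫ x, g x ∂ν = ∫ x, g x ∂mX κ := by
  have hcm := (ue_cut_cont W a).measurable
  have h1 : ν.map (ue_cut W a) = (mX κ).map (ue_cut W a) := by
    have p1 : IsProbabilityMeasure (ν.map (ue_cut W a)) := Measure.isProbabilityMeasure_map hcm.aemeasurable
    have p2 : IsProbabilityMeasure ((mX κ).map (ue_cut W a)) :=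
      Measure.isProbabilityMeasure_map hcm.aemeasurable
    refine HT.ch_ext _ _ fun m => ?_
    rw [integral_map hcm.aemeasurable (HT.ch_cont m).aestronglyMeasurable,
      integral_map hcm.aemeasurable (HT.ch_cont m).aestronglyMeasurable]
    simp only [ch_ue_cut]
    rw [HT.ch_int]
    by_cases h0 : m.filter (fun i => W.lev i < a) = 0
    · rw [h0, if_pos rfl]
      simp only [HT.ch_zero]
      simp
    · rw [if_neg h0]
      refine h _ h0 fun i hi => ?_
      by_contra hcon
      apply hi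
      exact Finsupp.filter_apply_neg (fun i => W.lev i < a) _ hcon
  have h2 : ∀ x, g x = g (ue_cut W a x) := fun x => hl _ _ fun i hi => by simp [ue_cut, if_pos hi]
  calc ∫ x, g x ∂ν = ∫ x, g (ue_cut W a x) ∂ν := by simp only [← h2]
    _ = ∫ y, g y ∂(ν.map (ue_cut W a)) :=
        (integral_map hcm.aemeasurable hg.aestronglyMeasurable).symm
    _ = ∫ y, g y ∂((mX κ).map (ue_cut W a)) := by rw [h1]
    _ = ∫ x, g (ue_cut W a x) ∂mX κ := integral_map hcm.aemeasurable hg.aestronglyMeasurable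
    _ = ∫ x, g x ∂mX κ := by simp only [← h2]

theorem ue_ind (hN : ND W) {p : ℕ} (hp : 0 < p) (ν : Measure (TX κ)) [IsProbabilityMeasure ν]
    (hν : MeasurePreserving (TT W)^[p] ν ν) (a : ℕ) :
    ∀ n : κ →₀ ℤ, n ≠ 0 → (∀ i, n i ≠ 0 → W.lev i < a) → ∫ x, ch n x ∂ν = 0 := by
  induction a with
  | zero =>
    intro n hn h
    exfalso
    apply hn
    ext i
    by_contra hi
    exact absurd (h i hi) (by omega)
  | succ a ih =>
    intro n hn h
    set g : ℕ → TX κ → ℝ := fun N x =>
      ‖(1 / (N : ℂ)) * ∑ k ∈ Icc 1 N, ch n (((TT W)^[p])^[k] x)‖ ^ 2 with hg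
    have hitc : ∀ k : ℕ, Measurable (((TT W)^[p])^[k]) := fun k => (TTn_meas W p).iterate k
    have hgc : ∀ N, Measurable (g N) := by
      intro N
      refine Measurable.pow_const (Measurable.norm ?_) 2
      refine measurable_const.mul ?_
      exact Finset.measurable_fun_sum _ fun k _ => (HT.ch_cont n).measurable.comp (hitc k)
    have hgl : ∀ N, Low W a (g N) := by
      intro N
      have e : ∀ x, g N x = ‖(1 / (N : ℂ)) * ∑ k ∈ Icc 1 N, ch n (psn W (p * k) x)‖ ^ 2 := by
        intro x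
        simp only [hg]
        have e1 : ∑ k ∈ Icc 1 N, ch n (((TT W)^[p])^[k] x) =
            (∑ k ∈ Icc 1 N, ch n (psn W (p * k) x)) * ch n x := by
          rw [sum_mul]
          refine sum_congr rfl fun k _ => ?_
          rw [← Function.iterate_mul, ch_iter]
        rw [e1, ← mul_assoc, norm_mul, HT.ch_norm, mul_one]
      intro x y hxy
      rw [e, e]
      have e2 : ∀ k, ch n (psn W (p * k) x) = ch n (psn W (p * k) y) := by
        intro k
        show FT.ec (FT.pr n _) = FT.ec (FT.pr n _)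
        rw [FT.pr_congr n _ _ fun i hi => psn_low W (p * k) i x y fun l hl => hxy l (by
          have := h i hi; omega)]
      simp only [e2]
    have hint : ∀ N, ∫ x, g N x ∂ν = ∫ x, g N x ∂mX κ := fun N => ue_low W a ih (hgc N) (hgl N)
    have hlim : Tendsto (fun N => ∫ x, g N x ∂mX κ) atTop (𝓝 0) := by
      have hb : BM (mX κ) (ch n) := BM.of_bdd (HT.ch_cont n).measurable (C := 1) fun x => (HT.ch_norm n x).le
      have h0 : ∫ x, ch n x ∂mX κ = 0 := by rw [HT.ch_int, if_neg hn]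
      exact ue_l2 (erg W hN hp) hb h0
    -- the integral over ν
    have hle : ∀ N : ℕ, 0 < N → ‖∫ x, ch n x ∂ν‖ ^ 2 ≤ ∫ x, g N x ∂ν := by
      intro N hN0
      have e1 : ∫ x, (1 / (N : ℂ)) * ∑ k ∈ Icc 1 N, ch n (((TT W)^[p])^[k] x) ∂ν = ∫ x, ch n x ∂ν := by
        rw [integral_const_mul, integral_finsetSum]
        · have e2 : ∀ k ∈ Icc 1 N, ∫ x, ch n (((TT W)^[p])^[k] x) ∂ν = ∫ x, ch n x ∂ν := by
            intro k _
            have hk := hν.iterate k
            have e3 : ∫ y, ch n y ∂(ν.map (((TT W)^[p])^[k])) = ∫ x, ch n (((TT W)^[p])^[k] x) ∂ν :=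
              integral_map hk.measurable.aemeasurable (HT.ch_cont n).aestronglyMeasurable
            rw [← e3, hk.map_eq]
          rw [sum_congr rfl e2, sum_const, Nat.card_Icc]
          simp only [add_tsub_cancel_right, nsmul_eq_mul]
          rw [← mul_assoc, one_div, inv_mul_cancel₀ (by exact_mod_cast hN0.ne'), one_mul]
        · intro k _
          exact (BM.of_bdd (μ := ν) ((HT.ch_cont n).measurable.comp (hitc k)) (C := 1) fun x => (HT.ch_norm n _).le).integrable
      rw [← e1]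
      set u : TX κ → ℂ := fun x => (1 / (N : ℂ)) * ∑ k ∈ Icc 1 N, ch n (((TT W)^[p])^[k] x) with hu
      have hub : BM ν u := by
        have hb1 : BM ν fun x => ∑ k ∈ Icc 1 N, ch n (((TT W)^[p])^[k] x) :=
          BM.sum _ fun k _ => BM.of_bdd (μ := ν) ((HT.ch_cont n).measurable.comp (hitc k)) (C := 1)
            fun x => (HT.ch_norm n _).le
        exact (BM.const (μ := ν) (1 / (N : ℂ))).mul hb1
      have h1 := bm_cs (μ := ν) hub (BM.const (μ := ν) 1)
      simp only [map_one, mul_one, norm_one, one_pow, integral_const, probReal_univ,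
        smul_eq_mul, Real.sqrt_one] at h1
      have h2 : 0 ≤ ∫ x, ‖u x‖ ^ 2 ∂ν := integral_nonneg fun x => by positivity
      calc ‖∫ x, u x ∂ν‖ ^ 2 ≤ Real.sqrt (∫ x, ‖u x‖ ^ 2 ∂ν) ^ 2 := by gcongr
        _ = ∫ x, ‖u x‖ ^ 2 ∂ν := Real.sq_sqrt h2
        _ = ∫ x, g N x ∂ν := rfl
    have hfin : ‖∫ x, ch n x ∂ν‖ ^ 2 ≤ 0 := by
      refine ge_of_tendsto hlim ?_
      filter_upwards [eventually_gt_atTop 0] with N hN0
      rw [← hint N]
      exact hle N hN0
    have : ‖∫ x, ch n x ∂ν‖ = 0 := by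
      have := norm_nonneg (∫ x, ch n x ∂ν)
      nlinarith
    exact norm_eq_zero.1 this

theorem uniq (hN : ND W) {p : ℕ} (hp : 0 < p) (ν : Measure (TX κ)) [IsProbabilityMeasure ν]
    (hν : MeasurePreserving (TT W)^[p] ν ν) : ν = mX κ := by
  refine HT.ch_ext _ _ fun m => ?_
  rw [HT.ch_int]
  split_ifs with h
  · subst h
    simp only [HT.ch_zero]
    simp
  · refine ue_ind W hN hp ν hν ((univ.sup W.lev) + 1) m h fun i _ => ?_
    exact Nat.lt_succ_of_le (Finset.le_sup (f := W.lev) (mem_univ i))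

end Pool.Agent.Lib.MP_9fe581_an.AH
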